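import Pool.Agent.Shared.Subspace.MainParam

/-!
Part H2b: the b-adic Subspace Theorem, parametric and classical forms.
-/

namespace Pool.Agent.Subspace

/-- Parametric form. -/
theorem parametric {n : ℕ} (hn : 1 ≤ n) (b : ℕ) (hb : 2 ≤ b) (k : Fin n → ℕ) (c : Fin n → ℝ)
    (L : Matrix (Fin n) (Fin n) ℝ) (hL : ∀ i j, IsAlgebraic ℚ (L i j)) (hdet : L.det ≠ 0)
    (hck : ∑ i, c i < ∑ i, (k i : ℝ)) :
    ∃ (Ψ : Finset (Fin n → ℤ)) (m₀ : ℕ), (∀ ψ ∈ Ψ, ψ ≠ 0) ∧ ∀ m : ℕ, m₀ ≤ m →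
      ∃ ψ ∈ Ψ, ∀ x : Fin n → ℤ, InBox b k c L m x → ∑ i, ψ i * x i = 0 :=
  parametric_aux hn b hb k c L hL hdet hck

/-- Parametric form for an arbitrary finite index type. -/
theorem parametric' {ι : Type*} [Fintype ι] [DecidableEq ι] [Nonempty ι] (b : ℕ) (hb : 2 ≤ b)
    (k : ι → ℕ) (c : ι → ℝ) (L : Matrix ι ι ℝ) (hL : ∀ i j, IsAlgebraic ℚ (L i j))
    (hdet : L.det ≠ 0) (hck : ∑ i, c i < ∑ i, (k i : ℝ)) :
    ∃ (Ψ : Finset (ι → ℤ)) (m₀ : ℕ), (∀ ψ ∈ Ψ, ψ ≠ 0) ∧ ∀ m : ℕ, m₀ ≤ m →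
      ∃ ψ ∈ Ψ, ∀ x : ι → ℤ, InBox b k c L m x → ∑ i, ψ i * x i = 0 := by
  classical
  let e := (Fintype.equivFin ι).symm
  obtain ⟨Ψ, m₀, h1, h2⟩ := parametric (n := Fintype.card ι) Fintype.card_pos b hb (k ∘ e) (c ∘ e)
    (L.submatrix e e) (fun i j => hL _ _) (by rwa [Matrix.det_submatrix_equiv_self])
    (by
      simp only [Function.comp_apply]
      rwa [Equiv.sum_comp e c, Equiv.sum_comp e fun i => (k i : ℝ)])
  refine ⟨Ψ.image fun ψ => ψ ∘ e.symm, m₀, ?_, fun m hm => ?_⟩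
  · intro ψ hψ
    obtain ⟨φ, hφ, rfl⟩ := Finset.mem_image.mp hψ
    intro h
    apply h1 φ hφ
    funext i
    simpa using congrFun h (e i)
  · obtain ⟨ψ, hψ, h3⟩ := h2 m hm
    refine ⟨ψ ∘ e.symm, Finset.mem_image_of_mem _ hψ, fun x hx => ?_⟩
    rw [← h3 (x ∘ e) ⟨fun i => hx.1 _, fun i => ?_⟩, ← Equiv.sum_comp e]
    · simp
    · have := hx.2 (e i)
      rw [← Equiv.sum_comp e] at this
      exact this

/-- The b-adic Subspace Theorem (take `t = 0` for the theorem of Schmidt). -/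
theorem subspace {ι : Type*} [Fintype ι] [DecidableEq ι] [Nontrivial ι] (b : ℕ) (hb : 2 ≤ b)
    (L : Matrix ι ι ℝ) (hL : ∀ i j, IsAlgebraic ℚ (L i j)) (hdet : L.det ≠ 0)
    {ε : ℝ} (hε : 0 < ε) :
    ∃ Ψ : Finset (ι → ℤ), (∀ ψ ∈ Ψ, ψ ≠ 0) ∧ ∀ (x : ι → ℤ) (t : ι → ℕ) (H : ℝ),
      (∀ i, |(x i : ℝ)| ≤ H) → (∀ i, (b : ℤ) ^ t i ∣ x i) →
      (∏ i, |∑ j, L i j * (x j : ℝ)|) * H ^ ε ≤ (b : ℝ) ^ (∑ i, t i) →
      ∃ ψ ∈ Ψ, ∑ i, ψ i * x i = 0 := by
  classical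
  have hb1 : (1 : ℝ) < b := by exact_mod_cast hb
  have hb0 : (0 : ℝ) < b := by positivity
  set n : ℕ := Fintype.card ι with hn
  obtain ⟨N, hN⟩ : ∃ N : ℕ, 4 * (n : ℝ) / ε < N := exists_nat_gt _
  rw [div_lt_iff₀ hε] at hN
  have hN0 : (0 : ℝ) < N := by
    have : (0 : ℝ) ≤ 4 * n := by positivity
    by_contra h
    have : (N : ℝ) * ε ≤ 0 := mul_nonpos_of_nonpos_of_nonneg (not_lt.mp h) hε.le
    linarith
  set G : ℤ := n * (N + 1) + 1 with hG
  have hex : ∀ t : (ι → ℕ) × (ι → ℤ), ∃ (Ψ : Finset (ι → ℤ)) (m₀ : ℕ), (∀ ψ ∈ Ψ, ψ ≠ 0) ∧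
      (∑ i, (t.2 i : ℝ) < ∑ i, (t.1 i : ℝ) → ∀ m : ℕ, m₀ ≤ m →
      ∃ ψ ∈ Ψ, ∀ x : ι → ℤ, InBox b t.1 (fun i => (t.2 i : ℝ)) L m x → ∑ i, ψ i * x i = 0) := by
    intro t
    by_cases h : ∑ i, (t.2 i : ℝ) < ∑ i, (t.1 i : ℝ)
    · obtain ⟨Ψ, m₀, h1, h2⟩ := parametric' b hb t.1 (fun i => (t.2 i : ℝ)) L hL hdet h
      exact ⟨Ψ, m₀, h1, fun _ => h2⟩
    · exact ⟨∅, 0, by simp, fun h' => absurd h' h⟩
  choose Ψ m₀ hΨ hpar using hex
  let T : Finset ((ι → ℕ) × (ι → ℤ)) :=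
    (Fintype.piFinset fun _ => Finset.range (N + 1)) ×ˢ
      Fintype.piFinset fun _ => Finset.Icc (-G) (N + 1)
  obtain ⟨m₃, hm₃⟩ := exists_lt_rpow b hb (∑ i, ∑ j, |L i j|) one_pos
  set M : ℕ := T.sup m₀ + m₃ + 2 with hM
  obtain ⟨i₀, i₁, hi⟩ := exists_pair_ne ι
  let R : ℤ := (b : ℤ) ^ (N * M)
  let F : ℤ × ℤ → ι → ℤ := fun u => Pi.single i₀ u.1 - Pi.single i₁ u.2
  let Ψ₁ : Finset (ι → ℤ) := ((Finset.Icc (-R) R ×ˢ Finset.Icc (-R) R).image F).erase 0
  let Ψ₂ : Finset (ι → ℤ) := Finset.univ.image fun i => Pi.single i 1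
  refine ⟨T.biUnion Ψ ∪ (Ψ₁ ∪ Ψ₂), ?_, ?_⟩
  · intro ψ hψ
    rcases Finset.mem_union.mp hψ with h | h
    · obtain ⟨t, -, ht⟩ := Finset.mem_biUnion.mp h
      exact hΨ t ψ ht
    rcases Finset.mem_union.mp h with h | h
    · exact Finset.ne_of_mem_erase h
    · obtain ⟨i, -, rfl⟩ := Finset.mem_image.mp h
      intro h0
      simpa using congrFun h0 i
  intro x t H hH ht hprod
  by_cases hx : ∃ i, x i = 0
  · obtain ⟨i, hi⟩ := hx
    refine ⟨Pi.single i 1, Finset.mem_union_right _ (Finset.mem_union_right _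
      (Finset.mem_image_of_mem _ (Finset.mem_univ i))), ?_⟩
    simp [Pi.single_apply, hi]
  push Not at hx
  have hH1 : 1 ≤ H := le_trans (by exact_mod_cast Int.one_le_abs (hx i₀)) (hH i₀)
  have hH0 : 0 < H := by linarith
  set h : ℝ := Real.logb b H with hh
  have hbh : (b : ℝ) ^ h = H := Real.rpow_logb hb0 hb1.ne' hH0
  have hh0 : 0 ≤ h := Real.logb_nonneg hb1 hH1
  set m : ℕ := ⌈h / N⌉₊ with hm
  have hm1 : h ≤ N * m := by
    have := Nat.le_ceil (h / N)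
    rwa [div_le_iff₀ hN0, mul_comm] at this
  have hm2 : (N : ℝ) * m ≤ h + N := by
    have := (Nat.ceil_lt_add_one (show 0 ≤ h / N by positivity)).le
    rwa [div_add_one hN0.ne', le_div_iff₀ hN0, mul_comm] at this
  have hHm : H ≤ (b : ℝ) ^ ((N : ℝ) * m) := by
    rw [← hbh]
    exact Real.rpow_le_rpow_of_exponent_le hb1.le hm1
  by_cases hmM : m ≤ M
  · have hR : ∀ i, x i ∈ Finset.Icc (-R) R := by
      intro i
      rw [Finset.mem_Icc, ← abs_le]
      have h1 : (b : ℝ) ^ ((N : ℝ) * m) ≤ (b : ℝ) ^ (N * M) := by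
        rw [← Real.rpow_natCast]
        refine Real.rpow_le_rpow_of_exponent_le hb1.le ?_
        push_cast
        exact mul_le_mul_of_nonneg_left (by exact_mod_cast hmM) hN0.le
      have h2 := (hH i).trans (hHm.trans h1)
      simp only [R]
      exact_mod_cast h2
    refine ⟨F (x i₁, x i₀), Finset.mem_union_right _ (Finset.mem_union_left _
      (Finset.mem_erase.mpr ⟨?_, Finset.mem_image_of_mem _
        (Finset.mem_product.mpr ⟨hR _, hR _⟩)⟩)), ?_⟩
    · intro h0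
      have := congrFun h0 i₀
      simp [F, hi] at this
      exact hx _ this
    · simp only [F, Pi.sub_apply, sub_mul, Finset.sum_sub_distrib, Pi.single_apply, ite_mul,
        zero_mul, Finset.sum_ite_eq', Finset.mem_univ, if_true]
      ring
  push Not at hmM
  have hmpos : 0 < m := by omega
  have hm0 : (0 : ℝ) < m := by exact_mod_cast hmpos
  have hm2' : (2 : ℝ) ≤ m := by exact_mod_cast (by omega : 2 ≤ m)
  replace hm₃ := hm₃ m (by omega)
  let k : ι → ℕ := fun i => t i / m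
  let v : ι → ℝ := fun i => |∑ j, L i j * (x j : ℝ)|
  let ℓ : ι → ℝ := fun i => Real.logb b (v i)
  let c : ι → ℤ := fun i => if v i = 0 then -G else max (-G) ⌈ℓ i / m⌉
  have hti : ∀ i, (t i : ℝ) ≤ h := by
    intro i
    rw [← Real.rpow_le_rpow_left_iff hb1, hbh, Real.rpow_natCast]
    refine le_trans ?_ (hH i)
    have := Int.le_of_dvd (abs_pos.mpr (hx i)) ((dvd_abs _ _).mpr (ht i))
    exact_mod_cast this
  have hk : ∀ i, k i ≤ N := by
    intro i
    have h1 : t i ≤ m * N := by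
      have := (hti i).trans hm1
      rw [mul_comm]
      exact_mod_cast this
    exact Nat.div_le_of_le_mul h1
  have hℓ : ∀ i, v i ≠ 0 → (b : ℝ) ^ ℓ i = v i := fun i hv =>
    Real.rpow_logb hb0 hb1.ne' (lt_of_le_of_ne (abs_nonneg _) (Ne.symm hv))
  have hv : ∀ i, v i ≤ (b : ℝ) ^ (((N : ℝ) + 1) * m) := by
    intro i
    calc v i ≤ ∑ j, |L i j| * H := (Finset.abs_sum_le_sum_abs _ _).trans
          (Finset.sum_le_sum fun j _ => by
            rw [abs_mul]; exact mul_le_mul_of_nonneg_left (hH j) (abs_nonneg _))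
      _ = (∑ j, |L i j|) * H := by rw [Finset.sum_mul]
      _ ≤ (∑ i, ∑ j, |L i j|) * H := mul_le_mul_of_nonneg_right
          (Finset.single_le_sum (f := fun i => ∑ j, |L i j|)
            (fun i _ => Finset.sum_nonneg fun l _ => abs_nonneg _) (Finset.mem_univ i)) hH0.le
      _ ≤ (b : ℝ) ^ ((1 : ℝ) * m) * (b : ℝ) ^ ((N : ℝ) * m) :=
          mul_le_mul hm₃.le hHm hH0.le (by positivity)
      _ = _ := by rw [← Real.rpow_add hb0]; congr 1; ring
  have hG0 : -G ≤ N + 1 := by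
    have : (0 : ℤ) ≤ n * (N + 1) := by positivity
    rw [hG]
    omega
  have hc1 : ∀ i, -G ≤ c i := by
    intro i
    simp only [c]
    split_ifs
    · exact le_rfl
    · exact le_max_left _ _
  have hc2 : ∀ i, c i ≤ N + 1 := by
    intro i
    simp only [c]
    split_ifs with h0
    · exact hG0
    · refine max_le hG0 (Int.ceil_le.mpr ?_)
      rw [div_le_iff₀ hm0, ← Real.rpow_le_rpow_left_iff hb1, hℓ i h0]
      push_cast
      exact hv i
  have hT : (k, c) ∈ T := by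
    simp only [T, Finset.mem_product, Fintype.mem_piFinset, Finset.mem_range, Finset.mem_Icc]
    exact ⟨fun i => Nat.lt_succ_of_le (hk i), fun i => ⟨hc1 i, hc2 i⟩⟩
  have hbox : InBox b k (fun i => (c i : ℝ)) L m x := by
    refine ⟨fun i => (pow_dvd_pow _ (Nat.div_mul_le_self _ _)).trans (ht i), fun i => ?_⟩
    change v i ≤ _
    by_cases h0 : v i = 0
    · rw [h0]; positivity
    · rw [← hℓ i h0]
      refine Real.rpow_le_rpow_of_exponent_le hb1.le ?_
      rw [← div_le_iff₀ hm0]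
      refine (Int.le_ceil _).trans ?_
      simp only [c, if_neg h0]
      exact_mod_cast le_max_right _ _
  have hsum : ∑ i, (c i : ℝ) < ∑ i, (k i : ℝ) := by
    by_cases hcG : ∃ i, c i = -G
    · obtain ⟨i, hi⟩ := hcG
      have h1 := Finset.single_le_sum (f := fun i => (N + 1 : ℤ) - c i)
        (fun i _ => by have := hc2 i; omega) (Finset.mem_univ i)
      rw [Finset.sum_sub_distrib] at h1
      simp only [Finset.sum_const, Finset.card_univ, nsmul_eq_mul, ← hn, hi] at h1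
      have h2 : ∑ i, c i < 0 := by
        rw [hG] at h1
        have : (0 : ℤ) ≤ N := by positivity
        omega
      have h3 : ∑ i, (c i : ℝ) < 0 := by exact_mod_cast h2
      exact h3.trans_le (by positivity)
    · push Not at hcG
      have hv0 : ∀ i, v i ≠ 0 := fun i h0 => hcG i (by simp [c, h0])
      have h1 : ∀ i, (c i : ℝ) * m ≤ ℓ i + m := by
        intro i
        have h2 : c i = ⌈ℓ i / m⌉ := by
          have h3 := hcG i
          simp only [c, if_neg (hv0 i)] at h3 ⊢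
          rcases max_choice (-G) ⌈ℓ i / m⌉ with h4 | h4
          · exact absurd h4 h3
          · exact h4
        have := (Int.ceil_lt_add_one (ℓ i / m)).le
        rwa [div_add_one hm0.ne', le_div_iff₀ hm0, ← h2] at this
      have h2 : ∀ i, (t i : ℝ) ≤ k i * m + m := by
        intro i
        have := (Nat.lt_div_mul_add (a := t i) hmpos).le
        exact_mod_cast this
      have h3 : ∑ i, ℓ i + ε * h ≤ ∑ i, (t i : ℝ) := by
        rw [← Real.rpow_le_rpow_left_iff hb1, Real.rpow_add hb0, Real.rpow_sum_of_pos hb0,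
          mul_comm ε, Real.rpow_mul hb0.le, hbh, ← Nat.cast_sum, Real.rpow_natCast,
          Finset.prod_congr rfl fun i _ => hℓ i (hv0 i)]
        exact hprod
      have h4 : ∑ i, (c i : ℝ) * m ≤ ∑ i, (ℓ i + m) := Finset.sum_le_sum fun i _ => h1 i
      have h5 : ∑ i, (t i : ℝ) ≤ ∑ i, ((k i : ℝ) * m + m) := Finset.sum_le_sum fun i _ => h2 i
      rw [Finset.sum_add_distrib, ← Finset.sum_mul] at h4 h5
      simp only [Finset.sum_const, Finset.card_univ, nsmul_eq_mul, ← hn] at h4 h5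
      have h6 : 2 * (n : ℝ) * m < ε * h := by
        have h7 : (N : ℝ) * m ≤ 2 * h := by nlinarith
        have h8 := mul_lt_mul_of_pos_right hN hm0
        have h9 := mul_le_mul_of_nonneg_left h7 hε.le
        nlinarith
      refine lt_of_mul_lt_mul_right ?_ hm0.le
      linarith
  obtain ⟨ψ, hψ, h1⟩ := hpar (k, c) hsum m (le_trans (Finset.le_sup (f := m₀) hT) (by omega))
  exact ⟨ψ, Finset.mem_union_left _ (Finset.mem_biUnion.mpr ⟨_, hT, hψ⟩), h1 x hbox⟩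

end Pool.Agent.Subspace
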