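import Pool.Agent.Shared.Subspace.RothAux

/-!
The grid lemma, Taylor's formula and scaling of variables.
-/

namespace Pool.Agent.Subspace

open MvPolynomial Finsupp

theorem exists_small_mult {R : Type*} [CommRing R] [IsDomain R] [CharZero R] {q : Polynomial R}
    {e N : ℕ} (he : q.natDegree ≤ e) (hN : 0 < N) :
    ∃ a : ℕ, a < N ∧ N * q.rootMultiplicity (a : R) ≤ e := by
  classical
  by_contra hc
  push Not at hc
  have h1 : ∑ a ∈ Finset.range N, q.rootMultiplicity (a : R) ≤ e := by
    calc ∑ a ∈ Finset.range N, q.rootMultiplicity (a : R)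
        = ∑ y ∈ (Finset.range N).image (Nat.cast : ℕ → R), q.roots.count y := by
          rw [Finset.sum_image fun _ _ _ _ h => Nat.cast_injective h]
          exact Finset.sum_congr rfl fun a _ => (Polynomial.count_roots q).symm
      _ ≤ ∑ y ∈ (Finset.range N).image (Nat.cast : ℕ → R) ∪ q.roots.toFinset, q.roots.count y :=
          Finset.sum_le_sum_of_subset Finset.subset_union_left
      _ = Multiset.card q.roots := Multiset.sum_count_eq_card fun a ha =>
          Finset.mem_union_right _ (Multiset.mem_toFinset.mpr ha)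
      _ ≤ e := (Polynomial.card_roots' q).trans he
  have h2 : ∑ _a ∈ Finset.range N, e < ∑ a ∈ Finset.range N, N * q.rootMultiplicity (a : R) :=
    Finset.sum_lt_sum_of_nonempty (Finset.nonempty_range_iff.mpr hN.ne')
      fun a ha => hc a (Finset.mem_range.mp ha)
  rw [← Finset.mul_sum, Finset.sum_const, Finset.card_range, smul_eq_mul] at h2
  exact absurd (Nat.mul_le_mul_left N h1) (not_le.mpr h2)

theorem finSuccEquiv_shift {R : Type*} [CommRing R] {k : ℕ} (x : Fin (k + 1) → R)
    (Q : MvPolynomial (Fin (k + 1)) R) :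
    finSuccEquiv R k (shift x Q) =
      ((finSuccEquiv R k Q).comp (Polynomial.X + Polynomial.C (C (x 0)))).map
        (shift fun i : Fin k => x i.succ).toRingHom := by
  induction Q using MvPolynomial.induction_on with
  | C a =>
    have h : ∀ a : R, finSuccEquiv R k (C a) = Polynomial.C (C a) := fun a =>
      (finSuccEquiv R k).commutes a
    simp [h]
  | add P Q hP hQ => rw [map_add, map_add, map_add, hP, hQ, Polynomial.add_comp, Polynomial.map_add]
  | mul_X P i hP =>
    have h : ∀ a : R, finSuccEquiv R k (C a) = Polynomial.C (C a) := fun a =>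
      (finSuccEquiv R k).commutes a
    rw [map_mul, map_mul, map_mul, hP, Polynomial.mul_comp, Polynomial.map_mul, shift_X, map_add, h]
    congr 1
    refine Fin.cases ?_ (fun j => ?_) i
    · simp [finSuccEquiv_X_zero, add_comm]
    · simp [finSuccEquiv_X_succ]

theorem grid_fin {R : Type*} [CommRing R] [IsDomain R] [CharZero R] {N : ℕ} (hN : 0 < N) (k : ℕ)
    (Q : MvPolynomial (Fin k) R) (hQ : Q ≠ 0) (e : Fin k → ℕ) (he : ∀ i, DegLe i (e i) Q) :
    ∃ a : Fin k → ℕ, (∀ i, a i < N) ∧ ∃ κ ∈ (shift (fun i => (a i : R)) Q).support,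
      ∀ i, N * κ i ≤ e i := by
  induction k with
  | zero =>
    obtain ⟨κ, hκ⟩ := MvPolynomial.support_nonempty.mpr
      (shift_ne_zero (fun i : Fin 0 => ((i.elim0 : ℕ) : R)) hQ)
    exact ⟨fun i => i.elim0, fun i => i.elim0, κ, hκ, fun i => i.elim0⟩
  | succ k ih =>
    set q := finSuccEquiv R k Q with hq
    have hq0 : q ≠ 0 := by rwa [hq, Ne, EmbeddingLike.map_eq_zero_iff]
    have hqd : q.natDegree ≤ e 0 := by
      rw [hq, natDegree_finSuccEquiv, degreeOf_le_iff]
      exact he 0
    obtain ⟨a₀, ha₀, hm⟩ := exists_small_mult hqd hN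
    set κ₀ := q.rootMultiplicity (a₀ : MvPolynomial (Fin k) R) with hκ₀
    set Q' := (q.comp (Polynomial.X + Polynomial.C (C (a₀ : R)))).coeff κ₀ with hQ'
    have hQ'0 : Q' ≠ 0 := by
      rw [hQ', hκ₀, Polynomial.rootMultiplicity_eq_natTrailingDegree, map_natCast]
      refine Polynomial.trailingCoeff_nonzero_iff_nonzero.mpr ?_
      rwa [Ne, Polynomial.comp_X_add_C_eq_zero_iff]
    have hco : ∀ (a : Fin k → R) (ρ : Fin k →₀ ℕ),
        coeff (cons κ₀ ρ) (shift (Fin.cons (a₀ : R) a) Q) = coeff ρ (shift a Q') := by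
      intro a ρ
      rw [← finSuccEquiv_coeff_coeff, finSuccEquiv_shift, Polynomial.coeff_map]
      rfl
    obtain ⟨a, ha, κ, hκ, hκe⟩ := ih Q' hQ'0 (fun i => e i.succ) (fun i ρ hρ => by
      rw [MvPolynomial.mem_support_iff, ← shift_zero Q', ← hco] at hρ
      simpa using (he i.succ).shift _ _ (MvPolynomial.mem_support_iff.mpr hρ))
    refine ⟨Fin.cons a₀ a, fun i => Fin.cases ha₀ ha i, cons κ₀ κ, ?_,
      fun i => Fin.cases (by simpa using hm) (fun j => by simpa using hκe j) i⟩
    rw [MvPolynomial.mem_support_iff] at hκ ⊢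
    rw [← hco] at hκ
    convert hκ using 4
    funext i
    refine Fin.cases rfl (fun _ => rfl) i

/-- A nonzero polynomial has a nonvanishing derivative of small order at some grid point. -/
theorem grid {τ R : Type*} [Fintype τ] [CommRing R] [IsDomain R] [CharZero R] {N : ℕ} (hN : 0 < N)
    (Q : MvPolynomial τ R) (hQ : Q ≠ 0) (e : τ → ℕ) (he : ∀ i, DegLe i (e i) Q) :
    ∃ a : τ → ℕ, (∀ i, a i < N) ∧ ∃ κ ∈ (shift (fun i => (a i : R)) Q).support,
      ∀ i, N * κ i ≤ e i := by
  classical
  set E := Fintype.equivFin τ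
  obtain ⟨a, ha, κ, hκ, hκe⟩ := grid_fin hN _ (rename E Q)
    (fun h => hQ (rename_injective _ E.injective (by simpa using h))) (fun i => e (E.symm i))
    (fun i ρ hρ => by
      rw [support_rename_of_injective E.injective, Finset.mem_image] at hρ
      obtain ⟨ν, hν, rfl⟩ := hρ
      have := he (E.symm i) ν hν
      rwa [← mapDomain_apply E.injective ν, E.apply_symm_apply] at this)
  rw [shift_rename, support_rename_of_injective E.injective, Finset.mem_image] at hκ
  obtain ⟨ν, hν, rfl⟩ := hκ
  refine ⟨fun i => a (E i), fun i => ha _, ν, hν, fun i => ?_⟩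
  have := hκe (E i)
  rwa [mapDomain_apply E.injective, E.symm_apply_apply] at this

theorem coeff_zero_shift {σ R : Type*} [CommRing R] (x : σ → R) (P : MvPolynomial σ R) :
    coeff 0 (shift x P) = eval x P := by
  rw [← constantCoeff_eq]
  induction P using MvPolynomial.induction_on with
  | C a => simp
  | add P Q hP hQ => simp [hP, hQ]
  | mul_X P i hP => simp [hP]

/-- Taylor's formula. -/
theorem coeff_shift {σ R : Type*} [Fintype σ] [CommRing R] [IsDomain R] [CharZero R] (x : σ → R)
    (μ : σ →₀ ℕ) (P : MvPolynomial σ R) : coeff μ (shift x P) = eval x (hasse μ P) := by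
  rw [← coeff_zero_shift, ← hasse_shift, coeff_hasse]
  simp [binom]

theorem coeff_scale {σ R : Type*} [Fintype σ] [CommRing R] (r : σ → R) (μ : σ →₀ ℕ)
    (P : MvPolynomial σ R) :
    coeff μ (aeval (fun i => C (r i) * X i) P : MvPolynomial σ R) =
      (∏ i, r i ^ μ i) * coeff μ P := by
  classical
  induction P using MvPolynomial.induction_on' with
  | add P Q hP hQ => rw [map_add, coeff_add, coeff_add, hP, hQ, mul_add]
  | monomial ν a =>
    have : (aeval (fun i => C (r i) * X i) (monomial ν a) : MvPolynomial σ R) =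
        monomial ν ((∏ i, r i ^ ν i) * a) := by
      rw [aeval_monomial, monomial_eq, Finsupp.prod_fintype _ _ (by simp),
        Finsupp.prod_fintype _ _ (by simp)]
      simp only [mul_pow, Finset.prod_mul_distrib, algebraMap_eq, map_mul, map_prod, map_pow]
      ring
    rw [this, coeff_monomial, coeff_monomial]
    split_ifs with h
    · rw [h]
    · simp

end Pool.Agent.Subspace
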