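import Pool.Agent.Shared.Subspace.RothAux

/-!
Roth's lemma (qualitative form).
-/

namespace Pool.Agent.Subspace

open MvPolynomial Finsupp

theorem weight_cons {s : ℕ} (w : Fin (s + 1) → ℝ) (a : ℕ) (ρ : Fin s →₀ ℕ) :
    weight w (cons a ρ) = a * w 0 + weight (fun h => w h.succ) ρ := by
  simp [weight_eq_sum, Fin.sum_univ_succ]

theorem sum_max_ge {θ : ℝ} (hθ : 0 < θ) (hθ1 : θ ≤ 1) {d r : ℕ} (hd : 0 < d) (hr : r ≤ d + 1) :
    r * θ ^ 2 / 8 ≤ ∑ l : Fin r, max 0 (θ - (l : ℕ) / (d : ℝ)) := by
  rw [Fin.sum_univ_eq_sum_range (fun l : ℕ => max 0 (θ - l / (d : ℝ))) r]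
  set J := min r (⌊θ * d / 2⌋₊ + 1) with hJ
  have hd' : (0 : ℝ) < d := by exact_mod_cast hd
  have hd1 : (1 : ℝ) ≤ d := by exact_mod_cast hd
  have h1 : ∑ l ∈ Finset.range J, θ / 2 ≤ ∑ l ∈ Finset.range r, max 0 (θ - l / (d : ℝ)) := by
    calc ∑ l ∈ Finset.range J, θ / 2 ≤ ∑ l ∈ Finset.range J, max 0 (θ - l / (d : ℝ)) := by
          refine Finset.sum_le_sum fun l hl => le_max_of_le_right ?_
          have h2 : l ≤ ⌊θ * d / 2⌋₊ := by
            have := Finset.mem_range.mp hl
            omega
          have h3 : (l : ℝ) ≤ θ * d / 2 :=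
            (Nat.cast_le.mpr h2).trans (Nat.floor_le (by positivity))
          have h4 : (l : ℝ) / d ≤ θ / 2 := by rw [div_le_iff₀ hd']; linarith
          linarith
      _ ≤ _ := Finset.sum_le_sum_of_subset_of_nonneg
          (Finset.range_subset_range.mpr (min_le_left _ _)) fun _ _ _ => le_max_left _ _
  refine le_trans ?_ h1
  rw [Finset.sum_const, Finset.card_range, nsmul_eq_mul]
  have hr' : (r : ℝ) ≤ d + 1 := by exact_mod_cast hr
  have hr0 : (0 : ℝ) ≤ r := by positivity
  have h5 : r * θ / 4 ≤ (J : ℝ) := by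
    rw [hJ, Nat.cast_min, le_min_iff]
    constructor
    · nlinarith
    · have := Nat.lt_floor_add_one (θ * d / 2)
      push_cast
      nlinarith
  nlinarith

theorem roth_lemma (s : ℕ) {θ : ℝ} (hθ : 0 < θ) : ∃ σ : ℝ, 0 < σ ∧
    ∀ (d : Fin s → ℕ) (x : Fin s → ℚ) (P : MvPolynomial (Fin s) ℤ), P ≠ 0 → (∀ h, 0 < d h) →
      (∀ h h', h < h' → (d h : ℝ) ≤ σ * d h') → (∀ h, DegLe h (d h) P) →
      (∀ h, Real.log (l1 P) + ∑ h', (d h' : ℝ) ≤ σ * d h * Real.log (x h).den) →
      ¬ IdxGe (fun h => 1 / (d h : ℝ)) θ (shift x (map (Int.castRingHom ℚ) P)) := by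
  classical
  have hinj : Function.Injective (Int.castRingHom ℚ) := (Int.castRingHom ℚ).injective_int
  induction s generalizing θ with
  | zero =>
    refine ⟨1, one_pos, fun d x P hP _ _ _ _ hI => ?_⟩
    have h1 : map (Int.castRingHom ℚ) P ≠ 0 := fun h => hP (map_injective _ hinj (by simpa using h))
    obtain ⟨ν, hν⟩ := MvPolynomial.support_nonempty.mpr (shift_ne_zero x h1)
    have := hI ν hν
    rw [weight_eq_sum] at this
    simp at this
    linarith
  | succ s ih =>
    set t : ℝ := min θ 1 with ht
    have ht0 : 0 < t := lt_min hθ one_pos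
    have ht1 : t ≤ 1 := min_le_right _ _
    obtain ⟨σ₁, hσ₁, IH⟩ := ih (θ := t ^ 2 / 64) (by positivity)
    set σ : ℝ := min (σ₁ / 3) (t ^ 2 / 192) with hσ
    have hσ0 : 0 < σ := lt_min (by positivity) (by positivity)
    have hσa : σ ≤ σ₁ / 3 := min_le_left _ _
    have hσb : σ ≤ t ^ 2 / 192 := min_le_right _ _
    refine ⟨σ, hσ0, fun d x P hP hd hdd hdeg hht hI => ?_⟩
    replace hI := hI.mono (min_le_left θ 1)
    rw [← ht] at hI
    set φ := Int.castRingHom ℚ
    set Pq := map φ P with hPq
    have hPq0 : Pq ≠ 0 := fun h => hP (map_injective _ hinj (by simpa using h))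
    have hdegq : DegLe 0 (d 0) Pq := fun ν hν => hdeg 0 ν (support_map_subset φ P hν)
    obtain ⟨r, hr, f, g, hf, hg, hfg⟩ := exists_indep_decomp (tensL (R := ℚ) (s := s)) (d 0 + 1)
      (fun l => (finSuccEquiv ℚ s Pq).coeff l) (fun l => monomial (single 0 (l : ℕ)) 1)
    have hfg' : ∑ j, tens (f j) (g j) = Pq := hfg.trans (decomp_first Pq hdegq)
    have hr0 : 0 < r := by
      rcases Nat.eq_zero_or_pos r with h | h
      · subst h
        exact absurd hfg'.symm (by simpa using hPq0)
      · exact h
    obtain ⟨μ, hμ, hU⟩ := wronskian f hf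
    obtain ⟨μ', hμ', hV⟩ := wronskian g hg
    have hμ'1 : ∀ l, μ' l = single 0 (μ' l 0) := fun l => Finsupp.ext fun i => by
      rw [Subsingleton.elim i 0, single_eq_same]
    have hμ'2 : ∀ l, μ' l 0 ≤ l := fun l => by simpa using hμ' l
    set U := (Matrix.of fun i j => hasse (μ i) (f j)).det with hUdef
    set V := (Matrix.of fun i j => hasse (μ' i) (g j)).det with hVdef
    set W : MvPolynomial (Fin (s + 1)) ℤ :=
      (Matrix.of fun i l => hasse (cons (μ' l 0) (μ i)) P).det with hW
    have hWq : map φ W = (Matrix.of fun i l => hasse (cons (μ' l 0) (μ i)) Pq).det := by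
      rw [hW, RingHom.map_det]
      congr 1
      ext i l : 2
      simp [map_hasse, hPq]
    have hWt : map φ W = tens U V := by
      rw [hWq, hUdef, hVdef, ← det_tens]
      congr 1
      refine Matrix.ext fun i l => ?_
      simp only [Matrix.of_apply]
      rw [← hfg', map_sum]
      exact Finset.sum_congr rfl fun j _ => by rw [hasse_tens, ← hμ'1]
    -- sizes
    have hd' : ∀ h, (0 : ℝ) < d h := fun h => by exact_mod_cast hd h
    set E : ℕ := ∑ h, d h with hE
    have hEc : ∑ h, (d h : ℝ) = E := by simp [hE]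
    have hd0E : d 0 ≤ E := Finset.single_le_sum (f := d) (fun _ _ => Nat.zero_le _)
      (Finset.mem_univ 0)
    have hP1 := one_le_l1 hP
    have hlog0 : 0 ≤ Real.log (l1 P) := Real.log_nonneg hP1
    set Λ : ℝ := Real.log (l1 P) + E with hΛ
    rw [hEc] at hht
    have hE0 : (0 : ℝ) < E := lt_of_lt_of_le (hd' 0) (by exact_mod_cast hd0E)
    have hΛ0 : 0 < Λ := by positivity
    have hr' : (0 : ℝ) < r := by exact_mod_cast hr0
    have hWl1 : l1 W ≤ Real.exp (2 * r * Λ) := by
      have h1 : l1 W ≤ r.factorial * (2 ^ E * l1 P) ^ r :=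
        l1_det_le _ fun i l => l1_hasse_le _ _ fun ν hν =>
          Finset.sum_le_sum fun h _ => hdeg h ν hν
      have h2 : (r.factorial : ℝ) ≤ Real.exp E ^ r := by
        have h3 : (r.factorial : ℝ) ≤ (r : ℝ) ^ r := by exact_mod_cast Nat.factorial_le_pow r
        refine h3.trans (pow_le_pow_left₀ hr'.le ?_ _)
        have h4 : (r : ℝ) ≤ E + 1 := by exact_mod_cast (by omega : r ≤ E + 1)
        exact h4.trans (Real.add_one_le_exp _)
      have h3 : (2 : ℝ) ^ E ≤ Real.exp E := by
        rw [← Real.exp_one_pow]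
        exact pow_le_pow_left₀ (by norm_num) (by linarith [Real.add_one_le_exp 1]) _
      have h4 : l1 P ≤ Real.exp (2 * Real.log (l1 P)) := by
        conv_lhs => rw [← Real.exp_log (lt_of_lt_of_le one_pos hP1)]
        exact Real.exp_le_exp.mpr (by linarith)
      calc l1 W ≤ Real.exp E ^ r * (Real.exp E * Real.exp (2 * Real.log (l1 P))) ^ r := by
            refine h1.trans (mul_le_mul h2 (pow_le_pow_left₀ (by positivity) ?_ _) (by positivity)
              (by positivity))
            exact mul_le_mul h3 h4 (by positivity) (by positivity)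
        _ = _ := by
            rw [← mul_pow, ← Real.exp_add, ← Real.exp_add, ← Real.exp_nat_mul]
            congr 1
            rw [hΛ]; ring
    have hWdeg : ∀ h, DegLe h (r * d h) W := by
      intro h
      rw [degLe_iff]
      refine idxGe_det _ (fun _ _ => -(d h : ℝ))
        (fun i l => (degLe_iff _ _ _).mp ((hdeg h).hasse _)) fun π => ?_
      simp
    -- lower bound for the index of W
    have hlow : IdxGe (fun h => 1 / (d h : ℝ)) (r * t ^ 2 / 32) (shift x (map φ W)) := by
      rw [hWq, AlgHom.map_det]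
      refine idxGe_det _ (fun _ l => max 0 (t / 2 - (l : ℕ) / (d 0 : ℝ))) (fun i l => ?_)
        fun π => ?_
      · simp only [AlgHom.mapMatrix_apply, Matrix.map_apply, Matrix.of_apply]
        rw [← hasse_shift]
        rcases max_cases 0 (t / 2 - (l : ℕ) / (d 0 : ℝ)) with h | h
        · rw [h.1]
          exact idxGe_of_nonneg (fun h => by positivity) _
        · rw [h.1]
          refine (hI.hasse _).mono ?_
          rw [weight_cons]
          have h1 : (μ' l 0 : ℝ) * (1 / d 0) ≤ (l : ℕ) / (d 0 : ℝ) := by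
            rw [mul_one_div]
            exact div_le_div_of_nonneg_right (by exact_mod_cast hμ'2 l) (hd' 0).le
          have h2 : weight (fun h : Fin s => 1 / (d h.succ : ℝ)) (μ i) ≤ σ := by
            rw [weight_eq_sum]
            calc ∑ h : Fin s, μ i h • (1 / (d h.succ : ℝ))
                ≤ ∑ h : Fin s, (μ i h : ℝ) * (σ / d 0) := by
                  refine Finset.sum_le_sum fun h _ => ?_
                  rw [nsmul_eq_mul]
                  refine mul_le_mul_of_nonneg_left ?_ (by positivity)
                  rw [div_le_div_iff₀ (hd' _) (hd' _), one_mul]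
                  exact hdd 0 h.succ (Fin.succ_pos h)
              _ = (∑ h : Fin s, μ i h : ℕ) * (σ / d 0) := by
                  rw [← Finset.sum_mul]; push_cast; rfl
              _ ≤ d 0 * (σ / d 0) := by
                  refine mul_le_mul_of_nonneg_right ?_ (by positivity)
                  have := hμ i
                  have := i.2
                  exact_mod_cast (by omega : ∑ h : Fin s, μ i h ≤ d 0)
              _ = σ := by field_simp [(hd' 0).ne']
          nlinarith
      · refine le_trans (le_of_eq ?_) (sum_max_ge (θ := t / 2) (by positivity) (by linarith)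
          (hd 0) hr)
        ring
    -- upper bound
    obtain ⟨ν₀, hν₀⟩ := MvPolynomial.support_nonempty.mpr hU
    obtain ⟨e₀, he₀⟩ := MvPolynomial.support_nonempty.mpr hV
    have he₀' : e₀ = single 0 (e₀ 0) := Finsupp.ext fun i => by
      rw [Subsingleton.elim i 0, single_eq_same]
    rw [MvPolynomial.mem_support_iff] at hν₀ he₀
    obtain ⟨U', hU'c, hU'l⟩ := exists_slice W (φ := fun ν : Fin s →₀ ℕ => cons (e₀ 0) ν)
      (cons_right_injective _)
    obtain ⟨V', hV'c, hV'l⟩ := exists_slice W (φ := fun e : Fin 1 →₀ ℕ => cons (e 0) ν₀)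
      (fun a c h => Finsupp.ext fun i => by
        rw [Subsingleton.elim i 0]; exact (cons_injective2 h).1)
    have hU'm : map φ U' = C (coeff e₀ V) * U := by
      ext ν
      rw [coeff_map, hU'c, ← coeff_map, hWt, coeff_tens, coeff_C_mul, ← he₀', mul_comm]
    have hV'm : map φ V' = C (coeff ν₀ U) * V := by
      refine MvPolynomial.ext _ _ fun e => ?_
      have he : e = single 0 (e 0) := Finsupp.ext fun i => by
        rw [Subsingleton.elim i 0, single_eq_same]
      rw [coeff_map, hV'c, ← coeff_map, hWt, coeff_tens, coeff_C_mul, ← he]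
    have hU'0 : U' ≠ 0 := by
      intro h
      rw [h, map_zero] at hU'm
      exact mul_ne_zero (by simpa using he₀) hU hU'm.symm
    have hV'0 : V' ≠ 0 := by
      intro h
      rw [h, map_zero] at hV'm
      exact mul_ne_zero (by simpa using hν₀) hV hV'm.symm
    have hlogden : ∀ h, 0 < Real.log (x h).den := by
      intro h
      by_contra hc
      push Not at hc
      have := hht h
      have h2 : σ * d h * Real.log (x h).den ≤ 0 :=
        mul_nonpos_of_nonneg_of_nonpos (by have := hd' h; positivity) hc
      linarith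
    have hIU := IH (fun h => r * d h.succ) (fun h => x h.succ) U' hU'0
      (fun h => Nat.mul_pos hr0 (hd _))
      (fun h h' hh => by
        have h1 := hdd h.succ h'.succ (Fin.succ_lt_succ_iff.mpr hh)
        have h2 := hd' h'.succ
        push_cast
        have : σ * d h'.succ ≤ σ₁ * d h'.succ := by nlinarith
        nlinarith)
      (fun h ν hν => by
        rw [MvPolynomial.mem_support_iff, hU'c] at hν
        simpa using hWdeg h.succ _ (MvPolynomial.mem_support_iff.mpr hν))
      (fun h => by
        have h1 : Real.log (l1 U') ≤ 2 * r * Λ := by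
          rw [Real.log_le_iff_le_exp (lt_of_lt_of_le one_pos (one_le_l1 hU'0))]
          exact hU'l.trans hWl1
        have h2 : ∑ h' : Fin s, ((r * d h'.succ : ℕ) : ℝ) ≤ r * Λ := by
          push_cast
          rw [← Finset.mul_sum]
          refine mul_le_mul_of_nonneg_left ?_ hr'.le
          rw [Fin.sum_univ_succ] at hEc
          linarith [hd' 0]
        have h3 := hht h.succ
        have h4 := hlogden h.succ
        have h5 := hd' h.succ
        have h6 : σ * d h.succ * Real.log (x h.succ).den ≤
            σ₁ / 3 * d h.succ * Real.log (x h.succ).den := by gcongr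
        push_cast at h2 ⊢
        nlinarith)
    obtain ⟨e, he, hel⟩ := roth_one (x 0) hV'0
    unfold IdxGe at hIU
    push Not at hIU
    obtain ⟨ν, hν, hνw⟩ := hIU
    rw [MvPolynomial.mem_support_iff, hU'm, map_mul, shift, aeval_C, algebraMap_eq,
      coeff_C_mul] at hν
    rw [hV'm, map_mul, shift, aeval_C, algebraMap_eq, coeff_C_mul] at he
    have hmem : cons e ν ∈ (shift x (map φ W)).support := by
      rw [MvPolynomial.mem_support_iff, hWt, shift_tens, coeff_tens]
      exact mul_ne_zero (right_ne_zero_of_mul hν) (right_ne_zero_of_mul he)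
    have hfin := hlow _ hmem
    rw [weight_cons] at hfin
    have h1 : weight (fun h : Fin s => 1 / (d h.succ : ℝ)) ν =
        r * weight (fun h : Fin s => 1 / ((r * d h.succ : ℕ) : ℝ)) ν := by
      rw [weight_eq_sum, weight_eq_sum, Finset.mul_sum]
      refine Finset.sum_congr rfl fun h _ => ?_
      have := hd' h.succ
      push_cast
      simp only [nsmul_eq_mul]
      field_simp
    have h2 : (e : ℝ) * (1 / d 0) ≤ 2 * r * σ := by
      have h3 : (e : ℝ) * Real.log (x 0).den ≤ 2 * r * Λ := by
        rw [← Real.log_pow, Real.log_le_iff_le_exp (by have := (x 0).den_pos; positivity)]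
        exact hel.trans (hV'l.trans hWl1)
      have h4 : (e : ℝ) * Real.log (x 0).den ≤ (2 * r * σ * d 0) * Real.log (x 0).den := by
        have := hht 0
        nlinarith
      rw [mul_one_div, div_le_iff₀ (hd' 0)]
      exact le_of_mul_le_mul_right h4 (hlogden 0)
    rw [h1] at hfin
    nlinarith

end Pool.Agent.Subspace
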