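import Pool.Agent.Shared.Subspace.Wronskian

/-!
Tools for Roth's lemma: splitting off the first variable, slices, the one-variable case.
-/

namespace Pool.Agent.Subspace

open MvPolynomial Finsupp

section Tens

variable {R : Type*} [CommRing R] {s : ℕ}

/-- The product `f(X_1, ..., X_s) * g(X_0)`. -/
noncomputable def tens (f : MvPolynomial (Fin s) R) (g : MvPolynomial (Fin 1) R) :
    MvPolynomial (Fin (s + 1)) R :=
  rename Fin.succ f * rename (fun _ => 0) g

theorem tens_monomial (ν : Fin s →₀ ℕ) (e : Fin 1 →₀ ℕ) (a c : R) :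
    tens (monomial ν a) (monomial e c) = monomial (cons (e 0) ν) (a * c) := by
  rw [tens, rename_monomial, rename_monomial, monomial_mul]
  congr 2
  have hinj : Function.Injective (fun _ : Fin 1 => (0 : Fin (s + 1))) :=
    fun _ _ _ => Subsingleton.elim _ _
  ext i
  refine Fin.cases ?_ (fun j => ?_) i
  · rw [Finsupp.add_apply, mapDomain_of_notMem_range _ _ (by simp), zero_add, cons_zero]
    exact mapDomain_apply hinj e 0
  · rw [Finsupp.add_apply, mapDomain_apply (Fin.succ_injective s),
      mapDomain_of_notMem_range _ _ (by simp), add_zero, cons_succ]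

theorem coeff_tens (f : MvPolynomial (Fin s) R) (g : MvPolynomial (Fin 1) R) (l : ℕ)
    (μ : Fin s →₀ ℕ) : coeff (cons l μ) (tens f g) = coeff μ f * coeff (single 0 l) g := by
  classical
  induction f using MvPolynomial.induction_on' with
  | add P Q hP hQ =>
    simp only [tens, map_add, add_mul, coeff_add] at hP hQ ⊢
    rw [hP, hQ]
  | monomial ν a =>
    induction g using MvPolynomial.induction_on' with
    | add P Q hP hQ =>
      simp only [tens, map_add, mul_add, coeff_add] at hP hQ ⊢
      rw [hP, hQ]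
    | monomial e c =>
      rw [tens_monomial, coeff_monomial, coeff_monomial, coeff_monomial]
      have he : e = single 0 l ↔ e 0 = l := by
        constructor
        · rintro rfl; simp
        · intro h
          refine Finsupp.ext fun i => ?_
          rw [Subsingleton.elim i 0, h, single_eq_same]
      by_cases h1 : ν = μ
      · by_cases h2 : e 0 = l
        · rw [if_pos (by rw [h1, h2]), if_pos h1, if_pos (he.mpr h2)]
        · rw [if_neg (fun h => h2 (cons_injective2 h).1), if_neg (fun h => h2 (he.mp h)), mul_zero]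
      · rw [if_neg (fun h => h1 (cons_injective2 h).2), if_neg h1, zero_mul]

theorem cons_add_cons (a l : ℕ) (ρ μ : Fin s →₀ ℕ) :
    (cons a ρ + cons l μ : Fin (s + 1) →₀ ℕ) = cons (a + l) (ρ + μ) := by
  ext i
  refine Fin.cases ?_ (fun j => ?_) i <;> simp

theorem ext_cons {P Q : MvPolynomial (Fin (s + 1)) R}
    (h : ∀ a ρ, coeff (cons a ρ) P = coeff (cons a ρ) Q) : P = Q := by
  ext ν
  rw [← cons_tail ν]
  exact h _ _

theorem hasse_tens (f : MvPolynomial (Fin s) R) (g : MvPolynomial (Fin 1) R) (l : ℕ)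
    (μ : Fin s →₀ ℕ) :
    hasse (cons l μ) (tens f g) = tens (hasse μ f) (hasse (single 0 l) g) := by
  refine ext_cons fun a ρ => ?_
  rw [coeff_hasse, cons_add_cons, coeff_tens, coeff_tens, coeff_hasse, coeff_hasse,
    ← single_add]
  have : binom (cons (a + l) (ρ + μ)) (cons l μ) =
      binom (ρ + μ) μ * binom (single (0 : Fin 1) (a + l)) (single 0 l) := by
    simp [binom, Fin.prod_univ_succ, mul_comm]
  rw [this]
  push_cast
  ring

theorem shift_rename {σ τ : Type*} (k : σ → τ) (x : τ → R) (f : MvPolynomial σ R) :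
    shift x (rename k f) = rename k (shift (fun i => x (k i)) f) := by
  have : (shift x).comp (rename k) = (rename k).comp (shift fun i => x (k i)) := by
    ext1 i; simp
  exact DFunLike.congr_fun this f

theorem shift_tens (x : Fin (s + 1) → R) (f : MvPolynomial (Fin s) R)
    (g : MvPolynomial (Fin 1) R) :
    shift x (tens f g) = tens (shift (fun i => x i.succ) f) (shift (fun _ => x 0) g) := by
  rw [tens, map_mul, shift_rename, shift_rename, tens]

/-- `tens` as a bilinear map. -/
noncomputable def tensL : MvPolynomial (Fin s) R →ₗ[R] MvPolynomial (Fin 1) R →ₗ[R]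
    MvPolynomial (Fin (s + 1)) R :=
  LinearMap.mk₂ R tens (by intros; simp [tens, add_mul]) (by intros; simp [tens])
    (by intros; simp [tens, mul_add]) (by intros; simp [tens])

theorem decomp_first (P : MvPolynomial (Fin (s + 1)) R) {d : ℕ} (hP : DegLe 0 d P) :
    ∑ l : Fin (d + 1), tens ((finSuccEquiv R s P).coeff l) (monomial (single 0 (l : ℕ)) 1) = P := by
  classical
  refine ext_cons fun a ρ => ?_
  rw [coeff_sum]
  simp only [coeff_tens, finSuccEquiv_coeff_coeff, coeff_monomial]
  by_cases ha : a < d + 1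
  · rw [Finset.sum_eq_single (⟨a, ha⟩ : Fin (d + 1))]
    · simp
    · intro l _ hl
      rw [if_neg, mul_zero]
      intro h
      exact hl (Fin.ext (single_injective _ h))
    · simp
  · rw [Finset.sum_eq_zero]
    · by_contra h
      have := hP _ (MvPolynomial.mem_support_iff.mpr (Ne.symm h))
      rw [cons_zero] at this
      omega
    · intro l _
      rw [if_neg, mul_zero]
      intro h
      have h2 : (l : ℕ) = a := single_injective _ h
      have := l.2
      omega

theorem det_tens {r : ℕ} (A : Matrix (Fin r) (Fin r) (MvPolynomial (Fin s) R))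
    (B : Matrix (Fin r) (Fin r) (MvPolynomial (Fin 1) R)) :
    (Matrix.of fun i l => ∑ j, tens (A i j) (B l j)).det = tens A.det B.det := by
  rw [tens, AlgHom.map_det, AlgHom.map_det, ← Matrix.det_transpose ((rename _).mapMatrix B),
    ← Matrix.det_mul]
  congr 1

end Tens

theorem exists_slice {σ τ R : Type*} [NormedCommRing R] (W : MvPolynomial σ R)
    {φ : (τ →₀ ℕ) → (σ →₀ ℕ)} (hφ : Function.Injective φ) :
    ∃ Q : MvPolynomial τ R, (∀ ν, coeff ν Q = coeff (φ ν) W) ∧ l1 Q ≤ l1 W := by
  classical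
  have hc : ∀ ν, coeff ν (∑ ρ ∈ W.support.preimage φ hφ.injOn, monomial ρ (coeff (φ ρ) W)) =
      coeff (φ ν) W := by
    intro ν
    rw [coeff_sum]
    simp only [coeff_monomial]
    rw [Finset.sum_ite_eq']
    split_ifs with h
    · rfl
    · rw [Finset.mem_preimage, MvPolynomial.notMem_support_iff] at h
      exact h.symm
  refine ⟨_, hc, ?_⟩
  rw [l1]
  simp only [hc]
  rw [← Finset.sum_image (g := φ) (f := fun ρ => ‖coeff ρ W‖) hφ.injOn]
  exact sum_norm_coeff_le_l1 _ _

theorem one_le_l1 {σ : Type*} {P : MvPolynomial σ ℤ} (hP : P ≠ 0) : 1 ≤ l1 P := by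
  obtain ⟨ν, hν⟩ := MvPolynomial.support_nonempty.mpr hP
  refine le_trans ?_ (norm_coeff_le_l1 P ν)
  rw [Int.norm_eq_abs]
  exact_mod_cast Int.one_le_abs (MvPolynomial.mem_support_iff.mp hν)

theorem l1_det_le {σ R : Type*} [NormedCommRing R] [NormOneClass R] {r : ℕ}
    (A : Matrix (Fin r) (Fin r) (MvPolynomial σ R)) {B : ℝ} (hA : ∀ i j, l1 (A i j) ≤ B) :
    l1 A.det ≤ r.factorial * B ^ r := by
  rw [Matrix.det_apply]
  refine (l1_sum_le _ _).trans ?_
  have : ∀ π : Equiv.Perm (Fin r), l1 (Equiv.Perm.sign π • ∏ i, A (π i) i) ≤ B ^ r := by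
    intro π
    have h1 : l1 (∏ i, A (π i) i) ≤ B ^ r := by
      refine (l1_prod_le _ _).trans ?_
      refine (Finset.prod_le_prod (fun _ _ => l1_nonneg _) fun i _ => hA (π i) i).trans ?_
      simp
    rcases Int.units_eq_one_or (Equiv.Perm.sign π) with h | h
    · rw [h, one_smul]; exact h1
    · rw [h, Units.neg_smul, one_smul, l1_neg]; exact h1
  refine (Finset.sum_le_sum fun π _ => this π).trans ?_
  simp [Fintype.card_perm]

theorem uniqueAlgEquiv_shift {R : Type*} [CommRing R] (x : R) (P : MvPolynomial (Fin 1) R) :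
    uniqueAlgEquiv R (Fin 1) (shift (fun _ => x) P) =
      (uniqueAlgEquiv R (Fin 1) P).comp (Polynomial.X + Polynomial.C x) := by
  induction P using MvPolynomial.induction_on with
  | C a => simp
  | add P Q hP hQ => rw [map_add, map_add, map_add, hP, hQ, Polynomial.add_comp]
  | mul_X P i hP =>
    rw [map_mul, map_mul, map_mul, hP, Polynomial.mul_comp, shift_X]
    simp [add_comm]

/-- Roth's lemma in one variable. -/
theorem roth_one (x : ℚ) {Z : MvPolynomial (Fin 1) ℤ} (hZ : Z ≠ 0) :
    ∃ e : ℕ, coeff (single 0 e) (shift (fun _ => x) (map (Int.castRingHom ℚ) Z)) ≠ 0 ∧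
      (x.den : ℝ) ^ e ≤ l1 Z := by
  set p : Polynomial ℤ := uniqueAlgEquiv ℤ (Fin 1) Z with hp
  have hp0 : p ≠ 0 := by rwa [hp, Ne, EmbeddingLike.map_eq_zero_iff]
  set q : Polynomial ℚ := p.map (Int.castRingHom ℚ) with hq
  have hq0 : q ≠ 0 := (Polynomial.map_ne_zero_iff (Int.castRingHom ℚ).injective_int).mpr hp0
  have hqe : uniqueAlgEquiv ℚ (Fin 1) (map (Int.castRingHom ℚ) Z) = q := by
    ext n
    rw [coeff_uniqueAlgEquiv, hq, Polynomial.coeff_map, hp, coeff_uniqueAlgEquiv, coeff_map]
  refine ⟨q.rootMultiplicity x, ?_, ?_⟩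
  · have h1 := coeff_uniqueAlgEquiv ℚ (shift (fun _ : Fin 1 => x) (map (Int.castRingHom ℚ) Z))
      (q.rootMultiplicity x)
    rw [Fin.default_eq_zero] at h1
    rw [← h1, uniqueAlgEquiv_shift, hqe, Polynomial.rootMultiplicity_eq_natTrailingDegree]
    refine Polynomial.trailingCoeff_nonzero_iff_nonzero.mpr ?_
    rwa [Ne, Polynomial.comp_X_add_C_eq_zero_iff]
  · set k := q.rootMultiplicity x
    set u : Polynomial ℤ := Polynomial.C (x.den : ℤ) * Polynomial.X - Polynomial.C x.num with hu
    have hprim : u.IsPrimitive := by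
      rw [Polynomial.isPrimitive_iff_isUnit_of_C_dvd]
      intro r hr
      rw [Polynomial.C_dvd_iff_dvd_coeff] at hr
      have h0 := hr 0
      have h1 := hr 1
      simp [hu, Polynomial.coeff_C, -eq_intCast, -map_natCast] at h0 h1
      exact x.isCoprime_num_den.isUnit_of_dvd' h0 h1
    have hprimk : (u ^ k).IsPrimitive := by
      induction k with
      | zero => simp
      | succ k ih => rw [pow_succ]; exact ih.mul hprim
    have hden : (x.den : ℚ) ≠ 0 := Nat.cast_ne_zero.mpr x.den_nz
    have humap : u.map (Int.castRingHom ℚ) =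
        Polynomial.C (x.den : ℚ) * (Polynomial.X - Polynomial.C x) := by
      rw [mul_sub, ← Polynomial.C_mul, mul_comm (x.den : ℚ) x, Rat.mul_den_eq_num]
      simp [hu]
    have hdvd : u ^ k ∣ p := by
      rw [Polynomial.IsPrimitive.Int.dvd_iff_map_cast_dvd_map_cast _ _ hprimk, Polynomial.map_pow,
        humap, mul_pow, ← Polynomial.C_pow]
      exact (IsUnit.mul_left_dvd (Polynomial.isUnit_C.mpr (Ne.isUnit (pow_ne_zero _ hden)))).mpr
        (Polynomial.pow_rootMultiplicity_dvd q x)
    have hlead : u.leadingCoeff = x.den := by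
      rw [hu, sub_eq_add_neg, ← Polynomial.C_neg]
      exact Polynomial.leadingCoeff_linear (Nat.cast_ne_zero.mpr x.den_nz)
    have h2 := Polynomial.leadingCoeff_dvd_leadingCoeff hdvd
    rw [Polynomial.leadingCoeff_pow, hlead] at h2
    have h3 := Int.le_of_dvd (abs_pos.mpr (Polynomial.leadingCoeff_ne_zero.mpr hp0))
      ((dvd_abs _ _).mpr h2)
    refine le_trans ?_ (norm_coeff_le_l1 Z (single default p.natDegree))
    rw [← coeff_uniqueAlgEquiv, Int.norm_eq_abs]
    exact_mod_cast h3

end Pool.Agent.Subspace
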