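import Mathlib

/-!
Part H1, counting monomials of unusual weight.
-/

namespace Pool.Agent.Subspace

open Finset

/-- Exponential moment bound for a sum of independent bounded centered functions. -/
theorem tail_card {s : ℕ} {α : Type*} (S : Fin s → Finset α) (Z : Fin s → α → ℝ)
    (hZ : ∀ h, ∀ x ∈ S h, |Z h x| ≤ 1) (hsum : ∀ h, ∑ x ∈ S h, Z h x = 0) {τ : ℝ}
    (hτ0 : 0 ≤ τ) (hτ1 : τ ≤ 1) (u : ℝ) (B : Finset (Fin s → α))
    (hB : B ⊆ Fintype.piFinset S) (hu : ∀ ν ∈ B, u ≤ ∑ h, Z h (ν h)) :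
    (B.card : ℝ) * Real.exp (τ * u) ≤
      (Fintype.piFinset S).card * Real.exp (s * τ ^ 2) := by
  classical
  have h1 : ∀ h, ∑ x ∈ S h, Real.exp (τ * Z h x) ≤ (S h).card * Real.exp (τ ^ 2) := by
    intro h
    calc ∑ x ∈ S h, Real.exp (τ * Z h x) ≤ ∑ x ∈ S h, (Real.exp (τ ^ 2) + τ * Z h x) := by
          refine sum_le_sum fun x hx => ?_
          have ha : |τ * Z h x| ≤ τ := by
            rw [abs_mul, abs_of_nonneg hτ0]
            exact mul_le_of_le_one_right hτ0 (hZ h x hx)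
          have hb := Real.abs_exp_sub_one_sub_id_le (ha.trans hτ1)
          have hc : (τ * Z h x) ^ 2 ≤ τ ^ 2 := by
            rw [← sq_abs]
            exact pow_le_pow_left₀ (abs_nonneg _) ha 2
          have hd := Real.add_one_le_exp (τ ^ 2)
          have he := (abs_le.mp hb).2
          linarith
      _ = (S h).card * Real.exp (τ ^ 2) := by
          rw [sum_add_distrib, ← mul_sum, hsum h, mul_zero, add_zero, sum_const, nsmul_eq_mul]
  calc (B.card : ℝ) * Real.exp (τ * u) = ∑ _ν ∈ B, Real.exp (τ * u) := by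
        rw [sum_const, nsmul_eq_mul]
    _ ≤ ∑ ν ∈ B, ∏ h, Real.exp (τ * Z h (ν h)) := by
        refine sum_le_sum fun ν hν => ?_
        rw [← Real.exp_sum, ← mul_sum]
        exact Real.exp_le_exp.mpr (mul_le_mul_of_nonneg_left (hu ν hν) hτ0)
    _ ≤ ∑ ν ∈ Fintype.piFinset S, ∏ h, Real.exp (τ * Z h (ν h)) :=
        sum_le_sum_of_subset_of_nonneg hB fun ν _ _ => prod_nonneg fun h _ => (Real.exp_pos _).le
    _ = ∏ h, ∑ x ∈ S h, Real.exp (τ * Z h x) :=
        (prod_univ_sum S fun h x => Real.exp (τ * Z h x)).symm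
    _ ≤ ∏ h, ((S h).card * Real.exp (τ ^ 2)) :=
        prod_le_prod (fun h _ => sum_nonneg fun x _ => (Real.exp_pos _).le) fun h _ => h1 h
    _ = (Fintype.piFinset S).card * Real.exp (s * τ ^ 2) := by
        rw [prod_mul_distrib, Fintype.card_piFinset, prod_const, card_univ, Fintype.card_fin,
          ← Real.exp_nat_mul, Nat.cast_prod]

variable {ι : Type*} [Fintype ι] [DecidableEq ι]

theorem sum_simplex_swap (d : ℕ) (i j : ι) :
    ∑ x ∈ piAntidiag (univ : Finset ι) d, (x i : ℝ) =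
      ∑ x ∈ piAntidiag (univ : Finset ι) d, (x j : ℝ) := by
  have key : ∀ x ∈ piAntidiag (univ : Finset ι) d,
      x ∘ Equiv.swap i j ∈ piAntidiag (univ : Finset ι) d := by
    intro x hx
    rw [mem_piAntidiag] at hx ⊢
    refine ⟨?_, fun _ _ => mem_univ _⟩
    rw [← hx.1]
    exact Equiv.sum_comp (Equiv.swap i j) x
  refine sum_nbij' (fun x => x ∘ Equiv.swap i j) (fun x => x ∘ Equiv.swap i j) key key ?_ ?_ ?_
  · intro x _
    ext l
    simp
  · intro x _
    ext l
    simp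
  · intro x _
    simp

theorem sum_simplex (d : ℕ) (i : ι) :
    (Fintype.card ι : ℝ) * ∑ x ∈ piAntidiag (univ : Finset ι) d, (x i : ℝ) =
      d * (piAntidiag (univ : Finset ι) d).card := by
  calc (Fintype.card ι : ℝ) * ∑ x ∈ piAntidiag (univ : Finset ι) d, (x i : ℝ)
      = ∑ j : ι, ∑ x ∈ piAntidiag (univ : Finset ι) d, (x j : ℝ) := by
        rw [sum_congr rfl fun j _ => sum_simplex_swap d j i, sum_const, card_univ, nsmul_eq_mul]
    _ = ∑ x ∈ piAntidiag (univ : Finset ι) d, (d : ℝ) := by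
        rw [sum_comm]
        refine sum_congr rfl fun x hx => ?_
        rw [mem_piAntidiag] at hx
        rw [← hx.1, Nat.cast_sum]
    _ = _ := by rw [sum_const, nsmul_eq_mul, mul_comm]

theorem card_simplex_le (d : ℕ) :
    (piAntidiag (univ : Finset ι) d).card ≤ (2 ^ Fintype.card ι) ^ d := by
  calc (piAntidiag (univ : Finset ι) d).card
      ≤ (Fintype.piFinset fun _ : ι => range (d + 1)).card := by
        refine card_le_card fun x hx => ?_
        rw [mem_piAntidiag] at hx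
        rw [Fintype.mem_piFinset]
        intro i
        rw [mem_range, Nat.lt_succ_iff, ← hx.1]
        exact single_le_sum (fun j _ => Nat.zero_le _) (mem_univ i)
    _ = (d + 1) ^ Fintype.card ι := by simp
    _ ≤ (2 ^ d) ^ Fintype.card ι := Nat.pow_le_pow_left Nat.lt_two_pow_self _
    _ = _ := by rw [← pow_mul, ← pow_mul, mul_comm]

theorem simplex_nonempty [Nonempty ι] (d : ℕ) : (piAntidiag (univ : Finset ι) d).Nonempty := by
  obtain ⟨i⟩ := ‹Nonempty ι›
  refine ⟨Pi.single i d, ?_⟩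
  rw [mem_piAntidiag]
  exact ⟨by simp, fun _ _ => mem_univ _⟩

/-- Few multidegrees have a weight far above the mean. -/
theorem few_heavy [Nonempty ι] (c : ι → ℝ) {η δ : ℝ} (hη : 0 < η) (hδ : 0 < δ) :
    ∃ s₀ : ℕ, ∀ s : ℕ, s₀ ≤ s → ∀ (d m : Fin s → ℕ) (D : ℕ), 0 < D → (∀ h, m h * d h = D) →
      ∀ B : Finset (Fin s → ι → ℕ),
        B ⊆ Fintype.piFinset (fun h => piAntidiag (univ : Finset ι) (d h)) →
        (∀ ν ∈ B, (s : ℝ) * D * ((∑ i, c i) / Fintype.card ι + η) ≤
          ∑ h, ∑ i, (m h : ℝ) * c i * ν h i) →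
        (B.card : ℝ) ≤
          δ * (Fintype.piFinset (fun h => piAntidiag (univ : Finset ι) (d h))).card := by
  set A : ℝ := 2 * ∑ i, |c i| + η with hA
  have hc0 : 0 ≤ ∑ i, |c i| := sum_nonneg fun i _ => abs_nonneg _
  have hA0 : 0 < A := by positivity
  set τ : ℝ := η / (2 * A) with hτ
  have hτ0 : 0 < τ := by positivity
  have hτ1 : τ ≤ 1 := by
    rw [hτ, div_le_one (by positivity)]
    linarith
  obtain ⟨s₀, hs₀⟩ := exists_nat_ge (1 / (δ * τ ^ 2))
  refine ⟨s₀, fun s hs d m D hD hmd B hB hw => ?_⟩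
  have hn : (0 : ℝ) < Fintype.card ι := by exact_mod_cast Fintype.card_pos
  have hn1 : (1 : ℝ) ≤ Fintype.card ι := by exact_mod_cast Fintype.card_pos
  have hD' : (0 : ℝ) < D := by exact_mod_cast hD
  have hmd' : ∀ h, (m h : ℝ) * d h = D := fun h => by exact_mod_cast hmd h
  set av : ℝ := (∑ i, c i) / Fintype.card ι with hav
  let Z : Fin s → (ι → ℕ) → ℝ := fun h x => (∑ i, (m h : ℝ) * c i * x i - D * av) / (A * D)
  have hZ : ∀ h, ∀ x ∈ piAntidiag (univ : Finset ι) (d h), |Z h x| ≤ 1 := by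
    intro h x hx
    rw [mem_piAntidiag] at hx
    have hxi : ∀ i, (x i : ℝ) ≤ d h := fun i => by
      rw [← hx.1]
      exact_mod_cast single_le_sum (fun j _ => Nat.zero_le (x j)) (mem_univ i)
    have e1 : |∑ i, (m h : ℝ) * c i * x i| ≤ D * ∑ i, |c i| := by
      refine (abs_sum_le_sum_abs _ _).trans ?_
      rw [mul_sum]
      refine sum_le_sum fun i _ => ?_
      rw [abs_mul, abs_mul, Nat.abs_cast, Nat.abs_cast, ← hmd' h]
      have := mul_le_mul_of_nonneg_left (hxi i)
        (mul_nonneg (Nat.cast_nonneg (α := ℝ) (m h)) (abs_nonneg (c i)))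
      linarith
    have e2 : |D * av| ≤ D * ∑ i, |c i| := by
      rw [abs_mul, Nat.abs_cast]
      refine mul_le_mul_of_nonneg_left ?_ hD'.le
      rw [hav, abs_div, Nat.abs_cast]
      exact (div_le_self (abs_nonneg _) hn1).trans (abs_sum_le_sum_abs _ _)
    rw [abs_div, abs_of_pos (mul_pos hA0 hD'), div_le_one (mul_pos hA0 hD')]
    refine (abs_sub _ _).trans ?_
    rw [hA]
    nlinarith [mul_pos hη hD']
  have hsum : ∀ h, ∑ x ∈ piAntidiag (univ : Finset ι) (d h), Z h x = 0 := by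
    intro h
    rw [← sum_div, sum_sub_distrib, sum_comm, sum_const, nsmul_eq_mul, div_eq_zero_iff]
    left
    have e : ∀ i, ∑ x ∈ piAntidiag (univ : Finset ι) (d h), (m h : ℝ) * c i * x i =
        c i * (D * (piAntidiag (univ : Finset ι) (d h)).card / Fintype.card ι) := by
      intro i
      rw [← mul_sum, ← hmd' h, mul_assoc (m h : ℝ) (d h), ← sum_simplex (d h) i]
      field_simp
    rw [sum_congr rfl fun i _ => e i, ← sum_mul, hav]
    field_simp
    ring
  have hu : ∀ ν ∈ B, s * (2 * τ) ≤ ∑ h, Z h (ν h) := by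
    intro ν hν
    have := hw ν hν
    rw [← sum_div, sum_sub_distrib, sum_const, card_univ, Fintype.card_fin, nsmul_eq_mul,
      le_div_iff₀ (mul_pos hA0 hD')]
    have e : (s : ℝ) * (2 * τ) * (A * D) = s * D * η := by
      rw [hτ]
      field_simp
    rw [e]
    linarith
  have key := tail_card _ Z hZ hsum hτ0.le hτ1 _ B hB hu
  have e : Real.exp (τ * (s * (2 * τ))) = Real.exp (s * τ ^ 2) * Real.exp (s * τ ^ 2) := by
    rw [← Real.exp_add]
    congr 1
    ring
  rw [e, ← mul_assoc] at key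
  have key2 := le_of_mul_le_mul_right key (Real.exp_pos _)
  have h1 : 1 ≤ δ * Real.exp (s * τ ^ 2) := by
    have h2 := Real.add_one_le_exp (s * τ ^ 2)
    have h3 : (s₀ : ℝ) ≤ s := by exact_mod_cast hs
    rw [div_le_iff₀ (by positivity)] at hs₀
    have h4 : (s₀ : ℝ) * (δ * τ ^ 2) ≤ s * (δ * τ ^ 2) :=
      mul_le_mul_of_nonneg_right h3 (by positivity)
    nlinarith
  calc (B.card : ℝ) ≤ B.card * (δ * Real.exp (s * τ ^ 2)) :=
        le_mul_of_one_le_right (Nat.cast_nonneg _) h1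
    _ = δ * (B.card * Real.exp (s * τ ^ 2)) := by ring
    _ ≤ _ := mul_le_mul_of_nonneg_left key2 hδ.le

end Pool.Agent.Subspace
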