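import Pool.Agent.Shared.Subspace.AuxField
import Pool.Agent.Shared.Subspace.AuxTail

/-!
Part H1: the auxiliary polynomial (Siegel lemma) and the Liouville inequality.
-/

namespace Pool.Agent.Subspace

open MvPolynomial NumberField

/-- Liouville inequality for a linear form with real algebraic coefficients. -/
theorem liouville {ι : Type*} [Fintype ι] (a : ι → ℝ) (ha : ∀ i, IsAlgebraic ℚ (a i)) :
    ∃ (g : ℕ) (K : ℝ), 0 < K ∧ ∀ (w : ι → ℤ) (H : ℝ), 1 ≤ H → (∀ i, |(w i : ℝ)| ≤ H) →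
      ∑ i, a i * (w i : ℝ) ≠ 0 → 1 ≤ K * H ^ g * |∑ i, a i * (w i : ℝ)| :=
  liouville' a ha

attribute [local instance] Matrix.seminormedAddCommGroup in
/-- Siegel lemma with at least twice as many unknowns as equations. -/
theorem siegel_half {α β : Type*} [Fintype α] [Fintype β] (A : Matrix α β ℤ)
    (h : 2 * Fintype.card α ≤ Fintype.card β) (hβ : 0 < Fintype.card β) {B : ℝ} (hB : 1 ≤ B)
    (hA : ∀ i j, |(A i j : ℝ)| ≤ B) :
    ∃ p : β → ℤ, p ≠ 0 ∧ A.mulVec p = 0 ∧ ∀ j, |(p j : ℝ)| ≤ Fintype.card β * B := by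
  have hβ1 : (1 : ℝ) ≤ Fintype.card β := by exact_mod_cast hβ
  have hβB : (1 : ℝ) ≤ Fintype.card β * B := one_le_mul_of_one_le_of_one_le hβ1 hB
  rcases Nat.eq_zero_or_pos (Fintype.card α) with h0 | h0
  · have : IsEmpty α := Fintype.card_eq_zero_iff.mp h0
    have : Nonempty β := Fintype.card_pos_iff.mp hβ
    refine ⟨1, one_ne_zero, Subsingleton.elim _ _, fun j => ?_⟩
    simpa using hβB
  obtain ⟨p, hp0, hp, hn⟩ := Int.Matrix.exists_ne_zero_int_vec_norm_le A (by omega) h0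
  refine ⟨p, hp0, hp, fun j => ?_⟩
  have h1 : |(p j : ℝ)| ≤ ‖p‖ := by
    have := norm_le_pi_norm p j
    rwa [Int.norm_eq_abs] at this
  have h2 : ‖A‖ ≤ B := by
    rw [Matrix.norm_le_iff (by linarith)]
    intro i j
    rw [Int.norm_eq_abs]
    exact hA i j
  have h3 : (2 * Fintype.card α : ℝ) ≤ Fintype.card β := by exact_mod_cast h
  have h4 : (0 : ℝ) < Fintype.card α := by exact_mod_cast h0
  have h5 : (Fintype.card α : ℝ) / (Fintype.card β - Fintype.card α) ≤ 1 := by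
    rw [div_le_one (by linarith)]
    linarith
  have h6 : (1 : ℝ) ≤ Fintype.card β * max 1 ‖A‖ :=
    one_le_mul_of_one_le_of_one_le hβ1 (le_max_left _ _)
  refine h1.trans (hn.trans ((Real.rpow_le_rpow_of_exponent_le h6 h5).trans ?_))
  rw [Real.rpow_one]
  exact mul_le_mul_of_nonneg_left (max_le hB h2) (by linarith)

section mono

variable {τ ι : Type*} [Fintype τ] [Fintype ι]

/-- The exponent vector attached to a family of block exponents. -/
noncomputable def expo (ν : τ → ι → ℕ) : τ × ι →₀ ℕ :=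
  Finsupp.equivFunOnFinite.symm fun p => ν p.1 p.2

@[simp] theorem expo_apply (ν : τ → ι → ℕ) (p : τ × ι) : expo ν p = ν p.1 p.2 := rfl

theorem expo_injective : Function.Injective (expo : (τ → ι → ℕ) → _) := by
  intro ν μ h
  ext a i
  simpa using DFunLike.congr_fun h (a, i)

/-- The image of a monomial under a blockwise linear substitution. -/
noncomputable def mono {R : Type*} [CommRing R] (N : ι → ι → R) (ν : τ → ι → ℕ) :
    MvPolynomial (τ × ι) R :=
  ∏ p : τ × ι, (∑ j, C (N p.2 j) * X (p.1, j)) ^ ν p.1 p.2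

theorem linSub_monomial (M : Matrix ι ι ℝ) (ν : τ → ι → ℕ) (a : ℤ) :
    linSub M (monomial (expo ν) a) = C (a : ℝ) * mono M ν := by
  unfold linSub mono
  rw [aeval_monomial, Finsupp.prod_fintype _ _ fun p => pow_zero _]
  simp

theorem map_mono' {R S : Type*} [CommRing R] [CommRing S] (φ : R →+* S) (N : ι → ι → R)
    (ν : τ → ι → ℕ) : map φ (mono N ν) = mono (fun i j => φ (N i j)) ν := by
  simp [mono, map_prod, map_sum]

theorem mono_mul {R : Type*} [CommRing R] (t : R) (N : ι → ι → R) (ν : τ → ι → ℕ) :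
    mono (fun i j => t * N i j) ν = C (t ^ ∑ h, ∑ i, ν h i) * mono N ν := by
  unfold mono
  rw [← Fintype.sum_prod_type' (f := ν), map_pow, ← Finset.prod_pow_eq_pow_sum,
    ← Finset.prod_mul_distrib]
  refine Finset.prod_congr rfl fun p _ => ?_
  rw [← mul_pow, Finset.mul_sum]
  congr 1
  refine Finset.sum_congr rfl fun j _ => ?_
  rw [map_mul, mul_assoc]

theorem mono_degree {R : Type*} [CommRing R] (N : ι → ι → R) (ν : τ → ι → ℕ)
    {μ : τ × ι →₀ ℕ} (hμ : coeff μ (mono N ν) ≠ 0) (h : τ) :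
    ∑ i, μ (h, i) = ∑ i, ν h i := by
  classical
  let w : τ × ι → ℕ := fun p => if p.1 = h then 1 else 0
  have hw : ∀ f : τ × ι → ℕ, ∑ p, f p • w p = ∑ i, f (h, i) := by
    intro f
    rw [Fintype.sum_prod_type, Finset.sum_eq_single h]
    · simp [w]
    · intro a _ ha
      simp [w, ha]
    · simp
  have key : IsWeightedHomogeneous w (mono N ν) (∑ p : τ × ι, ν p.1 p.2 • w p) := by
    refine IsWeightedHomogeneous.prod _ _ _ fun p _ => IsWeightedHomogeneous.pow ?_ _
    refine IsWeightedHomogeneous.sum _ _ _ fun j _ => IsWeightedHomogeneous.C_mul ?_ _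
    exact isWeightedHomogeneous_X R w (p.1, j)
  have := key hμ
  rw [Finsupp.weight_eq_sum, hw, hw fun p => ν p.1 p.2] at this
  exact this

theorem l1_mono_le {R : Type*} [SeminormedCommRing R] [NormOneClass R] (N : ι → ι → R)
    (ν : τ → ι → ℕ) {B : ℝ} (hB : ∀ i, ∑ j, ‖N i j‖ ≤ B) :
    l1 (mono N ν) ≤ B ^ ∑ h, ∑ i, ν h i := by
  unfold mono
  rw [← Fintype.sum_prod_type' (f := ν), ← Finset.prod_pow_eq_pow_sum]
  refine (l1_prod_le _ _).trans (Finset.prod_le_prod (fun _ _ => l1_nonneg _) fun p _ => ?_)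
  refine (l1_pow_le _ _).trans (pow_le_pow_left₀ (l1_nonneg _) ?_ _)
  refine (l1_sum_le _ _).trans (le_trans (Finset.sum_le_sum fun j _ => ?_) (hB p.2))
  refine (l1_mul_le _ _).trans ?_
  rw [l1_C, l1_X, mul_one]

theorem house_coeff_mono_le {F : Type*} [Field F] [NumberField F] (N : ι → ι → 𝓞 F)
    (ν : τ → ι → ℕ) (μ : τ × ι →₀ ℕ) {B : ℝ} (hB : ∀ i, ∑ j, house (N i j : F) ≤ B) :
    house ((coeff μ (mono N ν) : 𝓞 F) : F) ≤ B ^ ∑ h, ∑ i, ν h i := by
  let φ : 𝓞 F →+* ((F →+* ℂ) → ℂ) := (canonicalEmbedding F).comp (algebraMap (𝓞 F) F)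
  have h1 : house ((coeff μ (mono N ν) : 𝓞 F) : F) = ‖coeff μ (map φ (mono N ν))‖ := by
    rw [coeff_map]
    rfl
  rw [h1, map_mono']
  exact (norm_coeff_le_l1 _ _).trans (l1_mono_le _ ν hB)

end mono

/-- The auxiliary polynomial: multihomogeneous of degree `d h` in the block `h`, of small height,
with no monomial of small `k`-weight, and, after the substitution `X = M Y`, no monomial of
large `c`-weight. -/
theorem aux_poly {ι : Type*} [Fintype ι] [DecidableEq ι] [Nonempty ι] (M : Matrix ι ι ℝ)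
    (hM : ∀ i j, IsAlgebraic ℚ (M i j)) (k c : ι → ℝ) {η : ℝ} (hη : 0 < η) :
    ∃ (s₀ : ℕ) (K : ℝ), 1 ≤ K ∧ ∀ s : ℕ, s₀ ≤ s → ∀ (d m : Fin s → ℕ) (D : ℕ), 0 < D →
      (∀ h, m h * d h = D) →
      ∃ P : MvPolynomial (Fin s × ι) ℤ, P ≠ 0 ∧
        (∀ ν ∈ P.support, ∀ h, ∑ i, ν (h, i) = d h) ∧
        (∀ ν ∈ P.support, (s : ℝ) * D * ((∑ i, k i) / Fintype.card ι - η) ≤
          ∑ h, ∑ i, (m h : ℝ) * k i * ν (h, i)) ∧
        l1 P ≤ K ^ (∑ h, d h) ∧
        (∀ ν ∈ (linSub M P).support, ∑ h, ∑ i, (m h : ℝ) * c i * ν (h, i) ≤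
          (s : ℝ) * D * ((∑ i, c i) / Fintype.card ι + η)) := by
  classical
  obtain ⟨F, _, _, σ, t, N', ht, hN'⟩ :=
    exists_numberField (fun p : ι × ι => M p.1 p.2) fun p => hM p.1 p.2
  let N : ι → ι → 𝓞 F := fun i j => N' (i, j)
  have hN : ∀ i j, σ (N i j : F) = t * M i j := fun i j => hN' (i, j)
  obtain ⟨C₀, hC₀, hrepr⟩ := exists_repr_le_house F
  set b := RingOfIntegers.basis F
  set g := Fintype.card (Module.Free.ChooseBasisIndex ℤ (𝓞 F)) with hg
  set δ : ℝ := 1 / (2 * g + 2) with hδ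
  have hδ0 : 0 < δ := by positivity
  obtain ⟨s₁, hs₁⟩ := few_heavy (fun i => -k i) hη hδ0
  obtain ⟨s₂, hs₂⟩ := few_heavy c hη hδ0
  set R : ℝ := 1 + ∑ i, ∑ j, house (N i j : F) with hR
  have hRs : ∀ i, 0 ≤ ∑ j, house (N i j : F) :=
    fun i => Finset.sum_nonneg fun j _ => house_nonneg _
  have hR1 : 1 ≤ R := by
    have := Finset.sum_nonneg fun i (_ : i ∈ Finset.univ) => hRs i
    linarith
  have hRi : ∀ i, ∑ j, house (N i j : F) ≤ R := fun i => by
    have := Finset.single_le_sum (fun i (_ : i ∈ Finset.univ) => hRs i) (Finset.mem_univ i)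
    linarith
  set E : ℝ := 2 ^ Fintype.card ι with hE
  have hE1 : 1 ≤ E := one_le_pow₀ (by norm_num)
  refine ⟨max 1 (max s₁ s₂), E * (E * ((1 + C₀) * R)), ?_, fun s hs d m D hD hmd => ?_⟩
  · refine one_le_mul_of_one_le_of_one_le hE1 (one_le_mul_of_one_le_of_one_le hE1
      (one_le_mul_of_one_le_of_one_le (by linarith) hR1))
  have hs1 : 1 ≤ s := (le_max_left _ _).trans hs
  have hss₁ : s₁ ≤ s := ((le_max_left _ _).trans (le_max_right _ _)).trans hs
  have hss₂ : s₂ ≤ s := ((le_max_right _ _).trans (le_max_right _ _)).trans hs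
  set T := Fintype.piFinset fun h => Finset.piAntidiag (Finset.univ : Finset ι) (d h) with hT
  have hmemT : ∀ ν, ν ∈ T ↔ ∀ h, ∑ i, ν h i = d h := by
    intro ν
    simp [hT, Fintype.mem_piFinset]
  have hsumT : ∀ ν ∈ T, ∑ h, ∑ i, ν h i = ∑ h, d h := fun ν hν =>
    Finset.sum_congr rfl fun h _ => (hmemT ν).mp hν h
  have hTpos : 0 < T.card :=
    Finset.card_pos.mpr (Fintype.piFinset_nonempty.mpr fun h => simplex_nonempty _)
  have hTle : (T.card : ℝ) ≤ E ^ ∑ h, d h := by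
    have : T.card ≤ (2 ^ Fintype.card ι) ^ ∑ h, d h := by
      rw [hT, Fintype.card_piFinset, ← Finset.prod_pow_eq_pow_sum]
      exact Finset.prod_le_prod' fun h _ => card_simplex_le _
    rw [hE]
    exact_mod_cast this
  have hd1 : 1 ≤ ∑ h, d h := by
    have h0 : 0 < d ⟨0, hs1⟩ := Nat.pos_of_mul_pos_left ((hmd ⟨0, hs1⟩).symm ▸ hD)
    exact h0.trans_le (Finset.single_le_sum (fun h _ => Nat.zero_le (d h)) (Finset.mem_univ _))
  -- good unknowns and bad equations
  set G := T.filter fun ν => (s : ℝ) * D * ((∑ i, k i) / Fintype.card ι - η) ≤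
    ∑ h, ∑ i, (m h : ℝ) * k i * ν h i with hG
  set B := T.filter fun ν => (s : ℝ) * D * ((∑ i, c i) / Fintype.card ι + η) ≤
    ∑ h, ∑ i, (m h : ℝ) * c i * ν h i with hB
  have hBcard : (B.card : ℝ) ≤ δ * T.card :=
    hs₂ s hss₂ d m D hD hmd B (Finset.filter_subset _ _) fun ν hν => (Finset.mem_filter.mp hν).2
  have hGcard : ((T \ G).card : ℝ) ≤ δ * T.card := by
    refine hs₁ s hss₁ d m D hD hmd (T \ G) Finset.sdiff_subset fun ν hν => ?_
    rw [Finset.mem_sdiff, hG, Finset.mem_filter, not_and, not_le] at hν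
    have := hν.2 hν.1
    simp only [mul_neg, neg_mul, Finset.sum_neg_distrib, neg_div]
    linarith
  have hGT : G ⊆ T := Finset.filter_subset _ _
  have hGc : (G.card : ℝ) = T.card - (T \ G).card := by
    rw [← Finset.card_sdiff_add_card_eq_card hGT]
    push_cast
    ring
  have hT0 : (0 : ℝ) < T.card := by exact_mod_cast hTpos
  have hδg : δ * (2 * g + 2) = 1 := by
    rw [hδ]
    field_simp
  have hg0 : (0 : ℝ) ≤ g := Nat.cast_nonneg _
  have hGlow : (2 * g + 1) * (δ * T.card) ≤ G.card := by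
    rw [hGc]
    have : (T.card : ℝ) = δ * (2 * g + 2) * T.card := by rw [hδg, one_mul]
    nlinarith
  let A : Matrix (B × Module.Free.ChooseBasisIndex ℤ (𝓞 F)) G ℤ :=
    fun r ν => b.repr (coeff (expo r.1.1) (mono N ν.1)) r.2
  set W : ℝ := ((1 + C₀) * R) ^ ∑ h, d h with hW
  have hW1 : 1 ≤ W :=
    one_le_pow₀ (one_le_mul_of_one_le_of_one_le (by linarith) hR1)
  obtain ⟨p, hp0, hp, hpn⟩ := siegel_half A (B := W)
    (by
      rw [Fintype.card_prod, Fintype.card_coe, Fintype.card_coe, ← hg]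
      have h1 : (2 * (B.card * g) : ℝ) ≤ G.card := by
        have h2 : (B.card : ℝ) * g ≤ δ * T.card * g := mul_le_mul_of_nonneg_right hBcard hg0
        have h3 : 0 ≤ δ * T.card := by positivity
        nlinarith
      exact_mod_cast h1)
    (by
      rw [Fintype.card_coe]
      have h1 : (0 : ℝ) < G.card := lt_of_lt_of_le (by positivity) hGlow
      exact_mod_cast h1)
    hW1
    (by
      intro r ν
      refine (hrepr _ _).trans ?_
      have h1 := house_coeff_mono_le N ν.1 (expo r.1.1) hRi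
      rw [hsumT _ (hGT ν.2)] at h1
      rw [hW, mul_pow]
      refine mul_le_mul ?_ h1 (house_nonneg _) (by positivity)
      calc C₀ ≤ (1 + C₀) ^ 1 := by rw [pow_one]; linarith
        _ ≤ _ := pow_le_pow_right₀ (by linarith) hd1)
  rw [Fintype.card_coe] at hpn
  set P : MvPolynomial (Fin s × ι) ℤ := ∑ ν : G, monomial (expo ν.1) (p ν) with hP
  have hcoeff : ∀ ν : G, coeff (expo ν.1) P = p ν := by
    intro ν
    rw [hP, coeff_sum, Finset.sum_eq_single ν]
    · simp
    · intro μ _ hμ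
      rw [coeff_monomial, if_neg]
      exact fun h => hμ (Subtype.ext (expo_injective h))
    · simp
  have hsupp : ∀ μ ∈ P.support, ∃ ν ∈ G, μ = expo ν := by
    intro μ hμ
    rw [mem_support_iff, hP, coeff_sum] at hμ
    obtain ⟨ν, -, hν⟩ := Finset.exists_ne_zero_of_sum_ne_zero hμ
    rw [coeff_monomial] at hν
    refine ⟨ν.1, ν.2, ?_⟩
    by_contra h
    exact hν (if_neg fun h' => h h'.symm)
  refine ⟨P, ?_, ?_, ?_, ?_, ?_⟩
  · intro h0
    apply hp0
    ext ν
    rw [← hcoeff ν, h0]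
    simp
  · intro μ hμ h
    obtain ⟨ν, hν, rfl⟩ := hsupp μ hμ
    exact (hmemT ν).mp (hGT hν) h
  · intro μ hμ
    obtain ⟨ν, hν, rfl⟩ := hsupp μ hμ
    exact (Finset.mem_filter.mp hν).2
  · have hGle : (G.card : ℝ) ≤ E ^ ∑ h, d h :=
      le_trans (by exact_mod_cast Finset.card_le_card hGT) hTle
    calc l1 P ≤ ∑ ν : G, l1 (monomial (expo ν.1) (p ν)) := l1_sum_le _ _
      _ ≤ ∑ _ν : G, (G.card * W) := by
          refine Finset.sum_le_sum fun ν _ => ?_
          rw [l1_monomial, Int.norm_eq_abs]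
          exact hpn ν
      _ = G.card * (G.card * W) := by
          rw [Finset.sum_const, Finset.card_univ, Fintype.card_coe, nsmul_eq_mul]
      _ ≤ E ^ (∑ h, d h) * (E ^ (∑ h, d h) * W) := by gcongr
      _ = _ := by rw [hW, mul_pow E, mul_pow E]
  · intro μ hμ
    have hlin : linSub M P = ∑ ν : G, C (p ν : ℝ) * mono M ν.1 := by
      rw [hP]
      unfold linSub
      rw [map_sum]
      exact Finset.sum_congr rfl fun ν _ => linSub_monomial M ν.1 (p ν)
    rw [mem_support_iff, hlin, coeff_sum] at hμ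
    let ν' : Fin s → ι → ℕ := fun h i => μ (h, i)
    have hμν : μ = expo ν' := by
      ext q
      rfl
    have hν'T : ν' ∈ T := by
      obtain ⟨ν, -, hν⟩ := Finset.exists_ne_zero_of_sum_ne_zero hμ
      rw [coeff_C_mul] at hν
      rw [hmemT]
      intro h
      rw [← (hmemT ν.1).mp (hGT ν.2) h]
      exact mono_degree M ν.1 (right_ne_zero_of_mul hν) h
    by_contra hcon
    have hν'B : ν' ∈ B := Finset.mem_filter.mpr ⟨hν'T, (not_le.mp hcon).le⟩
    have hzero : ∑ ν : G, (p ν : 𝓞 F) * coeff μ (mono N ν.1) = 0 := by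
      rw [← b.repr.map_eq_zero_iff]
      ext a
      have := congrFun hp (⟨ν', hν'B⟩, a)
      simp only [Matrix.mulVec, dotProduct, A, ← hμν, Pi.zero_apply] at this
      rw [map_sum, Finsupp.finsetSum_apply, Finsupp.zero_apply, ← this]
      refine Finset.sum_congr rfl fun ν _ => ?_
      rw [← zsmul_eq_mul, map_zsmul, Finsupp.smul_apply, smul_eq_mul, mul_comm]
    let φ : 𝓞 F →+* ℝ := σ.comp (algebraMap (𝓞 F) F)
    have hφ := congrArg φ hzero
    rw [map_sum, map_zero] at hφ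
    have hφ' : ∀ ν : G, φ ((p ν : 𝓞 F) * coeff μ (mono N ν.1)) =
        (t : ℝ) ^ (∑ h, d h) * coeff μ (C (p ν : ℝ) * mono M ν.1) := by
      intro ν
      rw [map_mul, map_intCast, ← coeff_map, map_mono']
      have e : (fun i j => φ (N i j)) = fun i j => (t : ℝ) * M i j := by
        ext i j
        exact hN i j
      have e2 : mono (fun i j => (t : ℝ) * M i j) ν.1 =
          C ((t : ℝ) ^ ∑ h, ∑ i, ν.1 h i) * mono M ν.1 := mono_mul (t : ℝ) M ν.1
      rw [e, e2, hsumT _ (hGT ν.2), coeff_C_mul, coeff_C_mul]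
      ring
    rw [Finset.sum_congr rfl fun ν _ => hφ' ν, ← Finset.mul_sum] at hφ
    have ht' : (t : ℝ) ^ (∑ h, d h) ≠ 0 := by positivity
    exact mul_ne_zero ht' hμ hφ

end Pool.Agent.Subspace
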