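import Pool.Agent.Shared.Subspace.Defs

/-!
Weighted order of vanishing, shifts and Hasse derivatives of multivariate polynomials.
-/

namespace Pool.Agent.Subspace

open MvPolynomial Finsupp

section Idx

variable {σ τ R S : Type*} [CommRing R] [CommRing S]

/-- Every monomial of `Q` has weight at least `θ`. -/
def IdxGe (w : σ → ℝ) (θ : ℝ) (Q : MvPolynomial σ R) : Prop :=
  ∀ ν ∈ Q.support, θ ≤ weight w ν

theorem IdxGe.mono {w : σ → ℝ} {θ θ' : ℝ} {Q : MvPolynomial σ R} (h : IdxGe w θ Q)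
    (hθ : θ' ≤ θ) : IdxGe w θ' Q := fun ν hν => hθ.trans (h ν hν)

theorem idxGe_zero (w : σ → ℝ) (θ : ℝ) : IdxGe w θ (0 : MvPolynomial σ R) := by
  intro ν hν; simp at hν

theorem idxGe_monomial {w : σ → ℝ} {θ : ℝ} {ν : σ →₀ ℕ} (h : θ ≤ weight w ν) (a : R) :
    IdxGe w θ (monomial ν a) := by
  classical
  intro μ hμ
  have := support_monomial_subset hμ
  rw [Finset.mem_singleton] at this
  rwa [this]

theorem idxGe_C (w : σ → ℝ) (a : R) : IdxGe w 0 (C a : MvPolynomial σ R) :=
  idxGe_monomial (ν := 0) (by simp) a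

theorem idxGe_X (w : σ → ℝ) (i : σ) : IdxGe w (w i) (X i : MvPolynomial σ R) :=
  idxGe_monomial (ν := single i 1) (by simp [weight_single]) 1

theorem weight_nonneg {w : σ → ℝ} (hw : ∀ i, 0 ≤ w i) (ν : σ →₀ ℕ) : 0 ≤ weight w ν := by
  rw [weight_apply]
  exact Finset.sum_nonneg fun i _ => nsmul_nonneg (hw i) _

theorem idxGe_of_nonneg {w : σ → ℝ} (hw : ∀ i, 0 ≤ w i) (Q : MvPolynomial σ R) :
    IdxGe w 0 Q := fun ν _ => weight_nonneg hw ν

theorem IdxGe.add {w : σ → ℝ} {θ : ℝ} {P Q : MvPolynomial σ R} (hP : IdxGe w θ P)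
    (hQ : IdxGe w θ Q) : IdxGe w θ (P + Q) := by
  classical
  intro ν hν
  rcases Finset.mem_union.mp (MvPolynomial.support_add hν) with h | h
  exacts [hP ν h, hQ ν h]

theorem IdxGe.neg {w : σ → ℝ} {θ : ℝ} {P : MvPolynomial σ R} (hP : IdxGe w θ P) :
    IdxGe w θ (-P) := by
  intro ν hν
  rw [support_neg] at hν
  exact hP ν hν

theorem IdxGe.sub {w : σ → ℝ} {θ : ℝ} {P Q : MvPolynomial σ R} (hP : IdxGe w θ P)
    (hQ : IdxGe w θ Q) : IdxGe w θ (P - Q) := by
  rw [sub_eq_add_neg]; exact hP.add hQ.neg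

theorem idxGe_sum {α : Type*} {w : σ → ℝ} {θ : ℝ} (s : Finset α) {f : α → MvPolynomial σ R}
    (h : ∀ a ∈ s, IdxGe w θ (f a)) : IdxGe w θ (∑ a ∈ s, f a) := by
  classical
  induction s using Finset.induction_on with
  | empty => simpa using idxGe_zero w θ
  | insert a s ha ih =>
    rw [Finset.sum_insert ha]
    exact (h a (Finset.mem_insert_self _ _)).add
      (ih fun c hc => h c (Finset.mem_insert_of_mem hc))

theorem IdxGe.mul {w : σ → ℝ} {θ θ' : ℝ} {P Q : MvPolynomial σ R} (hP : IdxGe w θ P)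
    (hQ : IdxGe w θ' Q) : IdxGe w (θ + θ') (P * Q) := by
  classical
  intro ν hν
  obtain ⟨a, ha, c, hc, rfl⟩ := Finset.mem_add.mp (support_mul P Q hν)
  rw [map_add]
  exact add_le_add (hP a ha) (hQ c hc)

theorem IdxGe.C_mul {w : σ → ℝ} {θ : ℝ} {P : MvPolynomial σ R} (hP : IdxGe w θ P) (a : R) :
    IdxGe w θ (C a * P) := by
  simpa using (idxGe_C w a).mul hP

theorem idxGe_prod {α : Type*} {w : σ → ℝ} (s : Finset α) {θ : α → ℝ}
    {f : α → MvPolynomial σ R} (h : ∀ a ∈ s, IdxGe w (θ a) (f a)) :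
    IdxGe w (∑ a ∈ s, θ a) (∏ a ∈ s, f a) := by
  classical
  induction s using Finset.induction_on with
  | empty => simpa using idxGe_C w (1 : R)
  | insert a s ha ih =>
    rw [Finset.sum_insert ha, Finset.prod_insert ha]
    exact (h a (Finset.mem_insert_self _ _)).mul
      (ih fun c hc => h c (Finset.mem_insert_of_mem hc))

theorem IdxGe.pow {w : σ → ℝ} {θ : ℝ} {P : MvPolynomial σ R} (hP : IdxGe w θ P) (e : ℕ) :
    IdxGe w (e • θ) (P ^ e) := by
  induction e with
  | zero => simpa using idxGe_C w (1 : R)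
  | succ e ih => rw [pow_succ, succ_nsmul]; exact ih.mul hP

/-- Substitutions which respect the weights respect the index. -/
theorem IdxGe.eval₂ {w : σ → ℝ} {w' : τ → ℝ} {θ : ℝ} {P : MvPolynomial σ R} (hP : IdxGe w θ P)
    (φ : R →+* S) {f : σ → MvPolynomial τ S} (hf : ∀ i, IdxGe w' (w i) (f i)) :
    IdxGe w' θ (eval₂ (C.comp φ) f P) := by
  rw [eval₂_eq]
  refine idxGe_sum _ fun ν hν => ?_
  rw [RingHom.comp_apply]
  refine IdxGe.C_mul ?_ _
  refine (idxGe_prod ν.support (θ := fun i => ν i • w i) fun i _ => (hf i).pow _).mono ?_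
  have := hP ν hν
  rwa [weight_apply] at this

theorem IdxGe.aeval {w : σ → ℝ} {w' : τ → ℝ} {θ : ℝ} {P : MvPolynomial σ R} (hP : IdxGe w θ P)
    {f : σ → MvPolynomial τ R} (hf : ∀ i, IdxGe w' (w i) (f i)) :
    IdxGe w' θ (aeval f P) := by
  have := hP.eval₂ (RingHom.id R) hf
  rwa [aeval_def]

theorem IdxGe.map {w : σ → ℝ} {θ : ℝ} {P : MvPolynomial σ R} (hP : IdxGe w θ P) (φ : R →+* S) :
    IdxGe w θ (map φ P) := fun ν hν => hP ν (support_map_subset φ P hν)

theorem IdxGe.of_map {w : σ → ℝ} {θ : ℝ} {P : MvPolynomial σ R} {φ : R →+* S}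
    (hφ : Function.Injective φ) (hP : IdxGe w θ (MvPolynomial.map φ P)) : IdxGe w θ P := by
  intro ν hν
  apply hP
  rwa [support_map_of_injective _ hφ]

theorem idxGe_det {n : Type*} [Fintype n] [DecidableEq n] {w : σ → ℝ} {θ : ℝ}
    (A : Matrix n n (MvPolynomial σ R)) (t : n → n → ℝ) (hA : ∀ i j, IdxGe w (t i j) (A i j))
    (ht : ∀ π : Equiv.Perm n, θ ≤ ∑ j, t (π j) j) : IdxGe w θ A.det := by
  rw [Matrix.det_apply']
  refine idxGe_sum _ fun π _ => ?_
  have h1 := (idxGe_prod Finset.univ (θ := fun j => t (π j) j) fun j _ => hA (π j) j).mono (ht π)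
  have : (((Equiv.Perm.sign π : ℤˣ) : ℤ) : MvPolynomial σ R) =
      C (((Equiv.Perm.sign π : ℤˣ) : ℤ) : R) := by simp
  rw [this]
  exact h1.C_mul _

/-- The degree in the variable `i` is at most `d`. -/
def DegLe (i : σ) (d : ℕ) (P : MvPolynomial σ R) : Prop := ∀ ν ∈ P.support, ν i ≤ d

theorem degLe_iff [DecidableEq σ] (i : σ) (d : ℕ) (P : MvPolynomial σ R) :
    DegLe i d P ↔ IdxGe (Pi.single i (-1 : ℝ)) (-d) P := by
  refine forall₂_congr fun ν _ => ?_
  rw [weight_single_index]
  simp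

/-- The shift `P(X) ↦ P(x + X)`. -/
noncomputable def shift (x : σ → R) : MvPolynomial σ R →ₐ[R] MvPolynomial σ R :=
  MvPolynomial.aeval fun i => C (x i) + X i

@[simp] theorem shift_X (x : σ → R) (i : σ) : shift x (X i) = C (x i) + X i := by
  simp [shift]

theorem shift_shift (x y : σ → R) (P : MvPolynomial σ R) :
    shift x (shift y P) = shift (x + y) P := by
  have : (shift x).comp (shift y) = shift (x + y) := by
    ext1 i; simp; ring
  exact DFunLike.congr_fun this P

theorem shift_zero (P : MvPolynomial σ R) : shift 0 P = P := by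
  have : shift (0 : σ → R) = AlgHom.id R _ := by
    ext1 i; simp
  rw [this]; rfl

theorem shift_ne_zero (x : σ → R) {P : MvPolynomial σ R} (hP : P ≠ 0) : shift x P ≠ 0 := by
  intro h
  apply hP
  have := shift_shift (-x) x P
  rw [h, neg_add_cancel, shift_zero, map_zero] at this
  exact this.symm

theorem map_shift (φ : R →+* S) (x : σ → R) (P : MvPolynomial σ R) :
    map φ (shift x P) = shift (fun i => φ (x i)) (map φ P) := by
  induction P using MvPolynomial.induction_on with
  | C a => simp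
  | add P Q hP hQ => simp [hP, hQ]
  | mul_X P i hP => simp [hP]

theorem DegLe.shift {i : σ} {d : ℕ} {P : MvPolynomial σ R} (hP : DegLe i d P) (x : σ → R) :
    DegLe i d (shift x P) := by
  classical
  rw [degLe_iff] at hP ⊢
  refine hP.aeval fun j => IdxGe.add ((idxGe_C _ _).mono ?_) (idxGe_X _ _)
  by_cases h : j = i
  · subst h; simp
  · simp [h]

theorem pderiv_shift (x : σ → R) (i : σ) (P : MvPolynomial σ R) :
    pderiv i (shift x P) = shift x (pderiv i P) := by
  classical
  induction P using MvPolynomial.induction_on with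
  | C a => simp
  | add P Q hP hQ => simp [hP, hQ]
  | mul_X P j hP =>
    by_cases h : j = i
    · subst h; simp [hP]
    · simp [hP, pderiv_X_of_ne h]

end Idx

section Hasse

variable {σ R S : Type*} [Fintype σ] [CommRing R] [CommRing S]

/-- Product of binomial coefficients. -/
def binom (ν μ : σ →₀ ℕ) : ℕ := ∏ i, (ν i).choose (μ i)

theorem binom_eq_zero {ν μ : σ →₀ ℕ} (h : ¬ μ ≤ ν) : binom ν μ = 0 := by
  rw [Finsupp.le_def, not_forall] at h
  obtain ⟨i, hi⟩ := h
  exact Finset.prod_eq_zero (Finset.mem_univ i) (Nat.choose_eq_zero_of_lt (not_le.mp hi))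

theorem binom_le (ν μ : σ →₀ ℕ) : binom ν μ ≤ 2 ^ (∑ i, ν i) := by
  rw [binom, ← Finset.prod_pow_eq_pow_sum]
  exact Finset.prod_le_prod' fun i _ => Nat.choose_le_two_pow _ _

/-- Hasse derivative. -/
noncomputable def hasse (μ : σ →₀ ℕ) : MvPolynomial σ R →ₗ[R] MvPolynomial σ R :=
  (basisMonomials σ R).constr R fun ν => monomial (ν - μ) (binom ν μ : R)

theorem hasse_monomial (μ ν : σ →₀ ℕ) (a : R) :
    hasse μ (monomial ν a) = monomial (ν - μ) ((binom ν μ : R) * a) := by
  have h1 : monomial ν a = a • (basisMonomials σ R ν) := by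
    simp [coe_basisMonomials, smul_monomial]
  rw [h1, map_smul, hasse, Module.Basis.constr_basis, smul_monomial, smul_eq_mul, mul_comm]

theorem coeff_hasse (μ ν : σ →₀ ℕ) (P : MvPolynomial σ R) :
    coeff ν (hasse μ P) = (binom (ν + μ) μ : R) * coeff (ν + μ) P := by
  classical
  induction P using MvPolynomial.induction_on' with
  | add P Q hP hQ => simp [hP, hQ, mul_add]
  | monomial ρ a =>
    rw [hasse_monomial, coeff_monomial, coeff_monomial]
    by_cases h : ρ = ν + μ
    · subst h; simp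
    · rw [if_neg h, mul_zero]
      split_ifs with h'
      · by_cases hle : μ ≤ ρ
        · exact absurd (by rw [← h', tsub_add_cancel_of_le hle]) h
        · simp [binom_eq_zero hle]
      · rfl

theorem hasse_zero (P : MvPolynomial σ R) : hasse 0 P = P := by
  ext ν; simp [coeff_hasse, binom]

theorem map_hasse (φ : R →+* S) (μ : σ →₀ ℕ) (P : MvPolynomial σ R) :
    map φ (hasse μ P) = hasse μ (map φ P) := by
  ext ν; simp [coeff_hasse, coeff_map]

theorem mem_support_hasse {μ ν : σ →₀ ℕ} {P : MvPolynomial σ R} (h : ν ∈ (hasse μ P).support) :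
    ν + μ ∈ P.support := by
  rw [MvPolynomial.mem_support_iff] at h ⊢
  intro h0
  rw [coeff_hasse, h0, mul_zero] at h
  exact h rfl

theorem IdxGe.hasse {w : σ → ℝ} {θ : ℝ} {P : MvPolynomial σ R} (hP : IdxGe w θ P)
    (μ : σ →₀ ℕ) : IdxGe w (θ - weight w μ) (hasse μ P) := by
  intro ν hν
  have := hP _ (mem_support_hasse hν)
  rw [map_add] at this
  linarith

theorem DegLe.hasse {i : σ} {d : ℕ} {P : MvPolynomial σ R} (hP : DegLe i d P) (μ : σ →₀ ℕ) :
    DegLe i d (hasse μ P) := by
  intro ν hν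
  have := hP _ (mem_support_hasse hν)
  simp only [Finsupp.add_apply] at this
  omega

theorem pderiv_hasse (i : σ) (μ : σ →₀ ℕ) (P : MvPolynomial σ R) :
    pderiv i (hasse μ P) = ((μ i + 1 : ℕ) : MvPolynomial σ R) * hasse (μ + single i 1) P := by
  classical
  ext ν
  have hc : ((μ i + 1 : ℕ) : MvPolynomial σ R) = C ((μ i + 1 : ℕ) : R) := by simp
  rw [hc, coeff_C_mul, coeff_pderiv, coeff_hasse, coeff_hasse]
  have e1 : ν + single i 1 + μ = ν + (μ + single i 1) := by abel
  rw [e1]
  have key : binom (ν + (μ + single i 1)) μ * (ν i + 1) =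
      (μ i + 1) * binom (ν + (μ + single i 1)) (μ + single i 1) := by
    unfold binom
    rw [← Finset.mul_prod_erase _ _ (Finset.mem_univ i),
      ← Finset.mul_prod_erase _ _ (Finset.mem_univ i)]
    have h2 : ∏ j ∈ Finset.univ.erase i,
          ((ν + (μ + single i 1) : σ →₀ ℕ) j).choose ((μ + single i 1 : σ →₀ ℕ) j) =
        ∏ j ∈ Finset.univ.erase i, ((ν + (μ + single i 1) : σ →₀ ℕ) j).choose (μ j) := by
      refine Finset.prod_congr rfl fun j hj => ?_
      have : j ≠ i := (Finset.mem_erase.mp hj).1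
      simp [single_eq_of_ne this]
    rw [h2]
    simp only [Finsupp.add_apply, single_eq_same]
    have h3 := Nat.choose_succ_right_eq (ν i + (μ i + 1)) (μ i)
    have h4 : ν i + (μ i + 1) - μ i = ν i + 1 := by omega
    rw [h4] at h3
    rw [mul_right_comm, ← h3]
    ring
  have key' := congrArg (Nat.cast : ℕ → R) key
  push_cast at key' ⊢
  linear_combination (coeff (ν + (μ + single i 1)) P) * key'

theorem hasse_shift [IsDomain R] [CharZero R] (x : σ → R) (μ : σ →₀ ℕ) (P : MvPolynomial σ R) :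
    hasse μ (shift x P) = shift x (hasse μ P) := by
  classical
  generalize hn : ∑ i, μ i = n
  induction n generalizing μ with
  | zero =>
    have : μ = 0 := by
      ext i
      exact (Finset.sum_eq_zero_iff.mp hn) i (Finset.mem_univ i)
    rw [this, hasse_zero, hasse_zero]
  | succ n ih =>
    obtain ⟨i, -, hi⟩ := Finset.exists_ne_zero_of_sum_ne_zero (s := Finset.univ) (f := μ)
      (by omega)
    obtain ⟨μ', rfl⟩ : ∃ μ', μ = μ' + single i 1 :=
      ⟨μ - single i 1, (tsub_add_cancel_of_le (by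
        rw [single_le_iff]; omega)).symm⟩
    have h1 : ∑ j, μ' j = n := by
      simp only [Finsupp.add_apply, Finset.sum_add_distrib] at hn
      rw [Finset.sum_eq_single i (f := fun j => (single i 1 : σ →₀ ℕ) j)
        (fun j _ hj => single_eq_of_ne hj) (by simp)] at hn
      simp at hn
      omega
    have h2 := congrArg (pderiv i) (ih μ' h1)
    rw [pderiv_shift, pderiv_hasse, pderiv_hasse, map_mul, map_natCast] at h2
    exact mul_left_cancel₀ (Nat.cast_ne_zero.mpr (Nat.succ_ne_zero _)) h2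

theorem l1_hasse_le {R : Type*} [NormedCommRing R] [NormOneClass R] (μ : σ →₀ ℕ)
    (P : MvPolynomial σ R) {E : ℕ} (hE : ∀ ν ∈ P.support, ∑ i, ν i ≤ E) :
    l1 (hasse μ P) ≤ 2 ^ E * l1 P := by
  conv_lhs => rw [P.as_sum, map_sum]
  refine (l1_sum_le _ _).trans ?_
  rw [l1, Finset.mul_sum]
  refine Finset.sum_le_sum fun ν hν => ?_
  rw [hasse_monomial, l1_monomial]
  refine (norm_mul_le _ _).trans (mul_le_mul_of_nonneg_right ?_ (norm_nonneg _))
  refine (Nat.norm_cast_le _).trans ?_
  rw [norm_one, mul_one]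
  have := (binom_le ν μ).trans (Nat.pow_le_pow_right (by norm_num) (hE ν hν))
  exact_mod_cast this

end Hasse

end Pool.Agent.Subspace
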