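import Pool.Agent.Shared.Subspace.Index

/-!
Generalized Wronskians, and minimal tensor decompositions.
-/

namespace Pool.Agent.Subspace

open MvPolynomial Finsupp

variable {σ : Type*} [Fintype σ]

theorem sum_add_single (ν : σ →₀ ℕ) (i : σ) :
    ∑ j, (ν + single i 1 : σ →₀ ℕ) j = ∑ j, ν j + 1 := by
  classical
  simp only [Finsupp.add_apply, Finset.sum_add_distrib]
  rw [Finset.sum_eq_single i (f := fun j => (single i 1 : σ →₀ ℕ) j)
    (fun j _ hj => single_eq_of_ne hj) (by simp)]
  simp

omit [Fintype σ] in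
theorem eq_C_of_pderiv {p : MvPolynomial σ ℚ} (h : ∀ i, pderiv i p = 0) : p = C (coeff 0 p) := by
  classical
  ext ν
  rw [coeff_C]
  split_ifs with h0
  · rw [h0]
  · obtain ⟨i, hi⟩ : ∃ i, ν i ≠ 0 := by
      by_contra hc
      push Not at hc
      exact h0 (Finsupp.ext hc).symm
    obtain ⟨ν', rfl⟩ : ∃ ν', ν = ν' + single i 1 :=
      ⟨ν - single i 1, (tsub_add_cancel_of_le (by rw [single_le_iff]; omega)).symm⟩
    have := congrArg (coeff ν') (h i)
    rw [coeff_pderiv, coeff_zero, mul_eq_zero] at this
    rcases this with h1 | h1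
    · exact h1
    · exact absurd h1 (by positivity)

theorem ann_eq_zero {r : ℕ} {f : Fin r → MvPolynomial σ ℚ} (hf : LinearIndependent ℚ f)
    (N : Set (Fin r → MvPolynomial σ ℚ)) (h0 : ∀ c ∈ N, ∑ j, c j * f j = 0)
    (hd : ∀ c ∈ N, ∀ i, (fun j => pderiv i (c j)) ∈ N) : ∀ c ∈ N, c = 0 := by
  classical
  have key : ∀ e : ℕ, ∀ c ∈ N, (∀ j, ∀ ν ∈ (c j).support, ∑ i, ν i < e) → c = 0 := by
    intro e
    induction e with
    | zero =>
      intro c _ hc
      funext j
      by_contra hne
      obtain ⟨ν, hν⟩ := MvPolynomial.support_nonempty.mpr hne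
      exact absurd (hc j ν hν) (Nat.not_lt_zero _)
    | succ e ih =>
      intro c hcN hc
      have h1 : ∀ i j, pderiv i (c j) = 0 := by
        intro i j
        have := ih _ (hd c hcN i) (by
          intro j ν hν
          rw [MvPolynomial.mem_support_iff, coeff_pderiv] at hν
          have h2 := hc j (ν + single i 1)
            (MvPolynomial.mem_support_iff.mpr (left_ne_zero_of_mul hν))
          rw [sum_add_single] at h2
          omega)
        exact congrFun this j
      have h2 : ∀ j, c j = C (coeff 0 (c j)) := fun j => eq_C_of_pderiv fun i => h1 i j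
      have h3 := h0 c hcN
      have h4 : ∑ j, (coeff 0 (c j)) • f j = 0 := by
        rw [← h3]
        refine Finset.sum_congr rfl fun j _ => ?_
        rw [smul_eq_C_mul, ← h2 j]
      funext j
      rw [h2 j, Fintype.linearIndependent_iff.mp hf _ h4 j]
      simp
  intro c hc
  refine key (∑ j, ∑ ν ∈ (c j).support, ∑ i, ν i + 1) c hc fun j ν hν => ?_
  have h1 : ∑ i, ν i ≤ ∑ ν ∈ (c j).support, ∑ i, ν i :=
    Finset.single_le_sum (f := fun ν : σ →₀ ℕ => ∑ i, ν i) (fun _ _ => Nat.zero_le _) hν
  have h2 : ∑ ν ∈ (c j).support, ∑ i, ν i ≤ ∑ j, ∑ ν ∈ (c j).support, ∑ i, ν i :=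
    Finset.single_le_sum (f := fun j => ∑ ν ∈ (c j).support, ∑ i, ν i)
      (fun _ _ => Nat.zero_le _) (Finset.mem_univ j)
  omega

/-- Some generalized Wronskian of linearly independent polynomials does not vanish. -/
theorem wronskian {r : ℕ} (f : Fin r → MvPolynomial σ ℚ) (hf : LinearIndependent ℚ f) :
    ∃ μ : Fin r → σ →₀ ℕ, (∀ i, ∑ l, μ i l ≤ i) ∧
      (Matrix.of fun i j => hasse (μ i) (f j)).det ≠ 0 := by
  classical
  induction r with
  | zero => exact ⟨fun i => i.elim0, fun i => i.elim0, by simp⟩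
  | succ r ih =>
    obtain ⟨μ, hμ, hdet⟩ := ih (fun j => f j.castSucc) (hf.comp _ (Fin.castSucc_injective r))
    by_contra hcon
    push Not at hcon
    set c : Fin (r + 1) → MvPolynomial σ ℚ := fun j => (-1) ^ (r + j : ℕ) *
      (Matrix.of fun i l => hasse (μ i) (f (j.succAbove l))).det with hc
    have hclast : c (Fin.last r) = (Matrix.of fun i j => hasse (μ i) (f j.castSucc)).det := by
      simp only [hc, Fin.val_last, Fin.succAbove_last, ← two_mul, pow_mul]
      simp
    let N : ℕ → Set (Fin (r + 1) → MvPolynomial σ ℚ) := fun k =>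
      {a | ∀ ν : σ →₀ ℕ, ∑ l, ν l < k → ∑ j, a j * hasse ν (f j) = 0}
    have hcN : c ∈ N (r + 1) := by
      intro ν hν
      have h1 := hcon (Fin.snoc (α := fun _ => σ →₀ ℕ) μ ν) (by
        intro i
        refine Fin.lastCases ?_ (fun i => ?_) i
        · simp only [Fin.snoc_last, Fin.val_last]; omega
        · simpa using hμ i)
      rw [Matrix.det_succ_row _ (Fin.last r)] at h1
      rw [← h1]
      refine Finset.sum_congr rfl fun j _ => ?_
      simp only [hc, Matrix.of_apply, Fin.snoc_last, Fin.val_last, Fin.succAbove_last]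
      have : (Matrix.of fun i j => hasse (Fin.snoc (α := fun _ => σ →₀ ℕ) μ ν i) (f j)).submatrix
          Fin.castSucc j.succAbove = Matrix.of fun i l => hasse (μ i) (f (j.succAbove l)) := by
        ext i l : 2
        simp
      rw [this]
      ring
    have hup : ∀ a ∈ N r, a ∈ N (r + 1) := by
      intro a ha
      have hrow : ∀ i, ∑ l, μ i l < r := fun i => (hμ i).trans_lt i.2
      have h1 : (Matrix.of fun i (j : Fin r) => hasse (μ i) (f j.castSucc)).mulVec
          (fun j : Fin r => c (Fin.last r) * a j.castSucc - a (Fin.last r) * c j.castSucc) = 0 := by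
        funext i
        have e1 := ha (μ i) (hrow i)
        have e2 := hcN (μ i) ((hrow i).trans (Nat.lt_succ_self r))
        rw [Fin.sum_univ_castSucc] at e1 e2
        simp only [Matrix.mulVec, dotProduct, Matrix.of_apply, Pi.zero_apply]
        have : ∑ j : Fin r, hasse (μ i) (f j.castSucc) *
            (c (Fin.last r) * a j.castSucc - a (Fin.last r) * c j.castSucc) =
            c (Fin.last r) * ∑ j : Fin r, a j.castSucc * hasse (μ i) (f j.castSucc) -
            a (Fin.last r) * ∑ j : Fin r, c j.castSucc * hasse (μ i) (f j.castSucc) := by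
          rw [Finset.mul_sum, Finset.mul_sum, ← Finset.sum_sub_distrib]
          exact Finset.sum_congr rfl fun j _ => by ring
        rw [this]
        linear_combination c (Fin.last r) * e1 - a (Fin.last r) * e2
      have h2 := Matrix.eq_zero_of_mulVec_eq_zero hdet h1
      have h3 : ∀ j, c (Fin.last r) * a j = a (Fin.last r) * c j := by
        intro j
        refine Fin.lastCases ?_ (fun j => ?_) j
        · ring
        · exact sub_eq_zero.mp (congrFun h2 j)
      intro ν hν
      have h4 : c (Fin.last r) * ∑ j, a j * hasse ν (f j) = 0 := by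
        have := hcN ν hν
        calc c (Fin.last r) * ∑ j, a j * hasse ν (f j)
            = a (Fin.last r) * ∑ j, c j * hasse ν (f j) := by
              rw [Finset.mul_sum, Finset.mul_sum]
              exact Finset.sum_congr rfl fun j _ => by rw [← mul_assoc, h3 j, mul_assoc]
          _ = 0 := by rw [this, mul_zero]
      rcases mul_eq_zero.mp h4 with h5 | h5
      · exact absurd (hclast ▸ h5) hdet
      · exact h5
    have hzero := ann_eq_zero hf (N (r + 1)) (by
      intro a ha
      simpa [hasse_zero] using ha 0 (by simp)) (by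
      intro a ha i
      apply hup
      intro ν hν
      have e1 := congrArg (pderiv i) (ha ν (by omega))
      have e2 := ha (ν + single i 1) (by rw [sum_add_single]; omega)
      rw [map_sum, map_zero] at e1
      simp only [pderiv_mul, pderiv_hasse, Finset.sum_add_distrib] at e1
      have e3 : ∑ j, a j * (((ν i + 1 : ℕ) : MvPolynomial σ ℚ) * hasse (ν + single i 1) (f j)) =
          ((ν i + 1 : ℕ) : MvPolynomial σ ℚ) * ∑ j, a j * hasse (ν + single i 1) (f j) := by
        rw [Finset.mul_sum]
        exact Finset.sum_congr rfl fun j _ => by ring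
      rw [e3, e2, mul_zero, add_zero] at e1
      exact e1) c hcN
    rw [hzero] at hclast
    exact hdet hclast.symm

/-- A tensor has a decomposition with both families linearly independent. -/
theorem exists_indep_decomp {M N T : Type} [AddCommGroup M] [AddCommGroup N] [AddCommGroup T]
    [Module ℚ M] [Module ℚ N] [Module ℚ T] (B : M →ₗ[ℚ] N →ₗ[ℚ] T) (r : ℕ) (f : Fin r → M)
    (g : Fin r → N) : ∃ r' ≤ r, ∃ (f' : Fin r' → M) (g' : Fin r' → N),
      LinearIndependent ℚ f' ∧ LinearIndependent ℚ g' ∧
        ∑ j, B (f' j) (g' j) = ∑ j, B (f j) (g j) := by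
  have step : ∀ {M N : Type} [AddCommGroup M] [AddCommGroup N] [Module ℚ M] [Module ℚ N]
      (B : M →ₗ[ℚ] N →ₗ[ℚ] T) (r : ℕ) (f : Fin (r + 1) → M) (g : Fin (r + 1) → N),
      ¬ LinearIndependent ℚ f → ∃ (f' : Fin r → M) (g' : Fin r → N),
        ∑ j, B (f' j) (g' j) = ∑ j, B (f j) (g j) := by
    intro M N _ _ _ _ B r f g hf
    obtain ⟨a, ha, j₀, hj₀⟩ := Fintype.not_linearIndependent_iff.mp hf
    refine ⟨fun j => f (j₀.succAbove j),
      fun j => g (j₀.succAbove j) - (a (j₀.succAbove j) / a j₀) • g j₀, ?_⟩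
    rw [Fin.sum_univ_succAbove _ j₀] at ha ⊢
    have h1 : f j₀ = -∑ j, (a (j₀.succAbove j) / a j₀) • f (j₀.succAbove j) := by
      have h2 : a j₀ • f j₀ = -∑ j, a (j₀.succAbove j) • f (j₀.succAbove j) :=
        eq_neg_of_add_eq_zero_left ha
      calc f j₀ = (a j₀)⁻¹ • (a j₀ • f j₀) := by rw [smul_smul, inv_mul_cancel₀ hj₀, one_smul]
        _ = _ := by
          rw [h2, smul_neg, Finset.smul_sum]
          congr 1
          exact Finset.sum_congr rfl fun j _ => by rw [smul_smul, div_eq_inv_mul]
    rw [h1]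
    simp only [map_sub, map_smul, Finset.sum_sub_distrib, map_neg, map_sum,
      LinearMap.neg_apply, LinearMap.sum_apply, LinearMap.smul_apply]
    abel
  induction r with
  | zero =>
    exact ⟨0, le_rfl, f, g, linearIndependent_empty_type, linearIndependent_empty_type, rfl⟩
  | succ r ih =>
    by_cases hf : LinearIndependent ℚ f
    · by_cases hg : LinearIndependent ℚ g
      · exact ⟨r + 1, le_rfl, f, g, hf, hg, rfl⟩
      · obtain ⟨g', f', h⟩ := step B.flip r g f hg
        obtain ⟨r', hr', f'', g'', h1, h2, h3⟩ := ih f' g'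
        exact ⟨r', by omega, f'', g'', h1, h2, h3.trans (by simpa using h)⟩
    · obtain ⟨f', g', h⟩ := step B r f g hf
      obtain ⟨r', hr', f'', g'', h1, h2, h3⟩ := ih f' g'
      exact ⟨r', by omega, f'', g'', h1, h2, h3.trans h⟩

end Pool.Agent.Subspace
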