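import Pool.Agent.Shared.Subspace.Defs

/-!
Part H1, number field preliminaries.
-/

namespace Pool.Agent.Subspace

open NumberField

/-- Finitely many real algebraic numbers become algebraic integers of a number field after
multiplication by a positive integer. -/
theorem exists_numberField {ι : Type*} [Fintype ι] (a : ι → ℝ) (ha : ∀ i, IsAlgebraic ℚ (a i)) :
    ∃ (K : Type) (_ : Field K) (_ : NumberField K) (σ : K →+* ℝ) (t : ℕ) (N : ι → 𝓞 K),
      0 < t ∧ ∀ i, σ (N i : K) = t * a i := by
  classical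
  let K := IntermediateField.adjoin ℚ (Set.range a)
  have hfin : FiniteDimensional ℚ K := IntermediateField.finiteDimensional_adjoin
    (S := Set.range a) (by rintro _ ⟨i, rfl⟩; exact (ha i).isIntegral)
  have hK : NumberField K := { to_charZero := inferInstance, to_finiteDimensional := hfin }
  let x : ι → K := fun i => ⟨a i, IntermediateField.subset_adjoin _ _ ⟨i, rfl⟩⟩
  obtain ⟨y, hy0, hy⟩ := exists_integral_multiples ℤ ℚ (L := K) (Finset.univ.image x)
  have hint : ∀ i, IsIntegral ℤ ((y.natAbs : K) * x i) := by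
    intro i
    have h1 := hy (x i) (Finset.mem_image_of_mem _ (Finset.mem_univ i))
    rw [zsmul_eq_mul] at h1
    rcases Int.natAbs_eq y with h | h
    · rw [h] at h1
      simpa using h1
    · rw [h] at h1
      have h2 := h1.neg
      simpa using h2
  refine ⟨K, inferInstance, hK, algebraMap K ℝ, y.natAbs, fun i => ⟨_, hint i⟩,
    Int.natAbs_pos.mpr hy0, fun i => ?_⟩
  change algebraMap K ℝ ((y.natAbs : K) * x i) = _
  rw [map_mul, map_natCast]
  rfl

/-- Coordinates in an integral basis are bounded by the house. -/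
theorem exists_repr_le_house (K : Type*) [Field K] [NumberField K] :
    ∃ C : ℝ, 0 ≤ C ∧ ∀ (α : 𝓞 K) (i : Module.Free.ChooseBasisIndex ℤ (𝓞 K)),
      |(((RingOfIntegers.basis K).repr α i : ℤ) : ℝ)| ≤ C * house (α : K) := by
  classical
  obtain ⟨C, hC⟩ : ∃ C : ℝ, ∀ (α : 𝓞 K) (i : K →+* ℂ),
      ‖(((integralBasis K).reindex (equivReindex K).symm).repr α i : ℂ)‖ ≤
        C * house (algebraMap (𝓞 K) K α) := ⟨_, house.basis_repr_norm_le_const_mul_house K⟩
  refine ⟨max C 0, le_max_right _ _, fun α i => ?_⟩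
  have h := hC α ((equivReindex K).symm i)
  rw [Module.Basis.repr_reindex_apply] at h
  simp only [Equiv.symm_symm, Equiv.apply_symm_apply] at h
  have h2 := integralBasis_repr_apply (K := K) α i
  change (integralBasis K).repr (α : K) i = _ at h2
  rw [h2] at h
  simp only [eq_intCast, Rat.cast_intCast, Complex.norm_intCast] at h
  exact h.trans (mul_le_mul_of_nonneg_right (le_max_left _ _) (house_nonneg _))

/-- Liouville inequality for a linear form with real algebraic coefficients. -/
theorem liouville' {ι : Type*} [Fintype ι] (a : ι → ℝ) (ha : ∀ i, IsAlgebraic ℚ (a i)) :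
    ∃ (g : ℕ) (K : ℝ), 0 < K ∧ ∀ (w : ι → ℤ) (H : ℝ), 1 ≤ H → (∀ i, |(w i : ℝ)| ≤ H) →
      ∑ i, a i * (w i : ℝ) ≠ 0 → 1 ≤ K * H ^ g * |∑ i, a i * (w i : ℝ)| := by
  obtain ⟨F, _, _, σ, t, N, ht, hN⟩ := exists_numberField a ha
  set g := Module.finrank ℚ F - 1
  set B := 1 + ∑ i, house (N i : F) with hB
  have hB1 : 1 ≤ B := by
    have : 0 ≤ ∑ i, house (N i : F) := Finset.sum_nonneg fun i _ => house_nonneg _
    linarith
  refine ⟨g, t * B ^ g, by positivity, fun w H hH hw h0 => ?_⟩
  set β : 𝓞 F := ∑ i, (w i : 𝓞 F) * N i with hβ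
  have hβF : (β : F) = ∑ i, (w i : F) * (N i : F) := by
    change algebraMap (𝓞 F) F β = _
    rw [hβ, map_sum]
    simp only [map_mul, map_intCast]
  have hσβ : σ (β : F) = t * ∑ i, a i * (w i : ℝ) := by
    rw [hβF, map_sum, Finset.mul_sum]
    refine Finset.sum_congr rfl fun i _ => ?_
    rw [map_mul, map_intCast, hN]
    ring
  have hβ0 : β ≠ 0 := by
    intro h
    rw [h] at hσβ
    have h1 : σ ((0 : 𝓞 F) : F) = 0 := by simp
    rw [h1] at hσβ
    have ht' : (t : ℝ) ≠ 0 := by positivity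
    exact mul_ne_zero ht' h0 hσβ.symm
  have h1 : (1 : ℝ) ≤ ‖Algebra.norm ℚ (β : F)‖ := by
    rw [← Algebra.coe_norm_int, ← Rat.norm_cast_real, Real.norm_eq_abs, Rat.cast_intCast,
      ← Int.cast_abs, ← Int.cast_one, Int.cast_le]
    exact Int.one_le_abs (Algebra.norm_ne_zero_iff.mpr hβ0)
  have h2 := norm_norm_le_norm_mul_house_pow (β : F) (Complex.ofRealHom.comp σ)
  have h3 : ‖(Complex.ofRealHom.comp σ) (β : F)‖ = t * |∑ i, a i * (w i : ℝ)| := by
    rw [RingHom.comp_apply, hσβ, Complex.ofRealHom_eq_coe, Complex.norm_real, Real.norm_eq_abs,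
      abs_mul, Nat.abs_cast]
  have h4 : house (β : F) ≤ B * H := by
    rw [hβF]
    refine (house_sum_le_sum_house _ _).trans ?_
    calc ∑ i, house ((w i : F) * (N i : F)) ≤ ∑ i, house (N i : F) * H := by
          refine Finset.sum_le_sum fun i _ => (house_mul_le _ _).trans ?_
          rw [house_intCast, mul_comm, Int.cast_abs]
          exact mul_le_mul_of_nonneg_left (hw i) (house_nonneg _)
      _ = (∑ i, house (N i : F)) * H := by rw [Finset.sum_mul]
      _ ≤ B * H := by
          refine mul_le_mul_of_nonneg_right ?_ (by linarith)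
          linarith
  rw [h3] at h2
  have h5 : house (β : F) ^ g ≤ (B * H) ^ g := pow_le_pow_left₀ (house_nonneg _) h4 g
  calc (1 : ℝ) ≤ t * |∑ i, a i * (w i : ℝ)| * house (β : F) ^ g := h1.trans h2
    _ ≤ t * |∑ i, a i * (w i : ℝ)| * (B * H) ^ g := by gcongr
    _ = t * B ^ g * H ^ g * |∑ i, a i * (w i : ℝ)| := by rw [mul_pow]; ring

end Pool.Agent.Subspace
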