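import Mathlib

/-!
Shared definitions for the b-adic Subspace Theorem.
-/

namespace Pool.Agent.Subspace

open MvPolynomial

/-- The sum of the norms of the coefficients of a polynomial. -/
noncomputable def l1 {σ R : Type*} [SeminormedCommRing R] (P : MvPolynomial σ R) : ℝ :=
  ∑ ν ∈ P.support, ‖coeff ν P‖

/-- The integer point `x` lies in the box with parameter `m`:
`b ^ (k i * m)` divides `x i`, and `|L i x| ≤ b ^ (c i * m)`. -/
def InBox {ι : Type*} [Fintype ι] (b : ℕ) (k : ι → ℕ) (c : ι → ℝ) (L : Matrix ι ι ℝ) (m : ℕ)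
    (x : ι → ℤ) : Prop :=
  (∀ i, (b : ℤ) ^ (k i * m) ∣ x i) ∧ ∀ i, |∑ j, L i j * (x j : ℝ)| ≤ (b : ℝ) ^ (c i * m)

/-- The blockwise linear substitution `X (h, i) ↦ ∑ j, M i j * X (h, j)`. -/
noncomputable def linSub {τ ι : Type*} [Fintype ι] (M : Matrix ι ι ℝ)
    (P : MvPolynomial (τ × ι) ℤ) : MvPolynomial (τ × ι) ℝ :=
  aeval (fun p : τ × ι => ∑ j, C (M p.2 j) * X (p.1, j)) P

section l1

variable {σ τ R S : Type*} [SeminormedCommRing R] [SeminormedCommRing S]

theorem l1_nonneg (P : MvPolynomial σ R) : 0 ≤ l1 P :=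
  Finset.sum_nonneg fun _ _ => norm_nonneg _

theorem l1_eq_sum_of_subset (P : MvPolynomial σ R) {s : Finset (σ →₀ ℕ)} (h : P.support ⊆ s) :
    l1 P = ∑ ν ∈ s, ‖coeff ν P‖ := by
  unfold l1
  refine Finset.sum_subset h fun ν _ hν => ?_
  rw [notMem_support_iff.mp hν, norm_zero]

theorem sum_norm_coeff_le_l1 (P : MvPolynomial σ R) (s : Finset (σ →₀ ℕ)) :
    ∑ ν ∈ s, ‖coeff ν P‖ ≤ l1 P := by
  classical
  rw [l1_eq_sum_of_subset P (s := s ∪ P.support) Finset.subset_union_right]
  exact Finset.sum_le_sum_of_subset_of_nonneg Finset.subset_union_left fun _ _ _ => norm_nonneg _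

theorem norm_coeff_le_l1 (P : MvPolynomial σ R) (ν : σ →₀ ℕ) : ‖coeff ν P‖ ≤ l1 P := by
  simpa using sum_norm_coeff_le_l1 P {ν}

@[simp] theorem l1_zero : l1 (0 : MvPolynomial σ R) = 0 := by simp [l1]

theorem l1_monomial (ν : σ →₀ ℕ) (a : R) : l1 (monomial ν a) = ‖a‖ := by
  classical
  rw [l1_eq_sum_of_subset _ (s := {ν}) support_monomial_subset]
  simp

theorem l1_C (a : R) : l1 (C a : MvPolynomial σ R) = ‖a‖ := l1_monomial 0 a

theorem l1_X [NormOneClass R] (i : σ) : l1 (X i : MvPolynomial σ R) = 1 := by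
  rw [X, l1_monomial, norm_one]

theorem l1_one [NormOneClass R] : l1 (1 : MvPolynomial σ R) = 1 := by
  rw [← C_1, l1_C, norm_one]

theorem l1_add_le (P Q : MvPolynomial σ R) : l1 (P + Q) ≤ l1 P + l1 Q := by
  classical
  rw [l1_eq_sum_of_subset (P + Q) support_add,
    l1_eq_sum_of_subset P (s := P.support ∪ Q.support) Finset.subset_union_left,
    l1_eq_sum_of_subset Q (s := P.support ∪ Q.support) Finset.subset_union_right,
    ← Finset.sum_add_distrib]
  exact Finset.sum_le_sum fun ν _ => by rw [coeff_add]; exact norm_add_le _ _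

theorem l1_neg (P : MvPolynomial σ R) : l1 (-P) = l1 P := by
  simp [l1, support_neg]

theorem l1_sum_le {α : Type*} (s : Finset α) (f : α → MvPolynomial σ R) :
    l1 (∑ a ∈ s, f a) ≤ ∑ a ∈ s, l1 (f a) := by
  classical
  induction s using Finset.induction_on with
  | empty => simp
  | insert a s ha ih =>
    rw [Finset.sum_insert ha, Finset.sum_insert ha]
    exact (l1_add_le _ _).trans (by linarith)

theorem l1_mul_le (P Q : MvPolynomial σ R) : l1 (P * Q) ≤ l1 P * l1 Q := by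
  classical
  conv_lhs => rw [P.as_sum, Q.as_sum, Finset.sum_mul_sum]
  refine (l1_sum_le _ _).trans ?_
  unfold l1
  rw [Finset.sum_mul_sum]
  refine Finset.sum_le_sum fun a _ => ?_
  refine (l1_sum_le _ _).trans (Finset.sum_le_sum fun c _ => ?_)
  rw [monomial_mul, l1_monomial]
  exact norm_mul_le _ _

theorem l1_prod_le [NormOneClass R] {α : Type*} (s : Finset α) (f : α → MvPolynomial σ R) :
    l1 (∏ a ∈ s, f a) ≤ ∏ a ∈ s, l1 (f a) := by
  classical
  induction s using Finset.induction_on with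
  | empty => simp [l1_one]
  | insert a s ha ih =>
    rw [Finset.prod_insert ha, Finset.prod_insert ha]
    exact (l1_mul_le _ _).trans (mul_le_mul_of_nonneg_left ih (l1_nonneg _))

theorem l1_pow_le [NormOneClass R] (P : MvPolynomial σ R) (e : ℕ) : l1 (P ^ e) ≤ l1 P ^ e := by
  induction e with
  | zero => simp [l1_one]
  | succ e ih =>
    rw [pow_succ, pow_succ]
    exact (l1_mul_le _ _).trans (mul_le_mul_of_nonneg_right ih (l1_nonneg _))

/-- The norm of the image of a polynomial under a substitution. -/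
theorem l1_eval₂_le [NormOneClass S] (φ : R →+* S) (hφ : ∀ a, ‖φ a‖ ≤ ‖a‖)
    (f : σ → MvPolynomial τ S) (P : MvPolynomial σ R) {B : ℝ}
    (hB : ∀ ν ∈ P.support, ∏ i ∈ ν.support, l1 (f i) ^ ν i ≤ B) :
    l1 (eval₂ (C.comp φ) f P) ≤ l1 P * B := by
  rw [eval₂_eq]
  refine (l1_sum_le _ _).trans ?_
  rw [l1, Finset.sum_mul]
  refine Finset.sum_le_sum fun ν hν => (l1_mul_le _ _).trans ?_
  rw [RingHom.comp_apply, l1_C]
  refine mul_le_mul (hφ _) ((l1_prod_le _ _).trans (le_trans ?_ (hB ν hν))) (l1_nonneg _)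
    (norm_nonneg _)
  exact Finset.prod_le_prod (fun _ _ => l1_nonneg _) fun i _ => l1_pow_le _ _

end l1

end Pool.Agent.Subspace
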