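import Pool.Agent.Shared.Subspace.AuxPoly

/-!
Hyperplanes of small height spanned by points of the box belong to a finite set.
-/

namespace Pool.Agent.Subspace

open Matrix

variable {ι : Type*} [Fintype ι] [DecidableEq ι]

theorem row_dvd_det (A : Matrix ι ι ℤ) (r : ι → ℤ) (h : ∀ i j, r i ∣ A i j) :
    ∏ i, r i ∣ A.det := by
  rw [Matrix.det_apply']
  refine Finset.dvd_sum fun π _ => Dvd.dvd.mul_left ?_ _
  rw [← Equiv.prod_comp π r]
  exact Finset.prod_dvd_prod_of_dvd _ _ fun j _ => h _ _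

theorem row_abs_det_le (A : Matrix ι ι ℝ) (r : ι → ℝ) (h : ∀ i j, |A i j| ≤ r i) :
    |A.det| ≤ (Fintype.card ι).factorial * ∏ i, r i := by
  rw [Matrix.det_apply']
  refine (Finset.abs_sum_le_sum_abs _ _).trans ?_
  have : ∀ π : Equiv.Perm ι, |((Equiv.Perm.sign π : ℤ) : ℝ) * ∏ j, A (π j) j| ≤ ∏ i, r i := by
    intro π
    have h1 : |((Equiv.Perm.sign π : ℤ) : ℝ)| = 1 := by
      rcases Int.units_eq_one_or (Equiv.Perm.sign π) with h | h <;> simp [h]
    rw [abs_mul, h1, one_mul, Finset.abs_prod, ← Equiv.prod_comp π r]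
    exact Finset.prod_le_prod (fun _ _ => abs_nonneg _) fun j _ => h _ _
  refine (Finset.sum_le_sum fun π _ => this π).trans ?_
  simp [Fintype.card_perm]

theorem isAlgebraic_inv (L : Matrix ι ι ℝ) (hL : ∀ i j, IsAlgebraic ℚ (L i j)) (i j : ι) :
    IsAlgebraic ℚ (L⁻¹ i j) := by
  have hdet : ∀ X : Matrix ι ι ℝ, (∀ i j, X i j ∈ algebraicClosure ℚ ℝ) →
      X.det ∈ algebraicClosure ℚ ℝ := by
    intro X hX
    rw [Matrix.det_apply']
    exact sum_mem fun π _ => mul_mem (intCast_mem _ _) (prod_mem fun j _ => hX _ _)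
  have hL' : ∀ i j, L i j ∈ algebraicClosure ℚ ℝ := fun i j => mem_algebraicClosure_iff.mpr (hL i j)
  rw [← mem_algebraicClosure_iff, Matrix.inv_def, Matrix.smul_apply, smul_eq_mul,
    Ring.inverse_eq_inv', Matrix.adjugate_apply]
  refine mul_mem (inv_mem (hdet L hL')) (hdet _ fun a c => ?_)
  rw [Matrix.updateRow_apply]
  split_ifs
  · rw [Pi.single_apply]
    split_ifs
    exacts [one_mem _, zero_mem _]
  · exact hL' _ _

theorem eventually_le_rpow {b : ℝ} (hb : 1 < b) (C : ℝ) {δ : ℝ} (hδ : 0 < δ) :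
    ∃ m₀ : ℕ, ∀ m : ℕ, m₀ ≤ m → C < b ^ (δ * m) := by
  have h1 : Filter.Tendsto (fun m : ℕ => b ^ (δ * m)) Filter.atTop Filter.atTop :=
    (tendsto_rpow_atTop_of_base_gt_one b hb).comp
      (tendsto_natCast_atTop_atTop.const_mul_atTop hδ)
  exact Filter.eventually_atTop.mp (h1.eventually_gt_atTop C)

/-- Normal vectors to the columns other than `j₀` are proportional to a row of the adjugate. -/
theorem normal_prop {V : Matrix ι ι ℤ} (hV : V.det ≠ 0) {j₀ : ι} {w : ι → ℤ} (hw : w ≠ 0)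
    (hn : ∀ j, j ≠ j₀ → ∑ i, w i * V i j = 0) :
    ∑ i, w i * V i j₀ ≠ 0 ∧ ∀ i, (∑ i, w i * V i j₀) * V.adjugate j₀ i = V.det * w i := by
  have h1 : (fun i => (∑ i, w i * V i j₀) * V.adjugate j₀ i - V.det * w i) ᵥ* V = 0 := by
    funext j
    have h2 : ∑ i, V.adjugate j₀ i * V i j = if j₀ = j then V.det else 0 := by
      rw [← Matrix.mul_apply, Matrix.adjugate_mul, Matrix.smul_apply, Matrix.one_apply]
      simp
    simp only [Matrix.vecMul, dotProduct, sub_mul, Finset.sum_sub_distrib, mul_assoc,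
      ← Finset.mul_sum, h2, Pi.zero_apply]
    split_ifs with h
    · subst h; ring
    · rw [hn j (Ne.symm h)]; ring
  have h2 := Matrix.eq_zero_of_vecMul_eq_zero hV h1
  have h3 : ∀ i, (∑ i, w i * V i j₀) * V.adjugate j₀ i = V.det * w i := fun i =>
    sub_eq_zero.mp (congrFun h2 i)
  refine ⟨fun h0 => hw (funext fun i => ?_), h3⟩
  have := h3 i
  rw [h0, zero_mul] at this
  exact (mul_eq_zero.mp this.symm).resolve_left hV

theorem det_updateCol_eq {R : Type*} [CommRing R] (V : Matrix ι ι R) (j₀ : ι) (y : ι → R) :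
    (V.updateCol j₀ y).det = ∑ i, V.adjugate j₀ i * y i := by
  rw [← Matrix.cramer_apply, Matrix.cramer_eq_adjugate_mulVec]
  rfl

theorem dichotomy (b : ℕ) (hb : 2 ≤ b) (k : ι → ℕ) (c : ι → ℝ) (L : Matrix ι ι ℝ)
    (hL : ∀ i j, IsAlgebraic ℚ (L i j)) (hdet : L.det ≠ 0) (hck : ∑ i, c i < ∑ i, (k i : ℝ)) :
    ∃ (δ : ℝ) (Ψ : Finset (ι → ℤ)) (m₀ : ℕ), 0 < δ ∧ (∀ ψ ∈ Ψ, ψ ≠ 0) ∧ ∀ m : ℕ, m₀ ≤ m →
      ∀ (V : Matrix ι ι ℤ) (j₀ : ι), V.det ≠ 0 →
        (∀ j, j ≠ j₀ → InBox b k c L m fun i => V i j) →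
        ∀ w : ι → ℤ, w ≠ 0 → (∀ j, j ≠ j₀ → ∑ i, w i * V i j = 0) →
          (∀ i, |(w i : ℝ)| ≤ (b : ℝ) ^ (δ * m)) →
          ∃ ψ ∈ Ψ, ∀ j, j ≠ j₀ → ∑ i, ψ i * V i j = 0 := by
  classical
  have hb1 : (1 : ℝ) < b := by exact_mod_cast hb
  have hb0 : (0 : ℝ) < b := by linarith
  set M := L⁻¹ with hM
  have hu : IsUnit L.det := Ne.isUnit hdet
  have hML : M * L = 1 := Matrix.nonsing_inv_mul L hu
  have hLM : L * M = 1 := Matrix.mul_nonsing_inv L hu
  set Γ : ℝ := ∑ i, (k i : ℝ) - ∑ i, c i with hΓ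
  have hΓ0 : 0 < Γ := by linarith
  choose g K hK0 hK using fun j => liouville (fun i => M i j) fun i => isAlgebraic_inv L hL i j
  set G : ℕ := Finset.univ.sup g with hG
  set K' : ℝ := ∑ j, K j with hK'
  let star : (ι → ℤ) → ι → ℝ := fun u j => ∑ i, M i j * (u i : ℝ)
  have hstar : ∀ (u x : ι → ℤ), ((∑ i, u i * x i : ℤ) : ℝ) =
      ∑ j, star u j * ∑ l, L j l * (x l : ℝ) := by
    intro u x
    have hδ : ∀ i l, ∑ j, M i j * L j l = if i = l then 1 else 0 := fun i l => by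
      rw [← Matrix.mul_apply, hML, Matrix.one_apply]
    calc ((∑ i, u i * x i : ℤ) : ℝ)
        = ∑ i, ∑ l, (u i : ℝ) * (x l : ℝ) * ∑ j, M i j * L j l := by
          simp [hδ]
      _ = ∑ i, ∑ l, ∑ j, M i j * (u i : ℝ) * (L j l * (x l : ℝ)) := by
          refine Finset.sum_congr rfl fun i _ => Finset.sum_congr rfl fun l _ => ?_
          rw [Finset.mul_sum]
          exact Finset.sum_congr rfl fun j _ => by ring
      _ = ∑ j, ∑ i, ∑ l, M i j * (u i : ℝ) * (L j l * (x l : ℝ)) := by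
          rw [Finset.sum_comm (s := Finset.univ) (t := Finset.univ)
            (f := fun j i => ∑ l, M i j * (u i : ℝ) * (L j l * (x l : ℝ)))]
          exact Finset.sum_congr rfl fun i _ => Finset.sum_comm
      _ = _ := by
          refine Finset.sum_congr rfl fun j _ => ?_
          rw [Finset.sum_mul_sum]
  let good : Finset ι × Finset ι → (ι → ℤ) → Prop := fun IJ u =>
    u ≠ 0 ∧ (∀ i, u i ≠ 0 → i ∈ IJ.1) ∧ ∀ j, star u j ≠ 0 → j ∈ IJ.2
  let ψ : Finset ι × Finset ι → ι → ℤ := fun IJ =>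
    if h : ∃ u, good IJ u then h.choose else 0
  let Ψ : Finset (ι → ℤ) := (Finset.univ.filter fun IJ => ∃ u, good IJ u).image ψ
  have hψ : ∀ IJ, (∃ u, good IJ u) → good IJ (ψ IJ) := fun IJ h => by
    simp only [ψ, dif_pos h]; exact h.choose_spec
  set δ : ℝ := Γ / 4 / (G + 1) with hδ
  have hδ0 : 0 < δ := by positivity
  obtain ⟨m₁, hm₁⟩ := eventually_le_rpow hb1
    (K' * (Fintype.card ι).factorial / |L.det|) (δ := Γ / 4) (by positivity)
  obtain ⟨m₂, hm₂⟩ := eventually_le_rpow hb1 (∑ u ∈ Ψ, ∑ j, |star u j|) (δ := Γ / 2)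
    (by positivity)
  refine ⟨δ, Ψ, max (max m₁ m₂) 1, hδ0, ?_, fun m hm V j₀ hV hbox w hw hn hsmall => ?_⟩
  · intro u hu
    obtain ⟨IJ, hIJ, rfl⟩ := Finset.mem_image.mp hu
    exact (hψ IJ (Finset.mem_filter.mp hIJ).2).1
  have hm1 : m₁ ≤ m := le_trans (le_trans (le_max_left _ _) (le_max_left _ _)) hm
  have hm2 : m₂ ≤ m := le_trans (le_trans (le_max_right _ _) (le_max_left _ _)) hm
  have hm0 : (0 : ℝ) < m := by exact_mod_cast (le_trans (le_max_right _ _) hm : 1 ≤ m)
  obtain ⟨hg0, hprop⟩ := normal_prop hV hw hn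
  set u : ι → ℤ := fun i => V.adjugate j₀ i with hudef
  -- Claim A
  have claimA : ∀ i j, w i ≠ 0 → star w j ≠ 0 → c j + Γ / 2 ≤ k i := by
    intro i j hi hj
    have hui : u i ≠ 0 := by
      intro h0
      have := hprop i
      rw [show V.adjugate j₀ i = u i from rfl, h0, mul_zero] at this
      exact mul_ne_zero hV hi this.symm
    have e1 : (b : ℝ) ^ ((∑ l, (k l : ℝ)) * m) ≤ (b : ℝ) ^ ((k i : ℝ) * m) * |(u i : ℝ)| := by
      have h1 := row_dvd_det (V.updateCol j₀ (Pi.single i ((b : ℤ) ^ (k i * m))))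
        (fun l => (b : ℤ) ^ (k l * m)) (fun l j => by
          rw [Matrix.updateCol_apply]
          split_ifs with h
          · rw [Pi.single_apply]
            split_ifs with h'
            · rw [h']
            · exact dvd_zero _
          · exact (hbox j h).1 l)
      rw [det_updateCol_eq, Finset.prod_pow_eq_pow_sum] at h1
      simp only [Pi.single_apply, mul_ite, mul_zero, Finset.sum_ite_eq', Finset.mem_univ,
        if_true] at h1
      have h2 := Int.le_of_dvd (abs_pos.mpr (mul_ne_zero hui (by positivity)))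
        ((dvd_abs _ _).mpr h1)
      rw [abs_mul, abs_of_pos (a := (b : ℤ) ^ (k i * m)) (by positivity), mul_comm] at h2
      have h3 : (b : ℝ) ^ (∑ l, k l * m) ≤ (b : ℝ) ^ (k i * m) * |(u i : ℝ)| := by
        exact_mod_cast h2
      rw [← Real.rpow_natCast, ← Real.rpow_natCast] at h3
      push_cast at h3
      rwa [← Finset.sum_mul] at h3
    have e2 : (b : ℝ) ^ (c j * m) * (|L.det| * |star u j|) ≤
        (Fintype.card ι).factorial * (b : ℝ) ^ ((∑ l, c l) * m) := by
      set Vr : Matrix ι ι ℝ := V.map (Int.castRingHom ℝ) with hVr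
      have h1 := row_abs_det_le (L * Vr.updateCol j₀ fun l => M l j * (b : ℝ) ^ (c j * m))
        (fun l => (b : ℝ) ^ (c l * m)) (fun l j' => by
          rw [Matrix.mul_apply]
          by_cases h : j' = j₀
          · subst h
            simp only [Matrix.updateCol_self, ← mul_assoc, ← Finset.sum_mul]
            rw [← Matrix.mul_apply, hLM, Matrix.one_apply]
            split_ifs with h'
            · rw [h', one_mul, abs_of_pos (by positivity)]
            · rw [zero_mul, abs_zero]; positivity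
          · simp only [Matrix.updateCol_ne h]
            exact (hbox j' h).2 l)
      rw [Matrix.det_mul, det_updateCol_eq, ← Real.rpow_sum_of_pos hb0, ← Finset.sum_mul,
        abs_mul] at h1
      refine le_trans (le_of_eq ?_) h1
      have h2 : ∑ l, Vr.adjugate j₀ l * (M l j * (b : ℝ) ^ (c j * m)) =
          star u j * (b : ℝ) ^ (c j * m) := by
        simp only [star, Finset.sum_mul]
        refine Finset.sum_congr rfl fun l _ => ?_
        have : Vr.adjugate j₀ l = (u l : ℝ) := by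
          rw [hVr, ← RingHom.mapMatrix_apply, ← RingHom.map_adjugate]
          rfl
        rw [this]; ring
      rw [h2, abs_mul, abs_of_pos (a := (b : ℝ) ^ (c j * m)) (by positivity)]
      ring
    have e3 : (u i : ℝ) * star w j = star u j * w i := by
      have hg0' : ((∑ i, w i * V i j₀ : ℤ) : ℝ) ≠ 0 := by exact_mod_cast hg0
      have hp : ∀ l, ((∑ i, w i * V i j₀ : ℤ) : ℝ) * (u l : ℝ) = (V.det : ℝ) * w l := fun l => by
        exact_mod_cast hprop l
      refine mul_left_cancel₀ hg0' ?_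
      have h1 : ((∑ i, w i * V i j₀ : ℤ) : ℝ) * star u j = (V.det : ℝ) * star w j := by
        simp only [star, Finset.mul_sum]
        refine Finset.sum_congr rfl fun l _ => ?_
        linear_combination M l j * hp l
      linear_combination star w j * hp i - (w i : ℝ) * h1
    have hH1 : (1 : ℝ) ≤ (b : ℝ) ^ (δ * m) := Real.one_le_rpow hb1.le (by positivity)
    have e4 : 1 ≤ K' * ((b : ℝ) ^ (δ * m)) ^ G * |star w j| := by
      refine (hK j w _ hH1 hsmall hj).trans (mul_le_mul_of_nonneg_right ?_ (abs_nonneg _))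
      exact mul_le_mul (Finset.single_le_sum (f := K) (fun j _ => (hK0 j).le) (Finset.mem_univ j))
        (pow_le_pow_right₀ hH1 (Finset.le_sup (f := g) (Finset.mem_univ j))) (by positivity)
        (Finset.sum_nonneg fun j _ => (hK0 j).le)
    have hK'0 : 0 ≤ K' := Finset.sum_nonneg fun j _ => (hK0 j).le
    have hLd : 0 < |L.det| := abs_pos.mpr hdet
    have e5 := (hm₁ m hm1).le
    rw [div_le_iff₀ hLd] at e5
    have e6 : ((b : ℝ) ^ (δ * m)) ^ G * (b : ℝ) ^ (δ * m) = (b : ℝ) ^ (Γ / 4 * m) := by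
      rw [← pow_succ, ← Real.rpow_mul_natCast hb0.le]
      congr 1
      rw [hδ]
      push_cast
      field_simp
    have e7 : (b : ℝ) ^ ((∑ l, (k l : ℝ)) * m) * (b : ℝ) ^ (c j * m) * |L.det| ≤
        (b : ℝ) ^ ((k i : ℝ) * m) * (b : ℝ) ^ (Γ / 4 * m) * (b : ℝ) ^ (Γ / 4 * m) *
          (b : ℝ) ^ ((∑ l, c l) * m) * |L.det| := by
      calc (b : ℝ) ^ ((∑ l, (k l : ℝ)) * m) * (b : ℝ) ^ (c j * m) * |L.det|
          ≤ ((b : ℝ) ^ ((k i : ℝ) * m) * |(u i : ℝ)|) * (b : ℝ) ^ (c j * m) * |L.det| *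
            (K' * ((b : ℝ) ^ (δ * m)) ^ G * |star w j|) := by
            refine le_trans ?_ (le_mul_of_one_le_right (by positivity) e4)
            gcongr
        _ = (b : ℝ) ^ ((k i : ℝ) * m) * (K' * ((b : ℝ) ^ (δ * m)) ^ G) * |(w i : ℝ)| *
            ((b : ℝ) ^ (c j * m) * (|L.det| * |star u j|)) := by
            have : |(u i : ℝ)| * |star w j| = |star u j| * |(w i : ℝ)| := by
              rw [← abs_mul, ← abs_mul, e3]
            linear_combination ((b : ℝ) ^ ((k i : ℝ) * m) * (b : ℝ) ^ (c j * m) * |L.det| *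
              (K' * ((b : ℝ) ^ (δ * m)) ^ G)) * this
        _ ≤ (b : ℝ) ^ ((k i : ℝ) * m) * (K' * ((b : ℝ) ^ (δ * m)) ^ G) * (b : ℝ) ^ (δ * m) *
            ((Fintype.card ι).factorial * (b : ℝ) ^ ((∑ l, c l) * m)) := by
            gcongr
            exact hsmall i
        _ = (b : ℝ) ^ ((k i : ℝ) * m) * (b : ℝ) ^ (Γ / 4 * m) *
            (K' * (Fintype.card ι).factorial) * (b : ℝ) ^ ((∑ l, c l) * m) := by
            rw [← e6]; ring
        _ ≤ (b : ℝ) ^ ((k i : ℝ) * m) * (b : ℝ) ^ (Γ / 4 * m) *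
            ((b : ℝ) ^ (Γ / 4 * m) * |L.det|) * (b : ℝ) ^ ((∑ l, c l) * m) := by gcongr
        _ = _ := by ring
    have e8 := le_of_mul_le_mul_right e7 hLd
    simp only [← Real.rpow_add hb0] at e8
    have e9 := (Real.rpow_le_rpow_left_iff hb1).mp e8
    have e10 : (c j + Γ / 2) * m ≤ (k i : ℝ) * m := by rw [hΓ] at e9 ⊢; linarith
    exact le_of_mul_le_mul_right e10 hm0
  -- Claim B
  set IJ : Finset ι × Finset ι :=
    (Finset.univ.filter fun i => w i ≠ 0, Finset.univ.filter fun j => star w j ≠ 0) with hIJ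
  have hex : ∃ u, good IJ u := ⟨w, hw, fun i hi => by simp [hIJ, hi], fun j hj => by simp [hIJ, hj]⟩
  have hmem : ψ IJ ∈ Ψ := Finset.mem_image_of_mem _ (Finset.mem_filter.mpr ⟨Finset.mem_univ _, hex⟩)
  obtain ⟨-, hψ1, hψ2⟩ := hψ IJ hex
  refine ⟨ψ IJ, hmem, fun j hj => ?_⟩
  have hI : IJ.1.Nonempty := by
    obtain ⟨i, hi⟩ := Function.ne_iff.mp hw
    exact ⟨i, by simpa [hIJ] using hi⟩
  obtain ⟨i₀, hi₀, hmin⟩ := Finset.exists_min_image IJ.1 k hI
  have hwi₀ : w i₀ ≠ 0 := by simpa [hIJ] using hi₀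
  refine Int.eq_zero_of_abs_lt_dvd (m := (b : ℤ) ^ (k i₀ * m)) (Finset.dvd_sum fun i _ => ?_) ?_
  · by_cases h : ψ IJ i = 0
    · rw [h, zero_mul]; exact dvd_zero _
    · exact ((pow_dvd_pow _ (Nat.mul_le_mul_right m (hmin i (hψ1 i h)))).trans
        ((hbox j hj).1 i)).mul_left _
  · have h1 : |((∑ i, ψ IJ i * V i j : ℤ) : ℝ)| < (b : ℝ) ^ ((k i₀ : ℝ) * m) := by
      rw [hstar]
      calc |∑ l, star (ψ IJ) l * ∑ a, L l a * (V a j : ℝ)|
          ≤ ∑ l, |star (ψ IJ) l| * (b : ℝ) ^ ((k i₀ - Γ / 2) * m) := by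
            refine (Finset.abs_sum_le_sum_abs _ _).trans (Finset.sum_le_sum fun l _ => ?_)
            rw [abs_mul]
            by_cases h : star (ψ IJ) l = 0
            · simp [h]
            · refine mul_le_mul_of_nonneg_left (((hbox j hj).2 l).trans ?_) (abs_nonneg _)
              refine Real.rpow_le_rpow_of_exponent_le hb1.le
                (mul_le_mul_of_nonneg_right ?_ hm0.le)
              have := claimA i₀ l hwi₀ (by simpa [hIJ] using hψ2 l h)
              linarith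
        _ ≤ (∑ u ∈ Ψ, ∑ j, |star u j|) * (b : ℝ) ^ ((k i₀ - Γ / 2) * m) := by
            rw [← Finset.sum_mul]
            exact mul_le_mul_of_nonneg_right (Finset.single_le_sum
              (f := fun u => ∑ j, |star u j|)
              (fun _ _ => Finset.sum_nonneg fun _ _ => abs_nonneg _) hmem) (by positivity)
        _ < (b : ℝ) ^ (Γ / 2 * m) * (b : ℝ) ^ ((k i₀ - Γ / 2) * m) :=
            mul_lt_mul_of_pos_right (hm₂ m hm2) (by positivity)
        _ = _ := by rw [← Real.rpow_add hb0]; congr 1; ring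
    rw [← Nat.cast_mul, Real.rpow_natCast] at h1
    exact_mod_cast h1

end Pool.Agent.Subspace
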