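import Pool.Agent.Shared.Subspace.Grid

/-!
Specialization of a multihomogeneous polynomial vanishing along hyperplanes to lines.
-/

namespace Pool.Agent.Subspace

open MvPolynomial Finsupp

theorem eval_shift_map {σ R A : Type*} [CommRing R] [CommRing A] [Algebra R A] (Y T : σ → A)
    (P : MvPolynomial σ R) :
    eval T (shift Y (map (algebraMap R A) P)) = aeval (fun p => Y p + T p) P := by
  induction P using MvPolynomial.induction_on with
  | C a => simp
  | add P Q hP hQ => rw [map_add, map_add, map_add, map_add, hP, hQ]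
  | mul_X P i hP => rw [map_mul, map_mul, map_mul, map_mul, hP]; simp

theorem idxGe_coeff_aeval {σ τ : Type*} [Fintype σ] (P : MvPolynomial σ ℤ) (w : σ → ℝ)
    (ω : τ → ℝ) (hω : ∀ h, 0 ≤ ω h) (θ : ℝ) (Y : σ → MvPolynomial σ (MvPolynomial τ ℚ))
    (t : σ → MvPolynomial τ ℚ) (ht : ∀ p, IdxGe ω (w p) (t p))
    (H : ∀ μ, weight w μ < θ → aeval Y (hasse μ P) = 0) (μ₀ : σ →₀ ℕ) :
    IdxGe ω θ (coeff μ₀ (aeval (fun p => Y p + C (t p)) P)) := by
  rw [← eval_shift_map Y fun p => C (t p), eval_eq', coeff_sum]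
  refine idxGe_sum _ fun μ hμ => ?_
  have h1 : θ ≤ weight w μ := by
    by_contra hc
    push Not at hc
    rw [MvPolynomial.mem_support_iff, coeff_shift, ← map_hasse, eval_map, ← aeval_def] at hμ
    exact hμ (H μ hc)
  simp only [← map_pow, ← map_prod]
  rw [mul_comm, coeff_C_mul]
  have h2 := (idxGe_prod Finset.univ (θ := fun p => μ p • w p) fun p _ => (ht p).pow _).mul
    (idxGe_of_nonneg hω (coeff μ₀ (coeff μ (shift Y (map (algebraMap ℤ _) P)))))
  rw [add_zero, ← weight_eq_sum] at h2
  exact h2.mono h1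

theorem hyper_spec {s : ℕ} {ι : Type*} [Fintype ι] [DecidableEq ι]
    (P : MvPolynomial (Fin s × ι) ℤ) (hP : P ≠ 0) (d : Fin s → ℕ)
    (hhom : ∀ ν ∈ P.support, ∀ h, ∑ i, ν (h, i) = d h) (ρ : Fin s → ι → ℚ) (a b : Fin s → ι)
    (hab : ∀ h, a h ≠ b h) (hρ : ∀ h, ρ h (a h) = 1) (ω : Fin s → ℝ) (hω : ∀ h, 0 ≤ ω h) (θ : ℝ)
    (H : ∀ μ, weight (fun p : Fin s × ι => ω p.1) μ < θ →
      ∀ Y : Fin s × ι → MvPolynomial (Fin s × ι) (MvPolynomial (Fin s) ℚ),
        (∀ h, ∑ i, ρ h i • Y (h, i) = 0) → aeval Y (hasse μ P) = 0) :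
    ∃ R : MvPolynomial (Fin s) ℤ, R ≠ 0 ∧ l1 R ≤ l1 P ∧ (∀ h, DegLe h (d h) R) ∧
      IdxGe ω θ (shift (fun h => -ρ h (b h)) (map (Int.castRingHom ℚ) R)) := by
  classical
  let oth : Fin s × ι → Prop := fun p => p.2 ≠ a p.1 ∧ p.2 ≠ b p.1
  let pr : (Fin s × ι →₀ ℕ) → (Fin s →₀ ℕ) := fun ν =>
    Finsupp.equivFunOnFinite.symm fun h => ν (h, a h)
  have hpr : ∀ ν h, pr ν h = ν (h, a h) := fun ν h => rfl
  obtain ⟨ν₀, hν₀, hmin⟩ := Finset.exists_minimalFor (fun ν : Fin s × ι →₀ ℕ => ν.filter oth)
    P.support (MvPolynomial.support_nonempty.mpr hP)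
  set μ₀ := ν₀.filter oth with hμ₀
  set F := P.support.filter fun ν => ν.filter oth = μ₀ with hF
  refine ⟨∑ ν ∈ F, monomial (pr ν) (coeff ν P), ?_, ?_, ?_, ?_⟩
  · intro h0
    have h1 := congrArg (coeff (pr ν₀)) h0
    rw [coeff_sum, Finset.sum_eq_single ν₀, coeff_monomial, if_pos rfl, coeff_zero] at h1
    · exact MvPolynomial.mem_support_iff.mp hν₀ h1
    · intro ν hν hne
      rw [coeff_monomial, if_neg]
      intro hp
      apply hne
      rw [hF, Finset.mem_filter] at hν
      have h2 : ∀ h i, i ≠ b h → ν (h, i) = ν₀ (h, i) := by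
        intro h i hi
        by_cases hia : i = a h
        · rw [hia, ← hpr, ← hpr, hp]
        · have h3 := DFunLike.congr_fun hν.2 (h, i)
          rwa [hμ₀, filter_apply_pos _ _ ⟨hia, hi⟩, filter_apply_pos _ _ ⟨hia, hi⟩] at h3
      refine Finsupp.ext fun ⟨h, i⟩ => ?_
      by_cases hi : i = b h
      · have h3 := (hhom ν hν.1 h).trans (hhom ν₀ hν₀ h).symm
        rw [← Finset.add_sum_erase _ _ (Finset.mem_univ (b h)),
          ← Finset.add_sum_erase _ _ (Finset.mem_univ (b h)),
          Finset.sum_congr rfl fun j hj => h2 h j (Finset.mem_erase.mp hj).1] at h3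
        rw [hi]
        omega
      · exact h2 h i hi
    · intro h
      exact absurd (by rw [hF]; exact Finset.mem_filter.mpr ⟨hν₀, rfl⟩) h
  · refine (l1_sum_le _ _).trans ?_
    simp only [l1_monomial]
    exact sum_norm_coeff_le_l1 _ _
  · intro h
    rw [degLe_iff]
    refine idxGe_sum _ fun ν hν => (degLe_iff _ _ _).mp fun κ hκ => ?_
    have h1 := support_monomial_subset hκ
    rw [Finset.mem_singleton] at h1
    rw [h1, hpr, ← hhom ν (Finset.mem_filter.mp hν).1 h]
    exact Finset.single_le_sum (f := fun i => ν (h, i)) (fun _ _ => Nat.zero_le _)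
      (Finset.mem_univ _)
  · let Y' : Fin s × ι → MvPolynomial (Fin s × ι) (MvPolynomial (Fin s) ℚ) := fun p =>
      if p.2 = b p.1 then 1 else X p
    let Y : Fin s × ι → MvPolynomial (Fin s × ι) (MvPolynomial (Fin s) ℚ) := fun p =>
      if p.2 = a p.1 then -∑ i ∈ Finset.univ.erase (a p.1), ρ p.1 i • Y' (p.1, i) else Y' p
    let t : Fin s × ι → MvPolynomial (Fin s) ℚ := fun p => if p.2 = a p.1 then X p.1 else 0
    have hY : ∀ h, ∑ i, ρ h i • Y (h, i) = 0 := by
      intro h
      rw [← Finset.add_sum_erase _ _ (Finset.mem_univ (a h)), hρ, one_smul]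
      have : ∑ i ∈ Finset.univ.erase (a h), ρ h i • Y (h, i) =
          ∑ i ∈ Finset.univ.erase (a h), ρ h i • Y' (h, i) :=
        Finset.sum_congr rfl fun i hi => by simp only [Y, if_neg (Finset.mem_erase.mp hi).1]
      rw [this]
      simp [Y]
    have key := idxGe_coeff_aeval P (fun p => ω p.1) ω hω θ Y t (fun p => by
      simp only [t]
      split_ifs
      exacts [idxGe_X _ _, idxGe_zero _ _]) (fun μ hμ => H μ hμ Y hY) μ₀
    convert key using 1
    conv_rhs => rw [P.as_sum]
    rw [map_sum, map_sum, map_sum, coeff_sum, hF, Finset.sum_filter]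
    refine Finset.sum_congr rfl fun ν hν => ?_
    have hsplit : (aeval (fun p => Y p + C (t p)) (monomial ν (coeff ν P)) :
        MvPolynomial (Fin s × ι) (MvPolynomial (Fin s) ℚ)) = monomial (ν.filter oth) 1 *
          (algebraMap ℤ _ (coeff ν P) *
            ∏ p ∈ Finset.univ.filter (fun p => ¬ oth p), (Y p + C (t p)) ^ ν p) := by
      rw [aeval_monomial, Finsupp.prod_fintype _ _ (by simp),
        ← Finset.prod_filter_mul_prod_filter_not Finset.univ oth]
      have : ∏ p ∈ Finset.univ.filter oth, (Y p + C (t p)) ^ ν p = monomial (ν.filter oth) 1 := by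
        rw [monomial_eq, Finsupp.prod_fintype _ _ (by simp), C_1, one_mul, Finset.prod_filter]
        refine Finset.prod_congr rfl fun p _ => ?_
        split_ifs with hp
        · rw [filter_apply_pos oth ν hp]
          simp [Y, Y', t, hp.1, hp.2]
        · rw [filter_apply_neg oth ν hp, pow_zero]
      rw [this]
      ring
    rw [hsplit, coeff_monomial_mul']
    by_cases hle : ν.filter oth ≤ μ₀
    · have heq : ν.filter oth = μ₀ := le_antisymm hle (hmin hν hle)
      rw [if_pos heq, if_pos hle, heq, tsub_self, one_mul, ← constantCoeff_eq, map_mul, map_prod,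
        map_monomial, shift, aeval_monomial, Finsupp.prod_fintype _ _ (by simp)]
      congr 1
      · simp
      · rw [Finset.prod_filter, Fintype.prod_prod_type]
        refine Finset.prod_congr rfl fun h _ => ?_
        rw [Finset.prod_eq_single (a h)]
        · rw [if_pos (by simp [oth]), hpr, map_pow]
          congr 1
          simp only [Y, t, if_true, map_add, map_neg, map_sum, constantCoeff_C]
          congr 1
          rw [Finset.sum_eq_single (b h)]
          · simp [Y', smul_eq_C_mul]
          · intro i _ hi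
            simp [Y', hi]
          · intro hb
            exact absurd (Finset.mem_erase.mpr ⟨(hab h).symm, Finset.mem_univ _⟩) hb
        · intro i _ hi
          split_ifs with ho
          · rfl
          · have hib : i = b h := by
              by_contra hc
              exact ho ⟨hi, hc⟩
            simp [Y, Y', t, hib, (hab h).symm]
        · simp
    · rw [if_neg hle, if_neg fun h => hle (le_of_eq h)]

end Pool.Agent.Subspace
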