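import Pool.Agent.Shared.Subspace.Grid

/-!
Vanishing of the auxiliary polynomial at the points of the boxes.
-/

namespace Pool.Agent.Subspace

open MvPolynomial Finsupp

theorem aeval_shift {σ R A : Type*} [CommRing R] [CommRing A] [Algebra R A] (y : σ → A)
    (z : σ → R) (P : MvPolynomial σ R) :
    aeval y (shift z P) = aeval (fun p => algebraMap R A (z p) + y p) P := by
  induction P using MvPolynomial.induction_on with
  | C a => simp
  | add P Q hP hQ => rw [map_add, map_add, map_add, hP, hQ]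
  | mul_X P i hP => rw [map_mul, map_mul, map_mul, hP]; simp

theorem badic_lower {σ : Type*} [Fintype σ] (b : ℕ) (e f : σ → ℕ) (hef : ∀ p, e p ≤ f p)
    (P : MvPolynomial σ ℤ) (A : ℕ) (hA : ∀ ν ∈ P.support, A ≤ ∑ p, e p * ν p) (z : σ → ℤ)
    (hz : ∀ p, (b : ℤ) ^ e p ∣ z p) (μ : σ →₀ ℕ) :
    (b : ℤ) ^ A ∣ (b : ℤ) ^ (∑ p, f p * μ p) * coeff μ (shift z P) := by
  have h1 := coeff_scale (fun p => (b : ℤ) ^ f p) μ (shift z P)
  simp only [← pow_mul, Finset.prod_pow_eq_pow_sum] at h1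
  rw [← h1, aeval_shift]
  refine (C_dvd_iff_dvd_coeff _ _).mp ?_ μ
  rw [aeval_def, eval₂_eq']
  refine Finset.dvd_sum fun ν hν => Dvd.dvd.mul_left ?_ _
  refine (map_dvd C (pow_dvd_pow (b : ℤ) (hA ν hν))).trans ?_
  rw [← Finset.prod_pow_eq_pow_sum, map_prod]
  refine Finset.prod_dvd_prod_of_dvd _ _ fun p _ => ?_
  rw [pow_mul, map_pow]
  refine pow_dvd_pow_of_dvd (dvd_add ?_ (Dvd.dvd.mul_right ?_ _)) _
  · exact map_dvd C (hz p)
  · exact map_dvd C (pow_dvd_pow _ (hef p))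

theorem linSub_eq {τ ι : Type*} [Fintype ι] (M : Matrix ι ι ℝ) (P : MvPolynomial (τ × ι) ℤ) :
    linSub M P = eval₂ (C.comp (Int.castRingHom ℝ))
      (fun p : τ × ι => ∑ j, C (M p.2 j) * X (p.1, j)) P := by
  rw [linSub, aeval_def]
  congr 1

theorem arch_upper {s : ℕ} {ι : Type*} [Fintype ι] [DecidableEq ι] {b : ℝ} (hb : 1 ≤ b)
    (c : ι → ℝ) (L M : Matrix ι ι ℝ) (hML : M * L = 1) (m : Fin s → ℕ)
    (P : MvPolynomial (Fin s × ι) ℤ) (E : ℕ) (hE : ∀ ν ∈ P.support, ∑ p, ν p ≤ E) (A : ℝ)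
    (h2 : ∀ ν ∈ (linSub M P).support, ∑ h, ∑ i, (m h : ℝ) * c i * ν (h, i) ≤ A)
    (c' : ℝ) (hc' : ∀ i, -c' ≤ c i) (N : ℝ) (hN : 1 ≤ N) (z : Fin s × ι → ℤ)
    (hz : ∀ h i, |∑ j, L i j * (z (h, j) : ℝ)| ≤ N * b ^ (c i * m h)) (μ : Fin s × ι →₀ ℕ) :
    |((coeff μ (shift z P) : ℤ) : ℝ)| ≤ b ^ (c' * ∑ p, (m p.1 : ℝ) * μ p) *
      (l1 P * ((1 + ∑ i, ∑ j, |M i j|) * (N + ∑ i, ∑ j, |L i j|)) ^ E * b ^ A) := by
  have hb0 : 0 < b := lt_of_lt_of_le one_pos hb
  set CM := ∑ i, ∑ j, |M i j| with hCM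
  set CL := ∑ i, ∑ j, |L i j| with hCL
  have hrow : ∀ (B : Matrix ι ι ℝ) i, ∑ j, |B i j| ≤ ∑ i, ∑ j, |B i j| := fun B i =>
    Finset.single_le_sum (f := fun i => ∑ j, |B i j|)
      (fun _ _ => Finset.sum_nonneg fun _ _ => abs_nonneg _) (Finset.mem_univ i)
  have hCM0 : 0 ≤ CM := Finset.sum_nonneg fun _ _ => Finset.sum_nonneg fun _ _ => abs_nonneg _
  have hCL0 : 0 ≤ CL := Finset.sum_nonneg fun _ _ => Finset.sum_nonneg fun _ _ => abs_nonneg _
  set r : Fin s → ℝ := fun h => b ^ (-c' * m h) with hr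
  have hr0 : ∀ h, 0 < r h := fun h => Real.rpow_pos_of_pos hb0 _
  have hlin : ∀ (B : Matrix ι ι ℝ) (u : ℝ) (h : Fin s) (i : ι), 0 ≤ u →
      l1 (∑ j, C (B i j * u) * X (h, j) : MvPolynomial (Fin s × ι) ℝ) ≤ (∑ j, |B i j|) * u := by
    intro B u h i hu
    refine (l1_sum_le _ _).trans ?_
    rw [Finset.sum_mul]
    refine Finset.sum_le_sum fun j _ => (l1_mul_le _ _).trans ?_
    rw [l1_C, l1_X, mul_one, Real.norm_eq_abs, abs_mul, abs_of_nonneg hu]
  have hP1 : l1 (linSub M P) ≤ l1 P * (1 + CM) ^ E := by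
    rw [linSub_eq]
    refine l1_eval₂_le _ (fun a => by simp [Int.norm_eq_abs]) _ _ fun ν hν => ?_
    calc ∏ p ∈ ν.support, l1 (∑ j, C (M p.2 j) * X (p.1, j) : MvPolynomial (Fin s × ι) ℝ) ^ ν p
        ≤ ∏ p ∈ ν.support, (1 + CM) ^ ν p := by
          refine Finset.prod_le_prod (fun _ _ => pow_nonneg (l1_nonneg _) _) fun p _ =>
            pow_le_pow_left₀ (l1_nonneg _) ?_ _
          have := hlin M 1 p.1 p.2 zero_le_one
          simp only [mul_one] at this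
          linarith [hrow M p.2]
      _ ≤ (1 + CM) ^ E := by
          rw [Finset.prod_pow_eq_pow_sum]
          exact pow_le_pow_right₀ (by linarith)
            ((Finset.sum_le_sum_of_subset (Finset.subset_univ _)).trans (hE ν hν))
  have hdeg : ∀ ν ∈ (linSub M P).support, ∑ p, ν p ≤ E := by
    have h1 : IdxGe (fun _ => (-1 : ℝ)) (-E) P := by
      intro ν hν
      rw [weight_eq_sum]
      have : ((∑ p, ν p : ℕ) : ℝ) ≤ E := by exact_mod_cast hE ν hν
      push_cast at this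
      simpa using this
    have h3 : IdxGe (fun _ => (-1 : ℝ)) (-E) (linSub M P) := by
      rw [linSub_eq]
      exact h1.eval₂ _ fun p => idxGe_sum _ fun j _ => (idxGe_X _ _).C_mul _
    intro ν hν
    have := h3 ν hν
    rw [weight_eq_sum] at this
    have h4 : ((∑ p, ν p : ℕ) : ℝ) ≤ E := by
      push_cast
      simpa using this
    exact_mod_cast h4
  let g : Fin s × ι → MvPolynomial (Fin s × ι) ℝ := fun p =>
    C (∑ j, L p.2 j * (z (p.1, j) : ℝ)) + ∑ j, C (L p.2 j * r p.1) * X (p.1, j)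
  have hid : aeval g (linSub M P) = aeval (fun p => C (r p.1) * X p)
      (shift (fun p => (z p : ℝ)) (map (Int.castRingHom ℝ) P)) := by
    have hX : ∀ p : Fin s × ι, ∑ j, C (M p.2 j) * g (p.1, j) = C (z p : ℝ) + C (r p.1) * X p := by
      rintro ⟨h, i⟩
      have hδ : ∀ l, ∑ j, M i j * L j l = if i = l then 1 else 0 := fun l => by
        rw [← Matrix.mul_apply, hML, Matrix.one_apply]
      simp only [g, mul_add, Finset.sum_add_distrib]
      congr 1
      · simp only [← map_mul, ← map_sum, Finset.mul_sum]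
        congr 1
        rw [Finset.sum_comm]
        simp only [← mul_assoc, ← Finset.sum_mul, hδ]
        simp
      · simp only [Finset.mul_sum, ← mul_assoc, ← map_mul]
        rw [Finset.sum_comm]
        simp only [← Finset.sum_mul, ← map_sum, hδ]
        simp [ite_mul, apply_ite C]
    rw [linSub]
    clear hE h2 hP1 hdeg
    induction P using MvPolynomial.induction_on with
    | C a => simp
    | add P Q hP hQ => simp only [map_add, hP, hQ]
    | mul_X P p hP =>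
      simp only [map_mul, hP, aeval_X, map_X, shift_X, map_add, map_sum, aeval_C, algebraMap_eq, hX]
  have hF : l1 (aeval g (linSub M P) : MvPolynomial (Fin s × ι) ℝ) ≤
      l1 (linSub M P) * ((N + CL) ^ E * b ^ A) := by
    rw [aeval_def, algebraMap_eq, ← RingHom.comp_id C]
    refine l1_eval₂_le (RingHom.id ℝ) (fun a => le_rfl) _ _ fun ν hν => ?_
    calc ∏ p ∈ ν.support, l1 (g p) ^ ν p
        ≤ ∏ p ∈ ν.support, ((N + CL) * b ^ (c p.2 * m p.1)) ^ ν p := by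
          refine Finset.prod_le_prod (fun _ _ => pow_nonneg (l1_nonneg _) _) fun p _ =>
            pow_le_pow_left₀ (l1_nonneg _) ?_ _
          refine (l1_add_le _ _).trans ?_
          rw [l1_C, Real.norm_eq_abs, add_mul]
          refine add_le_add (hz _ _) ((hlin L _ _ _ (hr0 _).le).trans ?_)
          refine mul_le_mul (hrow L _) ?_ (hr0 _).le hCL0
          exact Real.rpow_le_rpow_of_exponent_le hb
            (mul_le_mul_of_nonneg_right (hc' _) (by positivity))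
      _ = ∏ p, ((N + CL) * b ^ (c p.2 * m p.1)) ^ ν p := by
          refine Finset.prod_subset (Finset.subset_univ _) fun p _ hp => ?_
          rw [Finsupp.notMem_support_iff.mp hp, pow_zero]
      _ = (N + CL) ^ (∑ p, ν p) * b ^ (∑ h, ∑ i, (m h : ℝ) * c i * ν (h, i)) := by
          simp only [mul_pow]
          rw [Finset.prod_mul_distrib, Finset.prod_pow_eq_pow_sum, ← Fintype.sum_prod_type',
            Real.rpow_sum_of_pos hb0]
          congr 1
          refine Finset.prod_congr rfl fun p _ => ?_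
          rw [← Real.rpow_mul_natCast hb0.le]
          congr 1
          ring
      _ ≤ _ := mul_le_mul (pow_le_pow_right₀ (by linarith) (hdeg ν hν))
          (Real.rpow_le_rpow_of_exponent_le hb (h2 ν hν)) (by positivity) (by positivity)
  have h5 := (norm_coeff_le_l1 _ μ).trans hF
  rw [hid, coeff_scale, show (fun p => (z p : ℝ)) = fun p => Int.castRingHom ℝ (z p) from rfl,
    ← map_shift, coeff_map, Real.norm_eq_abs, abs_mul] at h5
  have h6 : ∏ p : Fin s × ι, r p.1 ^ μ p = b ^ (-(c' * ∑ p, (m p.1 : ℝ) * μ p)) := by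
    rw [Finset.mul_sum, ← Finset.sum_neg_distrib, Real.rpow_sum_of_pos hb0]
    refine Finset.prod_congr rfl fun p _ => ?_
    rw [hr, ← Real.rpow_mul_natCast hb0.le]
    congr 1
    ring
  rw [h6, Real.rpow_neg hb0.le, abs_of_pos (by positivity), inv_mul_le_iff₀ (by positivity)] at h5
  refine h5.trans (mul_le_mul_of_nonneg_left ?_ (by positivity))
  rw [mul_pow]
  calc l1 (linSub M P) * ((N + CL) ^ E * b ^ A) ≤ l1 P * (1 + CM) ^ E * ((N + CL) ^ E * b ^ A) :=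
        mul_le_mul_of_nonneg_right hP1 (by positivity)
    _ = _ := by ring

theorem coeff_shift_eq_zero {s : ℕ} {ι : Type*} [Fintype ι] [DecidableEq ι] {b : ℕ} (hb : 2 ≤ b)
    (k : ι → ℕ) (c : ι → ℝ) (L M : Matrix ι ι ℝ) (hML : M * L = 1) (m : Fin s → ℕ)
    (P : MvPolynomial (Fin s × ι) ℤ) (E : ℕ) (hE : ∀ ν ∈ P.support, ∑ p, ν p ≤ E) (A₁ A₂ A₃ : ℝ)
    (h1 : ∀ ν ∈ P.support, A₁ ≤ ∑ h, ∑ i, (m h : ℝ) * k i * ν (h, i))
    (h2 : ∀ ν ∈ (linSub M P).support, ∑ h, ∑ i, (m h : ℝ) * c i * ν (h, i) ≤ A₂)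
    (K : ℕ) (hK : ∀ i, k i ≤ K) (c' : ℝ) (hc' : ∀ i, -c' ≤ c i) (N : ℝ) (hN : 1 ≤ N)
    (z : Fin s × ι → ℤ) (hz1 : ∀ p, (b : ℤ) ^ (k p.2 * m p.1) ∣ z p)
    (hz2 : ∀ h i, |∑ j, L i j * (z (h, j) : ℝ)| ≤ N * (b : ℝ) ^ (c i * m h))
    (h3 : l1 P * ((1 + ∑ i, ∑ j, |M i j|) * (N + ∑ i, ∑ j, |L i j|)) ^ E ≤ (b : ℝ) ^ A₃)
    (μ : Fin s × ι →₀ ℕ) (hμ : (K + c') * ∑ p, (m p.1 : ℝ) * μ p + A₂ + A₃ < A₁) :
    coeff μ (shift z P) = 0 := by
  by_contra hne
  have hb1 : (1 : ℝ) < b := by exact_mod_cast hb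
  have hb0 : (0 : ℝ) < b := by linarith
  have e1 := badic_lower b (fun p => k p.2 * m p.1) (fun p => K * m p.1)
    (fun p => Nat.mul_le_mul_right _ (hK _)) P ⌈A₁⌉₊ (fun ν hν => by
      rw [Nat.ceil_le]
      refine (h1 ν hν).trans (le_of_eq ?_)
      rw [← Fintype.sum_prod_type']
      push_cast
      exact Finset.sum_congr rfl fun p _ => by ring) z hz1 μ
  have e2 := Int.le_of_dvd (abs_pos.mpr (mul_ne_zero (by positivity) hne)) ((dvd_abs _ _).mpr e1)
  have e3 : (b : ℝ) ^ ⌈A₁⌉₊ ≤ (b : ℝ) ^ (∑ p, K * m p.1 * μ p) *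
      |((coeff μ (shift z P) : ℤ) : ℝ)| := by
    rw [abs_mul, abs_of_pos (by positivity)] at e2
    exact_mod_cast e2
  have e4 := arch_upper hb1.le c L M hML m P E hE A₂ h2 c' hc' N hN z hz2 μ
  have e5 : (b : ℝ) ^ A₁ ≤ (b : ℝ) ^ ((K + c') * ∑ p, (m p.1 : ℝ) * μ p + A₂ + A₃) := by
    calc (b : ℝ) ^ A₁ ≤ (b : ℝ) ^ ⌈A₁⌉₊ := by
          rw [← Real.rpow_natCast]
          exact Real.rpow_le_rpow_of_exponent_le hb1.le (Nat.le_ceil _)
      _ ≤ (b : ℝ) ^ (∑ p, K * m p.1 * μ p) * ((b : ℝ) ^ (c' * ∑ p, (m p.1 : ℝ) * μ p) *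
          ((b : ℝ) ^ A₃ * (b : ℝ) ^ A₂)) := by
          refine e3.trans (mul_le_mul_of_nonneg_left (e4.trans ?_) (by positivity))
          gcongr
      _ = _ := by
          rw [← Real.rpow_natCast, ← Real.rpow_add hb0, ← Real.rpow_add hb0, ← Real.rpow_add hb0]
          congr 1
          push_cast
          simp only [mul_assoc]
          rw [← Finset.mul_sum]
          ring
  exact absurd ((Real.rpow_le_rpow_left_iff hb1).mp e5) (not_le.mpr hμ)

end Pool.Agent.Subspace
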