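import Pool.Agent.Shared.Subspace.Roth
import Pool.Agent.Shared.Subspace.Hyper
import Pool.Agent.Shared.Subspace.Vanish
import Pool.Agent.Shared.Subspace.Dichotomy

/-!
Lemmas for the Roth machinery: lacunary sequences, heights of pairs, the grid step.
-/

namespace Pool.Agent.Subspace

open MvPolynomial Finsupp

theorem exists_lacunary {S : ℕ → Prop} (hS : ∀ m₁, ∃ m, m₁ ≤ m ∧ S m) {σ : ℝ} (hσ : 0 < σ)
    (M₀ s : ℕ) : ∃ m : Fin s → ℕ, (∀ h, S (m h) ∧ M₀ ≤ m h) ∧
      ∀ h h', h < h' → (m h' : ℝ) ≤ σ * m h := by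
  induction s with
  | zero => exact ⟨fun h => h.elim0, fun h => h.elim0, fun h => h.elim0⟩
  | succ s ih =>
    obtain ⟨m, h1, h2⟩ := ih
    obtain ⟨m', hm', hS'⟩ := hS (max M₀ ⌈(∑ h, (m h : ℝ)) / σ⌉₊)
    refine ⟨Fin.cons m' m, fun h => Fin.cases ⟨hS', le_trans (le_max_left _ _) hm'⟩ h1 h, ?_⟩
    intro h h'
    refine Fin.cases (fun hh => absurd hh (Fin.not_lt_zero _)) (fun j' => ?_) h'
    refine Fin.cases (fun _ => ?_) (fun j hh => ?_) h
    · simp only [Fin.cons_succ, Fin.cons_zero]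
      have h3 : (∑ h, (m h : ℝ)) / σ ≤ m' := Nat.ceil_le.mp (le_trans (le_max_right _ _) hm')
      rw [div_le_iff₀ hσ] at h3
      have h4 : (m j' : ℝ) ≤ ∑ h, (m h : ℝ) :=
        Finset.single_le_sum (f := fun h => (m h : ℝ)) (fun _ _ => by positivity)
          (Finset.mem_univ _)
      linarith
    · simpa using h2 j j' (Fin.succ_lt_succ_iff.mp hh)

variable {ι : Type*} [Fintype ι] [DecidableEq ι]

theorem pair_height (ρ : ι → ℚ) (a : ι) (hρa : ρ a = 1) (hρ : ∀ i, |ρ i| ≤ 1) {B : ℝ}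
    (hB : 1 < B) (H : ∀ (w : ι → ℤ) (Q : ℚ), Q ≠ 0 → (∀ i, (w i : ℚ) = Q * ρ i) →
      ∃ i, B ^ Fintype.card ι < |(w i : ℝ)|) : ∃ b, a ≠ b ∧ B ≤ (ρ b).den := by
  by_contra hc
  push Not at hc
  set Q : ℕ := ∏ i, (ρ i).den with hQ
  have hQ0 : 0 < Q := Finset.prod_pos fun i _ => (ρ i).den_pos
  have hint : ∀ i, ∃ z : ℤ, (z : ℚ) = Q * ρ i := by
    intro i
    obtain ⟨t, ht⟩ : (ρ i).den ∣ Q := Finset.dvd_prod_of_mem _ (Finset.mem_univ i)
    refine ⟨t * (ρ i).num, ?_⟩
    rw [ht]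
    push_cast
    rw [← Rat.mul_den_eq_num]
    ring
  choose w hw using hint
  obtain ⟨i, hi⟩ := H w Q (by exact_mod_cast hQ0.ne') hw
  have h1 : |(w i : ℚ)| ≤ Q := by
    rw [hw, abs_mul, abs_of_nonneg (by positivity)]
    exact mul_le_of_le_one_right (by positivity) (hρ i)
  have h2 : |(w i : ℝ)| ≤ Q := by exact_mod_cast h1
  have h3 : (Q : ℝ) ≤ B ^ Fintype.card ι := by
    rw [hQ, ← Finset.card_univ, ← Finset.prod_const]
    push_cast
    refine Finset.prod_le_prod (fun _ _ => by positivity) fun j _ => ?_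
    by_cases h : a = j
    · rw [← h, hρa]; simpa using hB.le
    · exact (hc j h).le
  linarith

theorem exists_coords {A : Type*} [CommRing A] [Algebra ℚ A] {V : Matrix ι ι ℤ} (hV : V.det ≠ 0)
    {j₀ : ι} {ρ : ι → ℚ} (hρ : ρ ≠ 0) (hn : ∀ j, j ≠ j₀ → ∑ i, ρ i * V i j = 0) (Y : ι → A)
    (hY : ∑ i, ρ i • Y i = 0) :
    ∃ α : ι → A, ∀ i, Y i = ∑ l, ((if l = j₀ then 0 else V i l : ℤ) : A) * α l := by
  set Vq : Matrix ι ι ℚ := V.map (Int.castRingHom ℚ) with hVq
  have hdet : Vq.det ≠ 0 := by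
    rw [hVq, ← RingHom.mapMatrix_apply, ← RingHom.map_det]
    simpa using hV
  have hinv : Vq * Vq⁻¹ = 1 := Matrix.mul_nonsing_inv _ (Ne.isUnit hdet)
  set α : ι → A := fun l => ∑ i, Vq⁻¹ l i • Y i with hα
  have h1 : ∀ i, Y i = ∑ l, (V i l : ℚ) • α l := by
    intro i
    simp only [hα, Finset.smul_sum, smul_smul]
    rw [Finset.sum_comm]
    simp only [← Finset.sum_smul]
    have : ∀ j, ∑ l, (V i l : ℚ) * Vq⁻¹ l j = if i = j then 1 else 0 := fun j => by
      rw [← Matrix.one_apply, ← hinv, Matrix.mul_apply]; rfl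
    simp [this]
  have hg : ∑ i, ρ i * V i j₀ ≠ 0 := by
    intro h0
    apply hρ
    refine Matrix.eq_zero_of_vecMul_eq_zero hdet (funext fun j => ?_)
    by_cases h : j = j₀
    · rw [h]; exact h0
    · exact hn j h
  have h2 : α j₀ = 0 := by
    have h3 : ∑ i, ρ i • Y i = ∑ l, (∑ i, ρ i * V i l) • α l := by
      conv_lhs => enter [2, i]; rw [h1 i]
      simp only [Finset.smul_sum, smul_smul, Finset.sum_smul]
      exact Finset.sum_comm
    rw [hY, Finset.sum_eq_single j₀ (fun l _ hl => by rw [hn l hl, zero_smul]) (by simp)] at h3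
    have := congrArg (fun y => (∑ i, ρ i * V i j₀)⁻¹ • y) h3
    simpa [smul_smul, inv_mul_cancel₀ hg] using this.symm
  refine ⟨α, fun i => (h1 i).trans (Finset.sum_congr rfl fun l _ => ?_)⟩
  split_ifs with h
  · rw [h, h2]; simp
  · rw [Int.cast_smul_eq_zsmul, zsmul_eq_mul]

/-- The grid step. -/
theorem grid_step {s : ℕ} (P : MvPolynomial (Fin s × ι) ℤ) (d : Fin s → ℕ) (hd : ∀ h, 0 < d h)
    (hhom : ∀ ν ∈ P.support, ∀ h, ∑ i, ν (h, i) = d h) (U : Fin s → ι → ι → ℤ) {N : ℕ}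
    (hN : 0 < N) {θ : ℝ} (hθ : (s : ℝ) * Fintype.card ι / N ≤ θ / 2)
    (H : ∀ a : Fin s × ι → ℕ, (∀ p, a p < N) → IdxGe (fun p => 1 / (d p.1 : ℝ)) θ
      (shift (fun p : Fin s × ι => ∑ l, U p.1 p.2 l * a (p.1, l)) P))
    (μ : Fin s × ι →₀ ℕ) (hμ : weight (fun p : Fin s × ι => 1 / (d p.1 : ℝ)) μ < θ / 2)
    {A : Type*} [CommRing A] [Algebra ℤ A] (α : Fin s × ι → A) :
    aeval (fun p : Fin s × ι => ∑ l, (U p.1 p.2 l : A) * α (p.1, l)) (hasse μ P) = 0 := by
  let y : Fin s × ι → MvPolynomial (Fin s × ι) ℤ := fun p => ∑ l, C (U p.1 p.2 l) * X (p.1, l)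
  have hQ : aeval y (hasse μ P) = 0 := by
    by_contra hne
    obtain ⟨a, ha, κ, hκ, hκe⟩ := grid hN _ hne (fun p => d p.1) (fun p => by
      rw [degLe_iff]
      have h1 : IdxGe (fun q : Fin s × ι => if q.1 = p.1 then (-1 : ℝ) else 0) (-(d p.1 : ℝ))
          (hasse μ P) := by
        intro ν hν
        have h2 := hhom _ (mem_support_hasse hν) p.1
        rw [weight_eq_sum, Fintype.sum_prod_type, Finset.sum_eq_single p.1]
        · have h3 : ∑ i, ν (p.1, i) ≤ d p.1 := by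
            rw [← h2]
            exact Finset.sum_le_sum fun i _ => by simp
          have h4 : ((∑ i, ν (p.1, i) : ℕ) : ℝ) ≤ d p.1 := by exact_mod_cast h3
          push_cast at h4
          simpa using h4
        · intro h _ hh
          simp [hh]
        · simp
      refine h1.aeval fun q => idxGe_sum _ fun l _ => ((idxGe_X _ _).mono ?_).C_mul _
      rw [Pi.single_apply]
      by_cases h : (q.1, l) = p
      · simp [← h]
      · rw [if_neg h]
        split_ifs <;> norm_num)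
    have h1 : shift (fun p => (a p : ℤ)) (aeval y (hasse μ P)) =
        aeval y (hasse μ (shift (fun p : Fin s × ι => ∑ l, U p.1 p.2 l * a (p.1, l)) P)) := by
      rw [hasse_shift, aeval_shift]
      generalize hasse μ P = Q
      induction Q using MvPolynomial.induction_on with
      | C a => simp
      | add P Q hP hQ => simp only [map_add, hP, hQ]
      | mul_X P p hP =>
        simp only [map_mul, hP, aeval_X]
        congr 1
        simp only [y, map_sum, map_mul, shift_X, mul_add, Finset.sum_add_distrib, algebraMap_eq]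
        simp [shift]
    rw [h1] at hκ
    have h2 := ((H a ha).hasse μ).aeval (w' := fun p : Fin s × ι => 1 / (d p.1 : ℝ)) (f := y)
      (fun q => idxGe_sum _ fun l _ => (idxGe_X _ (q.1, l)).C_mul _) κ hκ
    have h3 : weight (fun p : Fin s × ι => 1 / (d p.1 : ℝ)) κ ≤ s * Fintype.card ι / N := by
      rw [weight_eq_sum]
      have hN' : (0 : ℝ) < N := by exact_mod_cast hN
      calc ∑ p, κ p • (1 / (d p.1 : ℝ)) ≤ ∑ _p : Fin s × ι, 1 / (N : ℝ) := by
            refine Finset.sum_le_sum fun p _ => ?_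
            have h4 : (N : ℝ) * κ p ≤ d p.1 := by exact_mod_cast hκe p
            have h5 : (0 : ℝ) < d p.1 := by exact_mod_cast hd p.1
            rw [nsmul_eq_mul, mul_one_div, div_le_div_iff₀ h5 hN']
            linarith
        _ = _ := by simp [div_eq_mul_inv]
    linarith
  have h4 : ∀ Q : MvPolynomial (Fin s × ι) ℤ,
      aeval (fun p : Fin s × ι => ∑ l, (U p.1 p.2 l : A) * α (p.1, l)) Q = aeval α (aeval y Q) := by
    intro Q
    induction Q using MvPolynomial.induction_on with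
    | C a => simp
    | add P Q hP hQ => simp only [map_add, hP, hQ]
    | mul_X P p hP =>
      simp only [map_mul, hP, aeval_X]
      congr 1
      simp [y]
  rw [h4, hQ, map_zero]

end Pool.Agent.Subspace
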