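import Pool.Agent.Shared.Subspace.Reduce

/-!
Compound matrices (for part H2b of the Subspace Theorem).
-/

namespace Pool.Agent.Subspace

open Matrix

/-- Subsets of `Fin n` with `q` elements. -/
abbrev Sub (n q : ℕ) := {S : Finset (Fin n) // S.card = q}

/-- The increasing enumeration of a `q`-subset. -/
abbrev Sub.emb {n q : ℕ} (S : Sub n q) : Fin q → Fin n := S.1.orderEmbOfFin S.2

theorem Sub.emb_mem {n q : ℕ} (S : Sub n q) (a : Fin q) : S.emb a ∈ S.1 :=
  Finset.orderEmbOfFin_mem _ _ _

theorem Sub.emb_inj {n q : ℕ} (S : Sub n q) : Function.Injective S.emb :=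
  (S.1.orderEmbOfFin S.2).injective

theorem Sub.exists_emb {n q : ℕ} (S : Sub n q) {i : Fin n} (hi : i ∈ S.1) : ∃ a, S.emb a = i := by
  have h := Finset.range_orderEmbOfFin S.1 S.2
  have : i ∈ Set.range (S.1.orderEmbOfFin S.2) := by rw [h]; exact hi
  exact this

theorem Sub.prod_emb {M : Type*} [CommMonoid M] {n q : ℕ} (S : Sub n q) (f : Fin n → M) :
    ∏ a, f (S.emb a) = ∏ i ∈ S.1, f i := by
  refine Finset.prod_bij (fun a _ => S.emb a) (fun a _ => S.emb_mem a)
    (fun a _ a' _ h => S.emb_inj h) (fun i hi => ?_) (fun _ _ => rfl)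
  obtain ⟨a, ha⟩ := S.exists_emb hi
  exact ⟨a, Finset.mem_univ _, ha⟩

theorem Sub.exists_not_mem {n q : ℕ} {S T : Sub n q} (h : S ≠ T) : ∃ a, S.emb a ∉ T.1 := by
  by_contra hc
  push Not at hc
  apply h
  apply Subtype.ext
  refine Finset.eq_of_subset_of_card_le (fun i hi => ?_) (by rw [S.2, T.2])
  obtain ⟨a, rfl⟩ := S.exists_emb hi
  exact hc a

/-- The `q`-th compound matrix. -/
def comp {R : Type*} [CommRing R] {n : ℕ} (q : ℕ) (X : Matrix (Fin n) (Fin n) R) :
    Matrix (Sub n q) (Sub n q) R :=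
  Matrix.of fun S T => (X.submatrix S.emb T.emb).det

theorem comp_apply {R : Type*} [CommRing R] {n q : ℕ} (X : Matrix (Fin n) (Fin n) R)
    (S T : Sub n q) : comp q X S T = (X.submatrix S.emb T.emb).det := rfl

theorem comp_mul {R : Type*} [CommRing R] {n q : ℕ} (X Y : Matrix (Fin n) (Fin n) R) :
    comp q (X * Y) = comp q X * comp q Y := by
  ext S T
  rw [comp_apply, Matrix.mul_apply]
  have : (X * Y).submatrix S.emb T.emb = X.submatrix S.emb id * Y.submatrix id T.emb := by
    ext a a'; simp [Matrix.mul_apply]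
  rw [this, cauchy_binet]
  rfl

theorem comp_one {R : Type*} [CommRing R] {n q : ℕ} :
    comp q (1 : Matrix (Fin n) (Fin n) R) = 1 := by
  ext S T
  rw [comp_apply]
  by_cases h : S = T
  · subst h
    rw [Matrix.submatrix_one _ S.emb_inj]
    simp
  · rw [Matrix.one_apply_ne h]
    obtain ⟨a, ha⟩ := Sub.exists_not_mem h
    refine Matrix.det_eq_zero_of_row_eq_zero a fun a' => ?_
    rw [Matrix.submatrix_apply, Matrix.one_apply_ne]
    intro h'
    exact ha (h' ▸ T.emb_mem a')

theorem comp_det_ne_zero {R : Type*} [Field R] {n q : ℕ} {X : Matrix (Fin n) (Fin n) R}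
    (h : X.det ≠ 0) : (comp q X).det ≠ 0 := by
  have h1 : X * X⁻¹ = 1 := Matrix.mul_nonsing_inv _ (isUnit_iff_ne_zero.mpr h)
  have h2 : comp q X * comp q X⁻¹ = 1 := by rw [← comp_mul, h1, comp_one]
  intro h0
  have := congrArg Matrix.det h2
  rw [Matrix.det_mul, h0, zero_mul, Matrix.det_one] at this
  exact zero_ne_one this

theorem comp_map {R R' : Type*} [CommRing R] [CommRing R'] (f : R →+* R') {n q : ℕ}
    (X : Matrix (Fin n) (Fin n) R) : comp q (X.map f) = (comp q X).map f := by
  ext S T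
  rw [Matrix.map_apply, comp_apply, comp_apply, RingHom.map_det]
  rfl

theorem comp_det_ne_zero_int {n q : ℕ} {X : Matrix (Fin n) (Fin n) ℤ}
    (h : X.det ≠ 0) : (comp q X).det ≠ 0 := by
  have h1 : (X.map (Int.castRingHom ℚ)).det ≠ 0 := by
    have := RingHom.map_det (Int.castRingHom ℚ) X
    rw [RingHom.mapMatrix_apply] at this
    rw [← this]
    simpa using h
  have h2 := comp_det_ne_zero (q := q) h1
  rw [comp_map] at h2
  intro h0
  apply h2
  have := RingHom.map_det (Int.castRingHom ℚ) (comp q X)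
  rw [RingHom.mapMatrix_apply] at this
  rw [← this, h0, map_zero]

theorem isAlgebraic_det {q : Type*} [Fintype q] [DecidableEq q] (X : Matrix q q ℝ)
    (h : ∀ i j, IsAlgebraic ℚ (X i j)) : IsAlgebraic ℚ X.det := by
  have : X.det ∈ algebraicClosure ℚ ℝ := by
    rw [Matrix.det_apply']
    refine sum_mem fun σ _ => mul_mem (intCast_mem _ _) (prod_mem fun i _ => ?_)
    exact mem_algebraicClosure_iff.mpr (h _ _)
  exact mem_algebraicClosure_iff.mp this

theorem abs_det_le {q : Type*} [Fintype q] [DecidableEq q] (X : Matrix q q ℝ) (r s : q → ℝ)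
    (h : ∀ i j, |X i j| ≤ r i * s j) :
    |X.det| ≤ (Fintype.card q).factorial * ((∏ i, r i) * ∏ j, s j) := by
  rw [Matrix.det_apply']
  refine (Finset.abs_sum_le_sum_abs _ _).trans ?_
  have : ∀ σ : Equiv.Perm q, |((Equiv.Perm.sign σ : ℤ) : ℝ) * ∏ i, X (σ i) i| ≤
      (∏ i, r i) * ∏ j, s j := by
    intro σ
    have h1 : |((Equiv.Perm.sign σ : ℤ) : ℝ)| = 1 := by
      rcases Int.units_eq_one_or (Equiv.Perm.sign σ) with h | h <;> simp [h]
    rw [abs_mul, h1, one_mul, Finset.abs_prod, ← Equiv.prod_comp σ r, ← Finset.prod_mul_distrib]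
    exact Finset.prod_le_prod (fun _ _ => abs_nonneg _) fun i _ => h _ _
  refine (Finset.sum_le_sum fun σ _ => this σ).trans ?_
  rw [Finset.sum_const, Finset.card_univ, Fintype.card_perm, nsmul_eq_mul]

/-- Each index lies in the same number of `q`-subsets. -/
theorem sum_sub_sum (n q : ℕ) : ∃ N : ℕ, N ≤ Fintype.card (Sub n q) ∧ ∀ f : Fin n → ℝ,
    ∑ S : Sub n q, ∑ i ∈ S.1, f i = N * ∑ i, f i := by
  classical
  rcases Nat.eq_zero_or_pos n with rfl | hn
  · refine ⟨0, Nat.zero_le _, fun f => ?_⟩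
    rw [Finset.sum_eq_zero fun S _ => Finset.sum_eq_zero fun i _ => i.elim0]
    simp
  let cnt : Fin n → ℕ := fun i => (Finset.univ.filter fun S : Sub n q => i ∈ S.1).card
  have hc : ∀ i j, cnt i = cnt j := by
    intro i j
    let e : Sub n q ≃ Sub n q :=
      { toFun := fun S => ⟨S.1.map (Equiv.swap i j).toEmbedding, by rw [Finset.card_map, S.2]⟩
        invFun := fun S => ⟨S.1.map (Equiv.swap i j).toEmbedding, by rw [Finset.card_map, S.2]⟩
        left_inv := fun S => by
          apply Subtype.ext; ext a; simp [Finset.mem_map_equiv]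
        right_inv := fun S => by
          apply Subtype.ext; ext a; simp [Finset.mem_map_equiv] }
    refine Finset.card_bijective e e.bijective fun S => ?_
    simp [e, Finset.mem_map_equiv]
  refine ⟨cnt ⟨0, hn⟩, ?_, fun f => ?_⟩
  · exact (Finset.card_filter_le _ _).trans (by rw [Finset.card_univ])
  · have : ∀ S : Sub n q, ∑ i ∈ S.1, f i = ∑ i, if i ∈ S.1 then f i else 0 := by
      intro S
      rw [← Finset.sum_filter]
      congr 1
      ext; simp
    simp_rw [this]
    rw [Finset.sum_comm, Finset.mul_sum]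
    refine Finset.sum_congr rfl fun i _ => ?_
    rw [← Finset.sum_filter, Finset.sum_const, nsmul_eq_mul, hc ⟨0, hn⟩ i]

theorem card_sub_le (n q : ℕ) : Fintype.card (Sub n q) ≤ 2 ^ n := by
  refine (Fintype.card_subtype_le _).trans ?_
  rw [Fintype.card_finset, Fintype.card_fin]

/-- From a functional on the compound space to a functional on the space itself. -/
theorem exists_psi {n q : ℕ} (hq : 0 < q) (ω : Sub n q → ℤ) (hω : ω ≠ 0) :
    ∃ ψ : Fin n → ℤ, ψ ≠ 0 ∧ ∀ (V : Matrix (Fin n) (Fin n) ℤ) (I₀ : Sub n q), V.det ≠ 0 →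
      (∀ J, J ≠ I₀ → ∑ S, ω S * comp q V S J = 0) →
      ∀ a : Fin n → ℤ, (∀ j ∈ I₀.1, a j = 0) → ∑ i, ψ i * V.mulVec a i = 0 := by
  classical
  obtain ⟨S₀, hS₀⟩ : ∃ S₀, ω S₀ ≠ 0 := by
    by_contra h
    push Not at h
    exact hω (funext h)
  let a₀ : Fin q := ⟨0, hq⟩
  let E : Matrix (Fin n) (Fin q) ℤ := (1 : Matrix (Fin n) (Fin n) ℤ).submatrix id S₀.emb
  let Φ : (Fin n → ℤ) →ₗ[ℤ] ℤ := ∑ T : Sub n q, ω T •
    ((LinearMap.proj a₀).comp ((Matrix.cramer (E.submatrix T.emb id)).comp
      (LinearMap.funLeft ℤ ℤ T.emb)))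
  have hΦ : ∀ x, Φ x = ∑ T : Sub n q, ω T * ((E.updateCol a₀ x).submatrix T.emb id).det := by
    intro x
    simp only [Φ, LinearMap.sum_apply, LinearMap.smul_apply, LinearMap.comp_apply,
      LinearMap.proj_apply, Matrix.cramer_apply, smul_eq_mul]
    refine Finset.sum_congr rfl fun T _ => ?_
    congr 2
  have hψ : ∀ x : Fin n → ℤ, ∑ i, Φ (Pi.single i 1) * x i = Φ x := by
    intro x
    conv_rhs => rw [pi_eq_sum_univ' x]
    rw [map_sum]
    refine Finset.sum_congr rfl fun i _ => ?_
    rw [map_smul, smul_eq_mul, mul_comm]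
  refine ⟨fun i => Φ (Pi.single i 1), ?_, ?_⟩
  · intro h
    have h1 : Φ (Pi.single (S₀.emb a₀) 1) = 0 := congrFun h _
    rw [hΦ] at h1
    have h2 : E.updateCol a₀ (Pi.single (S₀.emb a₀) 1) = E := by
      ext i a
      by_cases h : a = a₀
      · subst h; simp [E, Matrix.one_apply, Pi.single_apply]
      · simp [Matrix.updateCol_ne h]
    rw [h2] at h1
    have h3 : ∀ T : Sub n q, (E.submatrix T.emb id).det =
        (1 : Matrix (Sub n q) (Sub n q) ℤ) T S₀ := by
      intro T
      rw [← comp_one, comp_apply]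
      rfl
    simp_rw [h3] at h1
    simp [Matrix.one_apply] at h1
    exact hS₀ h1
  · intro V I₀ hV hJ a ha
    rw [hψ, hΦ]
    let f := Int.castRingHom ℚ
    let W : Matrix (Fin n) (Fin n) ℚ := V.map f
    have hW : W.det ≠ 0 := by
      have := RingHom.map_det f V
      rw [RingHom.mapMatrix_apply] at this
      rw [← this]
      simpa [f] using hV
    let Z : Matrix (Fin n) (Fin q) ℚ := (W⁻¹ * E.map f).updateCol a₀ fun i => (a i : ℚ)
    have hZ : W * Z = (E.updateCol a₀ (V.mulVec a)).map f := by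
      have h1 : W * (W⁻¹ * E.map f) = E.map f := by
        rw [← Matrix.mul_assoc, Matrix.mul_nonsing_inv _ (isUnit_iff_ne_zero.mpr hW),
          Matrix.one_mul]
      ext i a'
      by_cases h : a' = a₀
      · subst h
        simp [Z, W, f, Matrix.mul_apply, Matrix.mulVec, dotProduct]
      · have h2 := congrFun (congrFun h1 i) a'
        rw [Matrix.map_apply] at h2
        rw [Matrix.map_apply, Matrix.updateCol_ne h, ← h2, Matrix.mul_apply,
          Matrix.mul_apply]
        simp only [Z, Matrix.updateCol_ne h]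
    have h4 : ∀ T : Sub n q,
        ((((E.updateCol a₀ (V.mulVec a)).submatrix T.emb id).det : ℤ) : ℚ) =
          ∑ J : Sub n q, ((comp q V T J : ℤ) : ℚ) * (Z.submatrix J.emb id).det := by
      intro T
      have h5 := RingHom.map_det f ((E.updateCol a₀ (V.mulVec a)).submatrix T.emb id)
      have h6 : f.mapMatrix ((E.updateCol a₀ (V.mulVec a)).submatrix T.emb id) =
          W.submatrix T.emb id * Z := by
        have : W.submatrix T.emb id * Z = (W * Z).submatrix T.emb id := by
          ext i j; simp [Matrix.mul_apply]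
        rw [this, hZ]; rfl
      rw [h6, cauchy_binet] at h5
      refine h5.trans (Finset.sum_congr rfl fun J _ => ?_)
      congr 1
      have := congrFun (congrFun (comp_map f (q := q) V) T) J
      exact this
    have h7 : ((∑ T : Sub n q,
        ω T * ((E.updateCol a₀ (V.mulVec a)).submatrix T.emb id).det : ℤ) : ℚ) = 0 := by
      rw [Int.cast_sum]
      simp_rw [Int.cast_mul, h4, Finset.mul_sum]
      rw [Finset.sum_comm]
      refine Finset.sum_eq_zero fun J _ => ?_
      by_cases h : J = I₀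
      · subst h
        have : (Z.submatrix J.emb id).det = 0 := by
          refine Matrix.det_eq_zero_of_column_eq_zero a₀ fun i => ?_
          simp [Z, ha _ (J.emb_mem i)]
        simp [this]
      · have h8 : ((∑ S, ω S * comp q V S J : ℤ) : ℚ) = 0 := by rw [hJ J h]; simp
        push_cast at h8
        simp_rw [← mul_assoc]
        rw [← Finset.sum_mul, h8, zero_mul]
    exact_mod_cast h7

end Pool.Agent.Subspace
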