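import Mathlib

/-!
Part H2a: sup-norm reduced bases with pivoting (this replaces successive minima, Minkowski's second
theorem and the lemmas of Davenport and Evertse), and compound matrices.
-/

namespace Pool.Agent.Subspace

open Matrix

namespace Reduce

/-- The conclusion of `reduced_basis`. -/
def Good {n : ℕ} (K : ℝ) (A : Matrix (Fin n) (Fin n) ℝ) : Prop :=
  ∃ (Y : Matrix (Fin n) (Fin n) ℤ) (π : Equiv.Perm (Fin n)) (μ : Fin n → ℝ),
    (∀ i, 0 < μ i) ∧ Monotone μ ∧ Y.det ≠ 0 ∧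
    (∀ i j, |∑ l, A (π i) l * (Y l j : ℝ)| ≤ μ (min i j)) ∧
    ∏ i, μ i ≤ K * |A.det| ∧
    ∀ (y : Fin n → ℤ) (p : Fin n), (∀ i, K * |∑ l, A i l * (y l : ℝ)| < μ p) →
      ∃ a : Fin n → ℤ, y = Y.mulVec a ∧ ∀ j, p ≤ j → a j = 0

/-- Block matrix with first column `e₀`, first row `(1, t)` and lower right block `Y`. -/
def blk {R : Type*} [CommRing R] {n : ℕ} (t : Fin n → R) (Y : Matrix (Fin n) (Fin n) R) :
    Matrix (Fin (n + 1)) (Fin (n + 1)) R :=
  Matrix.of fun i j => Fin.cases (Fin.cases 1 t j) (fun i' => Fin.cases 0 (Y i') j) i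

section
variable {R : Type*} [CommRing R] {n : ℕ} (t : Fin n → R) (Y : Matrix (Fin n) (Fin n) R)
@[simp] lemma blk_zero_zero : blk t Y 0 0 = 1 := rfl
@[simp] lemma blk_zero_succ (j : Fin n) : blk t Y 0 j.succ = t j := rfl
@[simp] lemma blk_succ_zero (i : Fin n) : blk t Y i.succ 0 = 0 := rfl
@[simp] lemma blk_succ_succ (i j : Fin n) : blk t Y i.succ j.succ = Y i j := rfl

lemma det_blk : (blk t Y).det = Y.det := by
  rw [det_succ_column_zero, Fin.sum_univ_succ]
  have : (blk t Y).submatrix Fin.succ Fin.succ = Y := by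
    ext i j; simp
  simp [this]
end

lemma transport {n : ℕ} {K : ℝ} (A : Matrix (Fin n) (Fin n) ℝ) (U : Matrix (Fin n) (Fin n) ℤ)
    (hU : IsUnit U.det) (h : Good K (A * U.map (Int.castRingHom ℝ))) : Good K A := by
  obtain ⟨Y, π, μ, h1, h2, h3, h4, h5, h6⟩ := h
  have key : ∀ (i : Fin n) (z : Fin n → ℤ),
      ∑ l, (A * U.map (Int.castRingHom ℝ)) i l * (z l : ℝ) =
        ∑ l, A i l * ((U.mulVec z l : ℤ) : ℝ) := by
    intro i z
    simp only [mul_apply, map_apply, mulVec, dotProduct, Finset.sum_mul, eq_intCast]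
    push_cast
    simp only [Finset.mul_sum]
    rw [Finset.sum_comm]
    exact Finset.sum_congr rfl fun _ _ => Finset.sum_congr rfl fun _ _ => by ring
  refine ⟨U * Y, π, μ, h1, h2, ?_, ?_, ?_, ?_⟩
  · rw [det_mul]; exact mul_ne_zero hU.ne_zero h3
  · intro i j
    have := h4 i j
    rw [key (π i) (fun l => Y l j)] at this
    exact this
  · rw [det_mul, ← RingHom.mapMatrix_apply, ← RingHom.map_det, abs_mul] at h5
    rcases Int.isUnit_iff.1 hU with e | e <;> simpa [e] using h5
  · intro y p hy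
    have hy' : U.mulVec (U⁻¹.mulVec y) = y := by
      rw [mulVec_mulVec, mul_nonsing_inv _ hU, one_mulVec]
    obtain ⟨a, ha, ha'⟩ := h6 (U⁻¹.mulVec y) p (fun i => by rw [key, hy']; exact hy i)
    exact ⟨a, by rw [← mulVec_mulVec, ← ha, hy'], ha'⟩

lemma step {n : ℕ} {K : ℝ} (hK : 1 ≤ K)
    (ih : ∀ A : Matrix (Fin n) (Fin n) ℝ, A.det ≠ 0 → Good K A)
    (B : Matrix (Fin (n + 1)) (Fin (n + 1)) ℝ) (hB : B.det ≠ 0) (i0 : Fin (n + 1))
    (hd : 0 < |B i0 0|) (hcol : ∀ i, |B i 0| ≤ |B i0 0|)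
    (hmin : ∀ z : Fin (n + 1) → ℤ, z ≠ 0 → ∃ i, |B i0 0| ≤ |∑ l, B i l * (z l : ℝ)|) :
    Good (6 * 3 ^ n * K) B := by
  set d := |B i0 0| with hddef
  have hb : B i0 0 ≠ 0 := abs_pos.1 hd
  let s : Fin n → ℝ := fun j => B i0 j.succ / B i0 0
  let A' : Matrix (Fin n) (Fin n) ℝ :=
    Matrix.of fun i j => B (i0.succAbove i) j.succ - s j * B (i0.succAbove i) 0
  have hdet : |B.det| = d * |A'.det| := by
    have e1 : (B * blk (fun j => -s j) 1).det = B.det := by rw [det_mul, det_blk, det_one, mul_one]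
    have c0 : ∀ i, (B * blk (fun j => -s j) 1) i 0 = B i 0 := by
      intro i; simp [mul_apply, Fin.sum_univ_succ]
    have c1 : ∀ i j, (B * blk (fun j => -s j) 1) i j.succ = B i j.succ - s j * B i 0 := by
      intro i j
      simp [mul_apply, Fin.sum_univ_succ, one_apply]
      ring
    rw [← e1, det_succ_row _ i0, Fin.sum_univ_succ]
    have z : ∀ j : Fin n, (B * blk (fun j => -s j) 1) i0 j.succ = 0 := by
      intro j; rw [c1]; simp only [s]; field_simp; ring
    have sub : (B * blk (fun j => -s j) 1).submatrix i0.succAbove (Fin.succAbove 0) = A' := by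
      ext i j; simp [c1, A']
    simp only [z, mul_zero, zero_mul, Finset.sum_const_zero, add_zero, c0, sub, abs_mul, abs_pow,
      abs_neg, abs_one, one_pow, one_mul, hddef]
  have hA' : A'.det ≠ 0 := by
    intro h; rw [h, abs_zero, mul_zero, abs_eq_zero] at hdet; exact hB hdet
  obtain ⟨Y', π', μ', h1, h2, h3, h4, h5, h6⟩ := ih A' hA'
  let σ : Fin n → ℝ := fun j => ∑ l, s l * (Y' l j : ℝ)
  let t : Fin n → ℤ := fun j => -round (σ j)
  have ht : ∀ j, |σ j + t j| ≤ 1 / 2 := by
    intro j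
    have := abs_sub_round (σ j)
    simpa [t, sub_eq_add_neg] using this
  let π : Equiv.Perm (Fin (n + 1)) :=
    (finSuccEquiv n).trans ((Equiv.optionCongr π').trans (finSuccEquiv' i0).symm)
  have hπ0 : π 0 = i0 := by simp [π]
  have hπs : ∀ i, π i.succ = i0.succAbove (π' i) := by intro i; simp [π]
  have col0 : ∀ i, ∑ l, B i l * ((blk t Y' l 0 : ℤ) : ℝ) = B i 0 := by
    intro i; simp [Fin.sum_univ_succ]
  have colp : ∀ j : Fin n, ∑ l, B i0 l * ((blk t Y' l j.succ : ℤ) : ℝ) = (σ j + t j) * B i0 0 := by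
    intro j
    simp only [Fin.sum_univ_succ, blk_zero_succ, blk_succ_succ, σ, s, add_mul, Finset.sum_mul]
    rw [add_comm, mul_comm]
    congr 1
    exact Finset.sum_congr rfl fun l _ => by field_simp
  have cols : ∀ (i j : Fin n), ∑ l, B (i0.succAbove i) l * ((blk t Y' l j.succ : ℤ) : ℝ) =
      ∑ l, A' i l * (Y' l j : ℝ) + (σ j + t j) * B (i0.succAbove i) 0 := by
    intro i j
    simp only [Fin.sum_univ_succ, blk_zero_succ, blk_succ_succ, σ, A', of_apply, add_mul,
      Finset.sum_mul, sub_mul, Finset.sum_sub_distrib]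
    have : ∑ l, s l * B (i0.succAbove i) 0 * (Y' l j : ℝ) =
        ∑ l, s l * (Y' l j : ℝ) * B (i0.succAbove i) 0 :=
      Finset.sum_congr rfl fun l _ => by ring
    rw [this]; ring
  have bp : ∀ j : Fin n, |∑ l, B i0 l * ((blk t Y' l j.succ : ℤ) : ℝ)| ≤ d / 2 := by
    intro j
    rw [colp, abs_mul]
    have := ht j
    nlinarith
  have bs : ∀ (i j : Fin n),
      |∑ l, B (i0.succAbove (π' i)) l * ((blk t Y' l j.succ : ℤ) : ℝ)| ≤ μ' (min i j) + d / 2 := by
    intro i j
    rw [cols]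
    refine (abs_add_le _ _).trans (add_le_add (h4 i j) ?_)
    rw [abs_mul]
    have := ht j
    have := hcol (i0.succAbove (π' i))
    nlinarith [abs_nonneg (σ j + t j), abs_nonneg (B (i0.succAbove (π' i)) 0)]
  have hlow : ∀ j, d ≤ 2 * μ' j := by
    intro j
    have hne : (fun l => blk t Y' l j.succ) ≠ 0 := by
      intro h0
      apply h3
      apply det_eq_zero_of_column_eq_zero j
      intro i
      exact congrFun h0 i.succ
    obtain ⟨i, hi⟩ := hmin _ hne
    rcases Fin.eq_self_or_eq_succAbove i0 i with rfl | ⟨i', rfl⟩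
    · have := bp j; linarith
    · have := bs (π'.symm i') j
      rw [Equiv.apply_symm_apply] at this
      have := h2 (min_le_right (π'.symm i') j)
      linarith
  let μ : Fin (n + 1) → ℝ := Fin.cases d fun j => μ' j + d
  have μ0 : μ 0 = d := rfl
  have μs : ∀ j, μ j.succ = μ' j + d := fun _ => rfl
  have h3n : (1 : ℝ) ≤ 3 ^ n := one_le_pow₀ (by norm_num)
  refine ⟨blk t Y', π, μ, ?_, ?_, by rwa [det_blk], ?_, ?_, ?_⟩
  · intro i
    refine Fin.cases hd (fun j => ?_) i
    rw [μs]; have := h1 j; linarith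
  · intro i j hij
    revert hij
    refine Fin.cases ?_ (fun i' => ?_) i <;> refine Fin.cases ?_ (fun j' => ?_) j <;> intro hij
    · exact le_rfl
    · rw [μ0, μs]; have := h1 j'; linarith
    · exact absurd hij (by simp)
    · rw [μs, μs]; have := h2 (Fin.succ_le_succ_iff.1 hij); linarith
  · intro i j
    refine Fin.cases ?_ (fun j' => ?_) j
    · rw [col0, min_eq_right (Fin.zero_le i), μ0]; exact hcol _
    · refine Fin.cases ?_ (fun i' => ?_) i
      · rw [hπ0, min_eq_left (Fin.zero_le _), μ0]; have := bp j'; linarith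
      · have e : min i'.succ j'.succ = (min i' j').succ :=
          (Fin.strictMono_succ.monotone.map_min).symm
        rw [hπs, e, μs]; have := bs i' j'; linarith
  · rw [Fin.prod_univ_succ, μ0, hdet]
    have : ∏ j : Fin n, μ j.succ ≤ ∏ j : Fin n, (3 * μ' j) :=
      Finset.prod_le_prod (fun j _ => by rw [μs]; have := h1 j; linarith)
        (fun j _ => by rw [μs]; have := hlow j; linarith)
    rw [Finset.prod_mul_distrib, Finset.prod_const, Finset.card_univ, Fintype.card_fin] at this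
    have e : 0 ≤ K * |A'.det| := by positivity
    calc d * ∏ j : Fin n, μ j.succ ≤ d * (3 ^ n * (K * |A'.det|)) :=
          mul_le_mul_of_nonneg_left (this.trans (by gcongr)) hd.le
      _ ≤ 6 * (d * (3 ^ n * (K * |A'.det|))) := by
          have : 0 ≤ d * (3 ^ n * (K * |A'.det|)) := by positivity
          linarith
      _ = _ := by ring
  · intro y p hy
    have hK6 : 6 * K ≤ 6 * 3 ^ n * K := by nlinarith
    have hy' : ∀ i, 6 * K * |∑ l, B i l * (y l : ℝ)| < μ p := fun i =>
      lt_of_le_of_lt (mul_le_mul_of_nonneg_right hK6 (abs_nonneg _)) (hy i)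
    revert hy'
    refine Fin.cases ?_ (fun p' => ?_) p <;> intro hy'
    · refine ⟨0, ?_, fun _ _ => rfl⟩
      rw [mulVec_zero]
      by_contra hne
      obtain ⟨i, hi⟩ := hmin y hne
      have := hy' i
      rw [μ0] at this
      nlinarith
    · have hφ : ∀ i, ∑ l, A' i l * (y l.succ : ℝ) = ∑ l, B (i0.succAbove i) l * (y l : ℝ) -
          (∑ l, B i0 l * (y l : ℝ)) * (B (i0.succAbove i) 0 / B i0 0) := by
        intro i
        simp only [Fin.sum_univ_succ, A', of_apply, s, sub_mul, Finset.sum_sub_distrib, add_mul,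
          Finset.sum_mul]
        have : ∑ l : Fin n, B i0 l.succ / B i0 0 * B (i0.succAbove i) 0 * (y l.succ : ℝ) =
            ∑ l : Fin n, B i0 l.succ * (y l.succ : ℝ) * (B (i0.succAbove i) 0 / B i0 0) :=
          Finset.sum_congr rfl fun l _ => by ring
        have e0 : B i0 0 * (y 0 : ℝ) * (B (i0.succAbove i) 0 / B i0 0) =
            B (i0.succAbove i) 0 * (y 0 : ℝ) := by field_simp
        rw [this, e0]; ring
      obtain ⟨a', ha, ha'⟩ := h6 (fun l => y l.succ) p' (fun i => by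
        rw [hφ]
        have q : |B (i0.succAbove i) 0 / B i0 0| ≤ 1 := by
          rw [abs_div, div_le_one hd]; exact hcol _
        have b1 := hy' (i0.succAbove i)
        have b2 := hy' i0
        rw [μs] at b1 b2
        have b3 := hlow p'
        have b4 : |∑ l, B (i0.succAbove i) l * (y l : ℝ) -
            (∑ l, B i0 l * (y l : ℝ)) * (B (i0.succAbove i) 0 / B i0 0)| ≤
            |∑ l, B (i0.succAbove i) l * (y l : ℝ)| + |∑ l, B i0 l * (y l : ℝ)| := by
          refine (abs_sub _ _).trans (add_le_add le_rfl ?_)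
          rw [abs_mul]
          exact mul_le_of_le_one_right (abs_nonneg _) q
        have b5 := mul_le_mul_of_nonneg_left b4 (le_trans zero_le_one hK)
        linarith)
      refine ⟨Fin.cases (y 0 - ∑ j, t j * a' j) a', ?_, ?_⟩
      · funext i
        refine Fin.cases ?_ (fun i' => ?_) i
        · simp [mulVec, dotProduct, Fin.sum_univ_succ]
        · have := congrFun ha i'
          simpa [mulVec, dotProduct, Fin.sum_univ_succ] using this
      · intro j
        refine Fin.cases ?_ (fun j' => ?_) j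
        · intro h; exact absurd h (by simp)
        · intro h; exact ha' j' (Fin.succ_le_succ_iff.1 h)

lemma exists_shortest {n : ℕ} (A : Matrix (Fin (n + 1)) (Fin (n + 1)) ℝ) (hA : A.det ≠ 0) :
    ∃ y0 : Fin (n + 1) → ℤ, y0 ≠ 0 ∧ ∀ z : Fin (n + 1) → ℤ, z ≠ 0 →
      ‖A.mulVec fun l => (y0 l : ℝ)‖ ≤ ‖A.mulVec fun l => (z l : ℝ)‖ := by
  let f : (Fin (n + 1) → ℤ) → ℝ := fun z => ‖A.mulVec fun l => (z l : ℝ)‖
  let r := f 1
  let M : ℝ := ∑ i, ∑ j, |A⁻¹ i j| * r
  have hfin : {z : Fin (n + 1) → ℤ | z ≠ 0 ∧ f z ≤ r}.Finite := by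
    refine (Set.finite_Icc (fun _ => -⌈M⌉) (fun _ => ⌈M⌉)).subset ?_
    rintro z ⟨-, hz⟩
    have hb : ∀ i, |(z i : ℝ)| ≤ M := by
      intro i
      have e : (fun l => (z l : ℝ)) = A⁻¹.mulVec (A.mulVec fun l => (z l : ℝ)) := by
        rw [mulVec_mulVec, nonsing_inv_mul _ (Ne.isUnit hA), one_mulVec]
      have e' : (z i : ℝ) = (A⁻¹.mulVec (A.mulVec fun l => (z l : ℝ))) i := congrFun e i
      rw [e', mulVec, dotProduct]
      have hr : 0 ≤ r := norm_nonneg _
      refine (Finset.abs_sum_le_sum_abs _ _).trans (le_trans (Finset.sum_le_sum fun j _ => ?_)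
        (Finset.single_le_sum (f := fun i => ∑ j, |A⁻¹ i j| * r)
          (fun i _ => Finset.sum_nonneg fun j _ => by positivity) (Finset.mem_univ i)))
      rw [abs_mul]
      exact mul_le_mul_of_nonneg_left 
        (le_trans (norm_le_pi_norm (A.mulVec fun l => (z l : ℝ)) j) hz) (abs_nonneg _)
    have hc := Int.le_ceil M
    constructor <;> intro i <;> have := abs_le.1 (hb i)
    · have : ((-⌈M⌉ : ℤ) : ℝ) ≤ z i := by push_cast; linarith
      exact_mod_cast this
    · have : (z i : ℝ) ≤ (⌈M⌉ : ℤ) := by linarith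
      exact_mod_cast this
  obtain ⟨y0, hy0, hmin⟩ := Set.exists_min_image _ f hfin ⟨1, one_ne_zero, le_rfl⟩
  refine ⟨y0, hy0.1, fun z hz => ?_⟩
  by_cases h : f z ≤ r
  · exact hmin z ⟨hz, h⟩
  · exact hy0.2.trans (not_le.1 h).le

lemma exists_unimodular {n : ℕ} (y c : Fin (n + 1) → ℤ) (h : ∑ i, c i * y i = 1) :
    ∃ U : Matrix (Fin (n + 1)) (Fin (n + 1)) ℤ, IsUnit U.det ∧ ∀ i, U i 0 = y i := by
  let φ : (Fin (n + 1) → ℤ) →ₗ[ℤ] ℤ := ∑ i, c i • LinearMap.proj i
  have hφ : φ y = 1 := by simpa [φ] using h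
  obtain ⟨m, b⟩ := Submodule.basisOfPid (Pi.basisFun ℤ (Fin (n + 1))) (LinearMap.ker φ)
  let b' := Module.Basis.mkFinCons y b
    (fun k x hx e => by
      have := congrArg φ e
      rw [map_add, map_smul, hφ, LinearMap.mem_ker.1 hx, map_zero] at this
      simpa using this)
    (fun z => ⟨-φ z, by rw [LinearMap.mem_ker, map_add, map_smul, hφ]; simp⟩)
  have hm : m = n := by
    have := Module.finrank_eq_card_basis b'
    simpa using this.symm
  subst hm
  refine ⟨(Pi.basisFun ℤ (Fin (m + 1))).toMatrix b', ?_, fun i => ?_⟩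
  · exact (Pi.basisFun ℤ (Fin (m + 1))).isUnit_det b'
  · simp [Module.Basis.toMatrix_apply, b', Module.Basis.coe_mkFinCons]

lemma good_succ {n : ℕ} {K : ℝ} (hK : 1 ≤ K)
    (ih : ∀ A : Matrix (Fin n) (Fin n) ℝ, A.det ≠ 0 → Good K A)
    (A : Matrix (Fin (n + 1)) (Fin (n + 1)) ℝ) (hA : A.det ≠ 0) : Good (6 * 3 ^ n * K) A := by
  obtain ⟨y0, hy0, hmin⟩ := exists_shortest A hA
  have hpos : ∀ z : Fin (n + 1) → ℤ, z ≠ 0 → 0 < ‖A.mulVec fun l => (z l : ℝ)‖ := by
    intro z hz
    rw [norm_pos_iff]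
    intro h0
    apply hz
    have := eq_zero_of_mulVec_eq_zero hA h0
    funext l
    have h1 : (z l : ℝ) = 0 := congrFun this l
    exact_mod_cast h1
  obtain ⟨c, hc⟩ : ∃ c : Fin (n + 1) → ℤ, ∑ i, c i * y0 i = 1 := by
    obtain ⟨g, hg⟩ := (IsPrincipalIdealRing.principal (Ideal.span (Set.range y0))).principal
    have hdv : ∀ i, g ∣ y0 i := fun i => by
      have : y0 i ∈ Ideal.span (Set.range y0) := Ideal.subset_span ⟨i, rfl⟩
      rw [hg] at this
      exact Ideal.mem_span_singleton.1 this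
    choose z hz using hdv
    have hz0 : z ≠ 0 := by
      rintro rfl; apply hy0; funext i; simp [hz i]
    have hg0 : g ≠ 0 := by
      rintro rfl; apply hy0; funext i; simp [hz i]
    have e : (A.mulVec fun l => (y0 l : ℝ)) = (g : ℝ) • A.mulVec fun l => (z l : ℝ) := by
      rw [← mulVec_smul]; congr 1; funext l; simp [hz l]
    have h1 := hmin z hz0
    rw [e, norm_smul, Real.norm_eq_abs] at h1
    have h2 : |(g : ℝ)| ≤ 1 := by
      by_contra hh
      nlinarith [hpos z hz0]
    have h3 : |g| ≤ 1 := by exact_mod_cast h2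
    have hu : IsUnit g := by
      rw [Int.isUnit_iff]; have := abs_le.1 h3; omega
    have : (1 : ℤ) ∈ Ideal.span (Set.range y0) := by
      rw [hg]; exact Ideal.mem_span_singleton.2 hu.dvd
    exact Ideal.mem_span_range_iff_exists_fun.1 this
  obtain ⟨U, hU, hU0⟩ := exists_unimodular y0 c hc
  apply transport A U hU
  have key : ∀ (i : Fin (n + 1)) (z : Fin (n + 1) → ℤ),
      ∑ l, (A * U.map (Int.castRingHom ℝ)) i l * (z l : ℝ) =
        (A.mulVec fun l => ((U.mulVec z l : ℤ) : ℝ)) i := by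
    intro i z
    simp only [mul_apply, map_apply, mulVec, dotProduct, Finset.sum_mul, eq_intCast]
    push_cast
    simp only [Finset.mul_sum]
    rw [Finset.sum_comm]
    exact Finset.sum_congr rfl fun _ _ => Finset.sum_congr rfl fun _ _ => by ring
  have c0 : ∀ i, (A * U.map (Int.castRingHom ℝ)) i 0 = (A.mulVec fun l => (y0 l : ℝ)) i := by
    intro i; simp [mul_apply, mulVec, dotProduct, hU0]
  have hattain : ∀ v : Fin (n + 1) → ℝ, ∃ i, |v i| = ‖v‖ := by
    intro v
    obtain ⟨i, -, hi⟩ := Finset.exists_max_image Finset.univ (fun i => |v i|) Finset.univ_nonempty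
    exact ⟨i, le_antisymm (norm_le_pi_norm v i)
      ((pi_norm_le_iff_of_nonneg (abs_nonneg _)).2 fun j => hi j (Finset.mem_univ j))⟩
  obtain ⟨i0, hi0⟩ := hattain (A.mulVec fun l => (y0 l : ℝ))
  refine step hK ih _ ?_ i0 ?_ ?_ ?_
  · rw [det_mul, ← RingHom.mapMatrix_apply, ← RingHom.map_det]
    exact mul_ne_zero hA (by simpa using hU.ne_zero)
  · rw [c0, hi0]; exact hpos y0 hy0
  · intro i; rw [c0, c0, hi0]; exact norm_le_pi_norm (A.mulVec fun l => (y0 l : ℝ)) i
  · intro z hz
    have hz' : U.mulVec z ≠ 0 := fun h0 => hz (eq_zero_of_mulVec_eq_zero hU.ne_zero h0)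
    obtain ⟨i, hi⟩ := hattain (A.mulVec fun l => ((U.mulVec z l : ℤ) : ℝ))
    exact ⟨i, by rw [c0, hi0, key, hi]; exact hmin _ hz'⟩

end Reduce

theorem reduced_basis (n : ℕ) : ∃ K : ℝ, 1 ≤ K ∧ ∀ A : Matrix (Fin n) (Fin n) ℝ, A.det ≠ 0 →
    ∃ (Y : Matrix (Fin n) (Fin n) ℤ) (π : Equiv.Perm (Fin n)) (μ : Fin n → ℝ),
      (∀ i, 0 < μ i) ∧ Monotone μ ∧ Y.det ≠ 0 ∧
      (∀ i j, |∑ l, A (π i) l * (Y l j : ℝ)| ≤ μ (min i j)) ∧
      ∏ i, μ i ≤ K * |A.det| ∧
      ∀ (y : Fin n → ℤ) (p : Fin n), (∀ i, K * |∑ l, A i l * (y l : ℝ)| < μ p) →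
        ∃ a : Fin n → ℤ, y = Y.mulVec a ∧ ∀ j, p ≤ j → a j = 0 := by
  induction n with
  | zero =>
    exact ⟨1, le_rfl, fun A _ => ⟨1, 1, fun _ => 1, fun i => i.elim0, fun i => i.elim0, by simp,
      fun i => i.elim0, by simp, fun _ p => p.elim0⟩⟩
  | succ n ih =>
    obtain ⟨K, hK, h⟩ := ih
    have h3n : (1 : ℝ) ≤ 3 ^ n := one_le_pow₀ (by norm_num)
    exact ⟨6 * 3 ^ n * K, by nlinarith, fun A hA => Reduce.good_succ hK h A hA⟩

/-- Cauchy-Binet formula. -/
theorem cauchy_binet {R : Type*} [CommRing R] {n q : ℕ} (A : Matrix (Fin q) (Fin n) R)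
    (B : Matrix (Fin n) (Fin q) R) :
    (A * B).det = ∑ S : {S : Finset (Fin n) // S.card = q},
      (A.submatrix id (S.1.orderEmbOfFin S.2)).det *
        (B.submatrix (S.1.orderEmbOfFin S.2) id).det := by
  have e1 : (A * B).det = ∑ p : Fin q → Fin n, (A.submatrix id p).det * ∏ i, B (p i) i := by
    simp only [det_apply', mul_apply, Finset.prod_univ_sum, Finset.mul_sum, Fintype.piFinset_univ,
      Finset.sum_mul, submatrix_apply, id]
    rw [Finset.sum_comm]
    refine Finset.sum_congr rfl fun p _ => Finset.sum_congr rfl fun σ _ => ?_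
    rw [Finset.prod_mul_distrib, mul_assoc]
  let e : {S : Finset (Fin n) // S.card = q} × Equiv.Perm (Fin q) → (Fin q → Fin n) :=
    fun x => x.1.1.orderEmbOfFin x.1.2 ∘ x.2
  have he : Function.Injective e := by
    rintro ⟨S, σ⟩ ⟨T, τ⟩ h
    have hr : Set.range (e (S, σ)) = S.1 := by
      simp only [e]; rw [σ.surjective.range_comp, Finset.range_orderEmbOfFin]
    have hr' : Set.range (e (T, τ)) = T.1 := by
      simp only [e]; rw [τ.surjective.range_comp, Finset.range_orderEmbOfFin]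
    have hST : S = T := Subtype.ext (Finset.coe_injective (by rw [← hr, ← hr', h]))
    subst hST
    refine Prod.ext rfl (Equiv.ext fun i => ?_)
    exact (S.1.orderEmbOfFin S.2).injective (congrFun h i)
  rw [e1, ← Fintype.sum_of_injective e he
    (fun x => (A.submatrix id (e x)).det * ∏ i, B (e x i) i) _ ?_ (fun _ => rfl),
    Fintype.sum_prod_type]
  · refine Finset.sum_congr rfl fun S _ => ?_
    rw [det_apply' (B.submatrix _ id), Finset.mul_sum]
    refine Finset.sum_congr rfl fun σ _ => ?_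
    have : A.submatrix id (e (S, σ)) = (A.submatrix id (S.1.orderEmbOfFin S.2)).submatrix id σ :=
      rfl
    rw [this, det_permute']
    simp only [e, submatrix_apply, id, Function.comp_apply]
    ring
  · intro p hp
    have hninj : ¬ Function.Injective p := by
      intro hinj
      apply hp
      have hc : (Finset.univ.image p).card = q := by
        rw [Finset.card_image_of_injective _ hinj]; simp
      have hmem : ∀ i, p i ∈ Finset.univ.image p := fun i =>
        Finset.mem_image_of_mem _ (Finset.mem_univ i)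
      let g : Fin q → Fin q := fun i => ((Finset.univ.image p).orderIsoOfFin hc).symm ⟨p i, hmem i⟩
      have hg : ∀ i, (Finset.univ.image p).orderEmbOfFin hc (g i) = p i := by
        intro i
        rw [← Finset.coe_orderIsoOfFin_apply]
        simp [g]
      have hginj : Function.Injective g := fun i j h => hinj (by rw [← hg i, ← hg j, h])
      exact ⟨(⟨_, hc⟩, Equiv.ofBijective g (Finite.injective_iff_bijective.1 hginj)),
        funext fun i => hg i⟩
    rw [Function.Injective] at hninj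
    push Not at hninj
    obtain ⟨i, j, hij, hne⟩ := hninj
    rw [det_zero_of_column_eq hne (fun k => by simp [hij]), zero_mul]

end Pool.Agent.Subspace
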