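import Pool.Agent.Shared.Subspace.Main

/-!
Part H3: nonzero values of `∑ a j * b ^ t j - P` (with real algebraic `a j` and an integer `P`)
are not exponentially small. Derived from the b-adic Subspace Theorem.
-/

namespace Pool.Agent.Subspace

open Filter Topology

theorem elim_sum {r : ℕ} (a x : Fin (r + 1) → ℝ) (j₀ : Fin (r + 1)) (ρ : Fin r → ℝ)
    (h : x j₀ = ∑ i, ρ i * x (j₀.succAbove i)) :
    ∑ j, a j * x j = ∑ i, (a (j₀.succAbove i) + a j₀ * ρ i) * x (j₀.succAbove i) := by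
  rw [Fin.sum_univ_succAbove _ j₀, h, Finset.mul_sum, ← Finset.sum_add_distrib]
  exact Finset.sum_congr rfl fun i _ => by ring

theorem eventually_le_of_pos {c : ℝ} (hc : 0 < c) : ∀ᶠ κ in 𝓝[>] (0 : ℝ), κ ≤ c := by
  filter_upwards [Ioo_mem_nhdsGT hc] with κ hκ using hκ.2.le

/-- For arbitrary real coefficients the nonzero values of `∑ a j * b ^ t j` are bounded below. -/
theorem pure_lower (b : ℕ) (hb : 2 ≤ b) (r : ℕ) (a : Fin r → ℝ) :
    ∀ᶠ κ in 𝓝[>] (0 : ℝ), ∀ t : Fin r → ℕ, ∑ j, a j * (b : ℝ) ^ t j ≠ 0 →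
      κ ≤ |∑ j, a j * (b : ℝ) ^ t j| := by
  have hb1 : (1 : ℝ) < b := by exact_mod_cast (by omega : 1 < b)
  have hb0 : (0 : ℝ) < b := by linarith
  induction r with
  | zero => exact Eventually.of_forall fun κ t h => absurd (by simp) h
  | succ r ih =>
    have key : ∀ j₀ : Fin (r + 1), ∀ᶠ κ in 𝓝[>] (0 : ℝ), ∀ t : Fin (r + 1) → ℕ,
        (∀ j, t j ≤ t j₀) → ∑ j, a j * (b : ℝ) ^ t j ≠ 0 →
        κ ≤ |∑ j, a j * (b : ℝ) ^ t j| := by
      intro j₀
      by_cases h0 : a j₀ = 0
      · filter_upwards [ih fun i => a (j₀.succAbove i)] with κ hκ t _ hne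
        have e : ∑ j, a j * (b : ℝ) ^ t j =
            ∑ i, a (j₀.succAbove i) * (b : ℝ) ^ t (j₀.succAbove i) := by
          rw [Fin.sum_univ_succAbove _ j₀, h0]; simp
        rw [e] at hne ⊢
        exact hκ (fun i => t (j₀.succAbove i)) hne
      · have hpos : 0 < |a j₀| := abs_pos.mpr h0
        obtain ⟨g, hg⟩ := pow_unbounded_of_one_lt
          (2 * (∑ i : Fin r, |a (j₀.succAbove i)|) / |a j₀|) hb1
        rw [div_lt_iff₀ hpos] at hg
        have h1 : ∀ᶠ κ in 𝓝[>] (0 : ℝ), ∀ p : Fin r × Fin g, ∀ t : Fin r → ℕ,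
            ∑ i, (a (j₀.succAbove i) + a j₀ *
              (Pi.single p.1 ((b : ℝ) ^ (p.2 : ℕ)) : Fin r → ℝ) i) * (b : ℝ) ^ t i ≠ 0 →
            κ ≤ |∑ i, (a (j₀.succAbove i) + a j₀ *
              (Pi.single p.1 ((b : ℝ) ^ (p.2 : ℕ)) : Fin r → ℝ) i) * (b : ℝ) ^ t i| :=
          eventually_all.mpr fun p => ih _
        filter_upwards [h1, eventually_le_of_pos (half_pos hpos)] with κ hκ hκ2 t ht hne
        by_cases hgap : ∃ i, t j₀ < t (j₀.succAbove i) + g
        · obtain ⟨i, hi⟩ := hgap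
          have hti := ht (j₀.succAbove i)
          have e := elim_sum a (fun j => (b : ℝ) ^ t j) j₀
            (Pi.single i ((b : ℝ) ^ (t j₀ - t (j₀.succAbove i)))) (by
              rw [Finset.sum_eq_single i]
              · simp only [Pi.single_eq_same]
                rw [← pow_add]; congr 1; omega
              · intro j _ hj; simp [hj]
              · simp)
          rw [e] at hne ⊢
          exact hκ (i, ⟨t j₀ - t (j₀.succAbove i), by omega⟩) (fun i => t (j₀.succAbove i)) hne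
        · push Not at hgap
          rw [Fin.sum_univ_succAbove _ j₀]
          have hbt : (1 : ℝ) ≤ (b : ℝ) ^ t j₀ := one_le_pow₀ hb1.le
          have hbg : (0 : ℝ) < (b : ℝ) ^ g := by positivity
          have h2 : |∑ i, a (j₀.succAbove i) * (b : ℝ) ^ t (j₀.succAbove i)| * (b : ℝ) ^ g ≤
              (∑ i : Fin r, |a (j₀.succAbove i)|) * (b : ℝ) ^ t j₀ := by
            refine (mul_le_mul_of_nonneg_right (Finset.abs_sum_le_sum_abs _ _) hbg.le).trans ?_
            rw [Finset.sum_mul, Finset.sum_mul]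
            refine Finset.sum_le_sum fun i _ => ?_
            rw [abs_mul, abs_of_pos (by positivity : (0 : ℝ) < (b : ℝ) ^ t (j₀.succAbove i)),
              mul_assoc, ← pow_add]
            exact mul_le_mul_of_nonneg_left (pow_le_pow_right₀ hb1.le (hgap i)) (abs_nonneg _)
          have h3 : 2 * |∑ i, a (j₀.succAbove i) * (b : ℝ) ^ t (j₀.succAbove i)| ≤
              |a j₀| * (b : ℝ) ^ t j₀ := by
            refine le_of_mul_le_mul_right ?_ hbg
            nlinarith [mul_le_mul_of_nonneg_right hg.le (by positivity : (0 : ℝ) ≤ (b : ℝ) ^ t j₀)]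
          have h4 := abs_add_le (a j₀ * (b : ℝ) ^ t j₀ +
            ∑ i, a (j₀.succAbove i) * (b : ℝ) ^ t (j₀.succAbove i))
            (-∑ i, a (j₀.succAbove i) * (b : ℝ) ^ t (j₀.succAbove i))
          rw [add_neg_cancel_right, abs_neg, abs_mul,
            abs_of_pos (by positivity : (0 : ℝ) < (b : ℝ) ^ t j₀)] at h4
          nlinarith
    filter_upwards [eventually_all.mpr key] with κ hκ t hne
    obtain ⟨j₀, hj₀⟩ := Finite.exists_max t
    exact hκ j₀ t hj₀ hne

/-- The matrix of linear forms `X j` and `∑ a j * X j - P`. -/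
def formMat {r : ℕ} (a : Fin r → ℝ) : Matrix (Option (Fin r)) (Option (Fin r)) ℝ
  | none, none => -1
  | none, some j => a j
  | some _, none => 0
  | some i, some j => if i = j then 1 else 0

theorem formMat_mul_self {r : ℕ} (a : Fin r → ℝ) : formMat a * formMat a = 1 := by
  ext i j
  rw [Matrix.mul_apply, Fintype.sum_option]
  rcases i with _ | i <;> rcases j with _ | j <;> simp [formMat, Matrix.one_apply]

theorem formMat_det {r : ℕ} (a : Fin r → ℝ) : (formMat a).det ≠ 0 := by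
  intro h
  have := congrArg Matrix.det (formMat_mul_self a)
  rw [Matrix.det_mul, h, Matrix.det_one] at this
  simp at this

theorem sum_pow_lower_ev (b : ℕ) (hb : 2 ≤ b) {ε : ℝ} (hε : 0 < ε) (r : ℕ) (a : Fin r → ℝ)
    (ha : ∀ j, IsAlgebraic ℚ (a j)) :
    ∀ᶠ κ in 𝓝[>] (0 : ℝ), ∀ (t : Fin r → ℕ) (T : ℕ) (P : ℤ), (∀ j, t j ≤ T) →
      ∑ j, a j * (b : ℝ) ^ t j - P ≠ 0 →
      κ ≤ |∑ j, a j * (b : ℝ) ^ t j - P| * (b : ℝ) ^ (ε * T) := by
  have hb1 : (1 : ℝ) < b := by exact_mod_cast (by omega : 1 < b)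
  have hb0 : (0 : ℝ) < b := by linarith
  have hbe : ∀ T : ℕ, (1 : ℝ) ≤ (b : ℝ) ^ (ε * T) := fun T =>
    Real.one_le_rpow hb1.le (by positivity)
  induction r with
  | zero =>
    filter_upwards [eventually_le_of_pos one_pos] with κ hκ t T P _ hne
    simp only [Finset.univ_eq_empty, Finset.sum_empty, zero_sub, ne_eq, neg_eq_zero,
      Int.cast_eq_zero, abs_neg] at hne ⊢
    have : (1 : ℝ) ≤ |(P : ℝ)| := by exact_mod_cast Int.one_le_abs hne
    nlinarith [hbe T]
  | succ r ih =>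
    have hL : ∀ i j, IsAlgebraic ℚ (formMat a i j) := by
      rintro (_ | i) (_ | j)
      · exact isAlgebraic_one.neg
      · exact ha j
      · exact isAlgebraic_zero
      · simp only [formMat]; split_ifs
        · exact isAlgebraic_one
        · exact isAlgebraic_zero
    obtain ⟨Ψ, hΨ0, hΨ⟩ := subspace b hb (formMat a) hL (formMat_det a) hε
    set A : ℝ := ∑ j, |a j| + 1 with hA
    have hA1 : 1 ≤ A := by
      have : 0 ≤ ∑ j, |a j| := Finset.sum_nonneg fun _ _ => abs_nonneg _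
      linarith
    have key : ∀ ψ ∈ Ψ, ∀ᶠ κ in 𝓝[>] (0 : ℝ), ∀ (t : Fin (r + 1) → ℕ) (T : ℕ) (P : ℤ),
        (∀ j, t j ≤ T) → ψ none * P + ∑ j, ψ (some j) * (b : ℤ) ^ t j = 0 →
        ∑ j, a j * (b : ℝ) ^ t j - P ≠ 0 →
        κ ≤ |∑ j, a j * (b : ℝ) ^ t j - P| * (b : ℝ) ^ (ε * T) := by
      intro ψ hψ
      by_cases h0 : ψ none = 0
      · obtain ⟨j₀, hj₀⟩ : ∃ j₀, ψ (some j₀) ≠ 0 := by
          by_contra hc
          push Not at hc
          refine hΨ0 ψ hψ (funext ?_)
          rintro (_ | j)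
          · exact h0
          · exact hc j
        have hj₀' : (ψ (some j₀) : ℝ) ≠ 0 := by exact_mod_cast hj₀
        have := ih (fun i => a (j₀.succAbove i) + a j₀ *
          (-(ψ (some (j₀.succAbove i)) : ℝ) / ψ (some j₀))) (fun i => by
            refine (ha _).add ((ha _).mul ?_)
            have := isAlgebraic_algebraMap (R := ℚ) (A := ℝ)
              (-(ψ (some (j₀.succAbove i)) : ℚ) / ψ (some j₀))
            simpa using this)
        filter_upwards [this] with κ hκ t T P ht hrel hne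
        have e := elim_sum a (fun j => (b : ℝ) ^ t j) j₀
          (fun i => -(ψ (some (j₀.succAbove i)) : ℝ) / ψ (some j₀)) (by
            rw [h0, zero_mul, zero_add, Fin.sum_univ_succAbove _ j₀] at hrel
            have hrel' : (ψ (some j₀) : ℝ) * (b : ℝ) ^ t j₀ +
                ∑ i, (ψ (some (j₀.succAbove i)) : ℝ) * (b : ℝ) ^ t (j₀.succAbove i) = 0 := by
              exact_mod_cast hrel
            refine mul_left_cancel₀ hj₀' ?_
            rw [Finset.mul_sum, eq_neg_of_add_eq_zero_left hrel', ← Finset.sum_neg_distrib]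
            exact Finset.sum_congr rfl fun i _ => by field_simp)
        rw [e] at hne ⊢
        exact hκ (fun i => t (j₀.succAbove i)) T P (fun i => ht _) hne
      · have h0' : (ψ none : ℝ) ≠ 0 := by exact_mod_cast h0
        filter_upwards [pure_lower b hb (r + 1) fun j => a j + (ψ (some j) : ℝ) / ψ none,
          self_mem_nhdsWithin] with κ hκ hκ0 t T P ht hrel hne
        have hrel' : (ψ none : ℝ) * P + ∑ j, (ψ (some j) : ℝ) * (b : ℝ) ^ t j = 0 := by
          exact_mod_cast hrel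
        have e : ∑ j, a j * (b : ℝ) ^ t j - P =
            ∑ j, (a j + (ψ (some j) : ℝ) / ψ none) * (b : ℝ) ^ t j := by
          have hP : (P : ℝ) = -∑ j, (ψ (some j) : ℝ) / ψ none * (b : ℝ) ^ t j := by
            refine mul_left_cancel₀ h0' ?_
            rw [eq_neg_of_add_eq_zero_left hrel', mul_neg, Finset.mul_sum]
            congr 1
            exact Finset.sum_congr rfl fun i _ => by field_simp
          rw [hP, sub_neg_eq_add, ← Finset.sum_add_distrib]
          exact Finset.sum_congr rfl fun i _ => by ring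
        rw [e] at hne ⊢
        have := hκ t hne
        nlinarith [hbe T, abs_nonneg (∑ j, (a j + (ψ (some j) : ℝ) / ψ none) * (b : ℝ) ^ t j)]
    have hAe : 0 < (A ^ ε)⁻¹ := by positivity
    filter_upwards [(Ψ.eventually_all).mpr key, eventually_le_of_pos one_pos,
      eventually_le_of_pos hAe] with κ hκ hκ1 hκ2 t T P ht hne
    set Δ := ∑ j, a j * (b : ℝ) ^ t j - P with hΔ
    by_cases h1 : 1 ≤ |Δ|
    · nlinarith [hbe T]
    push Not at h1
    have hbT : (1 : ℝ) ≤ (b : ℝ) ^ T := one_le_pow₀ hb1.le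
    have hH : (A * (b : ℝ) ^ T) ^ ε = A ^ ε * (b : ℝ) ^ (ε * T) := by
      rw [Real.mul_rpow (by linarith) (by positivity), mul_comm ε, Real.rpow_natCast_mul hb0.le]
    by_cases h2 : |Δ| * (A * (b : ℝ) ^ T) ^ ε ≤ 1
    · obtain ⟨ψ, hψ, hrel⟩ := hΨ (fun o => o.elim P fun j => (b : ℤ) ^ t j)
        (fun o => o.elim 0 t) (A * (b : ℝ) ^ T) (by
          rintro (_ | j)
          · simp only [Option.elim_none]
            have h3 : |∑ j, a j * (b : ℝ) ^ t j| ≤ (∑ j, |a j|) * (b : ℝ) ^ T := by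
              refine (Finset.abs_sum_le_sum_abs _ _).trans ?_
              rw [Finset.sum_mul]
              refine Finset.sum_le_sum fun j _ => ?_
              rw [abs_mul, abs_of_pos (by positivity : (0 : ℝ) < (b : ℝ) ^ t j)]
              exact mul_le_mul_of_nonneg_left (pow_le_pow_right₀ hb1.le (ht j)) (abs_nonneg _)
            have h4 : (P : ℝ) = ∑ j, a j * (b : ℝ) ^ t j + -Δ := by rw [hΔ]; ring
            have h5 := abs_add_le (∑ j, a j * (b : ℝ) ^ t j) (-Δ)
            rw [← h4, abs_neg] at h5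
            rw [hA, add_mul]
            linarith
          · simp only [Option.elim_some, Int.cast_pow, Int.cast_natCast]
            rw [abs_of_pos (by positivity)]
            have := pow_le_pow_right₀ hb1.le (ht j)
            nlinarith) (by rintro (_ | j) <;> simp) (by
          rw [Fintype.prod_option, Fintype.sum_option, Fintype.sum_option]
          have e1 : ∀ i : Fin (r + 1), |∑ j, formMat a (some i) j *
              (((j.elim P fun j => (b : ℤ) ^ t j : ℤ)) : ℝ)| = (b : ℝ) ^ t i := by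
            intro i
            rw [Fintype.sum_option]
            simp [formMat]
          simp only [e1]
          have e2 : formMat a none none * (((none : Option (Fin (r + 1))).elim P
              fun j => (b : ℤ) ^ t j : ℤ) : ℝ) + ∑ j, formMat a none (some j) *
              (((some j : Option (Fin (r + 1))).elim P fun j => (b : ℤ) ^ t j : ℤ) : ℝ) = Δ := by
            simp [formMat, hΔ]; ring
          rw [e2, Finset.prod_pow_eq_pow_sum]
          simp only [Option.elim_none, Option.elim_some, zero_add]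
          have : (0 : ℝ) < (b : ℝ) ^ ∑ j, t j := by positivity
          nlinarith)
      rw [Fintype.sum_option] at hrel
      exact hκ ψ hψ t T P ht (by simpa using hrel) hne
    · push Not at h2
      rw [hH] at h2
      refine hκ2.trans ?_
      rw [inv_le_iff_one_le_mul₀ (by positivity)]
      nlinarith

/-- Nonzero values of `∑ a j * b ^ t j - P` are not exponentially small. -/
theorem sum_pow_lower (b : ℕ) (hb : 2 ≤ b) (r : ℕ) (a : Fin r → ℝ)
    (ha : ∀ j, IsAlgebraic ℚ (a j)) {ε : ℝ} (hε : 0 < ε) :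
    ∃ κ : ℝ, 0 < κ ∧ ∀ (t : Fin r → ℕ) (T : ℕ) (P : ℤ), (∀ j, t j ≤ T) →
      ∑ j, a j * (b : ℝ) ^ t j - P ≠ 0 →
      κ ≤ |∑ j, a j * (b : ℝ) ^ t j - P| * (b : ℝ) ^ (ε * T) := by
  obtain ⟨κ, h1, h2⟩ := ((sum_pow_lower_ev b hb hε r a ha).and self_mem_nhdsWithin).exists
  exact ⟨κ, h2, h1⟩

/-- Finset form: at most `r` terms, coefficients in a fixed finite set of algebraic numbers. -/
theorem finset_sum_pow_lower (b : ℕ) (hb : 2 ≤ b) (r : ℕ) (A : Finset ℝ)
    (hA : ∀ a ∈ A, IsAlgebraic ℚ a) {ε : ℝ} (hε : 0 < ε) :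
    ∃ κ : ℝ, 0 < κ ∧ ∀ (s : Finset ℕ) (c : ℕ → ℝ) (T : ℕ) (P : ℤ), s.card ≤ r →
      (∀ t ∈ s, c t ∈ A) → (∀ t ∈ s, t ≤ T) → ∑ t ∈ s, c t * (b : ℝ) ^ t - P ≠ 0 →
      κ ≤ |∑ t ∈ s, c t * (b : ℝ) ^ t - P| * (b : ℝ) ^ (ε * T) := by
  have key : ∀ᶠ κ in 𝓝[>] (0 : ℝ), ∀ q : Fin (r + 1), ∀ a : Fin q → A,
      ∀ (t : Fin q → ℕ) (T : ℕ) (P : ℤ), (∀ j, t j ≤ T) →
      ∑ j, (a j : ℝ) * (b : ℝ) ^ t j - P ≠ 0 →
      κ ≤ |∑ j, (a j : ℝ) * (b : ℝ) ^ t j - P| * (b : ℝ) ^ (ε * T) :=
    eventually_all.mpr fun q => eventually_all.mpr fun a =>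
      sum_pow_lower_ev b hb hε q (fun j => (a j : ℝ)) fun j => hA _ (a j).2
  obtain ⟨κ, h1, h2⟩ := (key.and self_mem_nhdsWithin).exists
  refine ⟨κ, h2, fun s c T P hs hc hT hne => ?_⟩
  have e : ∑ t ∈ s, c t * (b : ℝ) ^ t =
      ∑ j : Fin s.card, c (s.equivFin.symm j) * (b : ℝ) ^ (s.equivFin.symm j : ℕ) := by
    rw [← Finset.sum_coe_sort s, ← Equiv.sum_comp s.equivFin.symm]
  rw [e] at hne ⊢
  exact h1 ⟨s.card, by omega⟩ (fun j => ⟨c (s.equivFin.symm j), hc _ (s.equivFin.symm j).2⟩)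
    (fun j => s.equivFin.symm j) T P (fun j => hT _ (s.equivFin.symm j).2) hne

end Pool.Agent.Subspace
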